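import Pool.Agent.Lib.MP_6cd19d_an.ND.P5b

section

/-!
# The uniform measure on the sphere and spherical means
-/

set_option autoImplicit false

open MeasureTheory Set Filter Topology Metric
open scoped ENNReal NNReal RealInnerProductSpace

namespace Pool.Agent.Lib.MP_6cd19d_an.A

open Pool.Agent.Lib.MP_6cd19d_an.ND

variable {n : ℕ}

/-- (RA-B3a) The uniform probability measure on the unit sphere: the image of the normalised Lebesgue measure on the
unit ball under `z ↦ ‖z‖⁻¹ • z`; invariance because Lebesgue measure is invariant under linear isometries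
(`LinearIsometryEquiv.measurePreserving`). -/
theorem exists_sphere_measure (hn : 1 ≤ n) :
    ∃ σ : Measure (E n), σ univ = 1 ∧ σ (sphere (0 : E n) 1)ᶜ = 0 ∧
      ∀ T : E n ≃ₗᵢ[ℝ] E n, σ.map T = σ := by
  have : Nonempty (Fin n) := ⟨⟨0, hn⟩⟩
  have : Nontrivial (E n) := inferInstance
  set B : Set (E n) := ball (0 : E n) 1 with hB
  set c : ℝ≥0∞ := (volume B)⁻¹ with hc
  have hB0 : volume B ≠ 0 := (measure_ball_pos volume (0 : E n) one_pos).ne'
  have hBt : volume B ≠ ⊤ := measure_ball_lt_top.ne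
  set ν : Measure (E n) := c • (volume : Measure (E n)).restrict B with hν
  set f : E n → E n := fun z => ‖z‖⁻¹ • z with hf
  have hfm : Measurable f := by
    have h1 : Measurable fun z : E n => ‖z‖⁻¹ := measurable_norm.inv
    exact h1.smul measurable_id
  have hν1 : ν univ = 1 := by
    rw [hν, Measure.smul_apply, Measure.restrict_apply_univ, smul_eq_mul, hc,
      ENNReal.inv_mul_cancel hB0 hBt]
  refine ⟨ν.map f, ?_, ?_, ?_⟩
  · rw [Measure.map_apply hfm MeasurableSet.univ, preimage_univ, hν1]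
  · rw [Measure.map_apply hfm isClosed_sphere.measurableSet.compl]
    have h1 : f ⁻¹' (sphere (0 : E n) 1)ᶜ ⊆ {0} := by
      intro z hz
      by_contra hz0
      apply hz
      have hz1 : ‖z‖ ≠ 0 := fun h => hz0 (norm_eq_zero.1 h)
      rw [mem_sphere_zero_iff_norm, hf, norm_smul, norm_inv, norm_norm, inv_mul_cancel₀ hz1]
    refine measure_mono_null h1 ?_
    rw [hν, Measure.smul_apply, smul_eq_mul]
    have h2 : ((volume : Measure (E n)).restrict B) {0} = 0 := by
      refine le_antisymm ((Measure.restrict_apply_le _ _).trans ?_) zero_le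
      exact (measure_singleton (μ := (volume : Measure (E n))) 0).le
    rw [h2, mul_zero]
  · intro T
    have hTm : Measurable T := T.continuous.measurable
    have h1 : T ∘ f = f ∘ T := by
      ext1 z
      simp only [Function.comp_apply, hf, map_smul, LinearIsometryEquiv.norm_map]
    have h2 : ν.map T = ν := by
      rw [hν, Measure.map_smul]
      congr 1
      have h3 : T ⁻¹' B = B := by
        ext z
        simp only [hB, mem_preimage, mem_ball_zero_iff, LinearIsometryEquiv.norm_map]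
      have h4 := (T.measurePreserving.restrict_preimage (s := B) measurableSet_ball).map_eq
      rwa [h3] at h4
    rw [Measure.map_map hTm hfm, h1, ← Measure.map_map hfm hTm, h2]

/-- (RA-B3b) Two vectors of the same norm are related by a linear isometry (a reflection, `reflection_sub`). -/
theorem exists_isometry {x y : E n} (h : ‖x‖ = ‖y‖) : ∃ T : E n ≃ₗᵢ[ℝ] E n, T x = y :=
  ⟨_, Submodule.reflection_sub h⟩

private lemma B3_inv {σ : Measure (E n)} (hT : ∀ T : E n ≃ₗᵢ[ℝ] E n, σ.map T = σ) (q : ℝ)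
    (T : E n ≃ₗᵢ[ℝ] E n) (x : E n) (r : ℝ) :
    ∫⁻ ω, (edist (T x) (r • ω)) ^ (-q) ∂σ = ∫⁻ ω, (edist x (r • ω)) ^ (-q) ∂σ := by
  have hm : Measurable fun ω : E n => (edist (T x) (r • ω)) ^ (-q) := by
    fun_prop
  conv_lhs => rw [← hT T]
  rw [lintegral_map hm T.continuous.measurable]
  refine lintegral_congr fun ω => ?_
  rw [← map_smul, T.isometry.edist_eq]

private lemma B3_avg {σ : Measure (E n)} (hσ : σ univ = 1 ∧ σ (sphere (0 : E n) 1)ᶜ = 0)
    (hT : ∀ T : E n ≃ₗᵢ[ℝ] E n, σ.map T = σ) (q : ℝ) (x : E n) (r : ℝ) :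
    ∫⁻ ω, (edist x (r • ω)) ^ (-q) ∂σ =
      ∫⁻ e, ∫⁻ ω, (edist (‖x‖ • e) (r • ω)) ^ (-q) ∂σ ∂σ := by
  have hs : ∀ᵐ e ∂σ, e ∈ sphere (0 : E n) 1 := by
    rw [ae_iff]
    exact hσ.2
  have h1 : ∫⁻ e, ∫⁻ ω, (edist (‖x‖ • e) (r • ω)) ^ (-q) ∂σ ∂σ =
      ∫⁻ _ : E n, (∫⁻ ω, (edist x (r • ω)) ^ (-q) ∂σ) ∂σ := by
    refine lintegral_congr_ae ?_
    filter_upwards [hs] with e he
    have he1 : ‖e‖ = 1 := mem_sphere_zero_iff_norm.1 he
    obtain ⟨T, hTx⟩ := exists_isometry (x := x) (y := ‖x‖ • e) (by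
      rw [norm_smul, norm_norm, he1, mul_one])
    rw [← hTx]
    exact B3_inv hT q T x r
  rw [h1, lintegral_const, hσ.1, mul_one]

/-- (RA-B3c) The spherical means are symmetric and radial.

Proof.  Let `A x y = ∫⁻ ω, edist x (‖y‖ • ω) ^ (-q) ∂σ`.  For a linear isometry `T`: `A (T x) y = A x y` (invariance of `σ`), and
`A x (T y) = A x y` trivially.  So `A x y` depends only on `‖x‖, ‖y‖`.  For unit `e` in the support of `σ`:
`A x y = A (‖x‖ • e) y` for σ-a.e. `e` (`‖e‖ = 1`); integrate over `e`: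
`A x y = ∫⁻ e, ∫⁻ ω, edist (‖x‖ • e) (‖y‖ • ω) ^ (-q) ∂σ ∂σ`, which is symmetric in `x, y` by Tonelli and `edist_comm`. -/
theorem mean_symm {σ : Measure (E n)} (hσ : σ univ = 1 ∧ σ (sphere (0 : E n) 1)ᶜ = 0)
    (hT : ∀ T : E n ≃ₗᵢ[ℝ] E n, σ.map T = σ) (q : ℝ) (x y : E n) :
    ∫⁻ ω, (edist x (‖y‖ • ω)) ^ (-q) ∂σ = ∫⁻ ω, (edist (‖x‖ • ω) y) ^ (-q) ∂σ := by
  have : IsProbabilityMeasure σ := ⟨hσ.1⟩
  have h1 : ∀ ω : E n, (edist (‖x‖ • ω) y) ^ (-q) = (edist y (‖x‖ • ω)) ^ (-q) := fun ω => by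
    rw [edist_comm]
  simp only [h1]
  rw [B3_avg hσ hT q x ‖y‖, B3_avg hσ hT q y ‖x‖, lintegral_lintegral_swap]
  · refine lintegral_congr fun e => lintegral_congr fun ω => ?_
    rw [edist_comm]
  · refine Measurable.aemeasurable ?_
    simp only [Function.uncurry_def]
    fun_prop

end Pool.Agent.Lib.MP_6cd19d_an.A
end

section

/-!
# Rules for first and second derivatives
-/

set_option autoImplicit false

open MeasureTheory Set Filter Topology Metric
open scoped ENNReal NNReal RealInnerProductSpace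

namespace Pool.Agent.Lib.MP_6cd19d_an.A

open Pool.Agent.Lib.MP_6cd19d_an.ND

variable {n : ℕ}

/-- (RA-D2a) Uniqueness. -/
theorem D2.unique {g : ℝ → ℝ} {t a b a' b' : ℝ} (h : D2 g t a b) (h' : D2 g t a' b') :
    a = a' ∧ b = b' := by
  obtain ⟨g1, h1, h2, h3⟩ := h
  obtain ⟨g1', h1', h2', h3'⟩ := h'
  have he : g1 =ᶠ[𝓝 t] g1' := by
    filter_upwards [h1, h1'] with s hs hs'
    exact hs.unique hs'
  refine ⟨?_, ?_⟩
  · rw [← h2, ← h2']
    exact he.self_of_nhds
  · exact h3.unique (h3'.congr_of_eventuallyEq he)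

/-- (RA-D2b) -/
theorem D2.congr {g g' : ℝ → ℝ} {t a b : ℝ} (h : D2 g t a b) (he : g' =ᶠ[𝓝 t] g) :
    D2 g' t a b := by
  obtain ⟨g1, h1, h2, h3⟩ := h
  refine ⟨g1, ?_, h2, h3⟩
  filter_upwards [h1, he.eventuallyEq_nhds] with s hs hs'
  exact hs.congr_of_eventuallyEq hs'

/-- (RA-D2d) The chain rule. -/
theorem D2.comp {F F1 g : ℝ → ℝ} {t a b F2 : ℝ} (hg : D2 g t a b)
    (hF : ∀ᶠ s in 𝓝 (g t), HasDerivAt F (F1 s) s) (hF1 : HasDerivAt F1 F2 (g t)) :
    D2 (fun s => F (g s)) t (F1 (g t) * a) (F2 * a ^ 2 + F1 (g t) * b) := by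
  obtain ⟨g1, h1, h2, h3⟩ := hg
  have hgt : HasDerivAt g a t := by
    have := h1.self_of_nhds
    rwa [h2] at this
  have hc : Tendsto g (𝓝 t) (𝓝 (g t)) := hgt.continuousAt
  refine ⟨fun s => F1 (g s) * g1 s, ?_, ?_, ?_⟩
  · filter_upwards [h1, hc.eventually hF] with s hs hs'
    exact hs'.comp s hs
  · simp only [h2]
  · have h4 : HasDerivAt (fun s => F1 (g s)) (F2 * a) t := hF1.comp t hgt
    have h5 := h4.mul h3
    refine h5.congr_deriv ?_
    rw [h2]
    ring

private theorem D2L_line (x : E n) (i : Fin n) :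
    ContinuousAt (fun t : ℝ => x + t • (bv i : E n)) 0 := by fun_prop

private theorem D2L_zero (x : E n) (i : Fin n) : x + (0 : ℝ) • (bv i : E n) = x := by simp

/-- (RA-D2e) Congruence along coordinate lines for functions equal near the point. -/
theorem hasD2_congr {f f' : E n → ℝ} {x : E n} {g h : Fin n → ℝ} (hf : HasD2 f x g h)
    (he : f' =ᶠ[𝓝 x] f) : HasD2 f' x g h := by
  intro i
  have h1 : Tendsto (fun t : ℝ => x + t • (bv i : E n)) (𝓝 0) (𝓝 x) := by
    have := D2L_line x i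
    rwa [ContinuousAt, D2L_zero] at this
  exact D2.congr (hf i) (h1.eventually he)

/-- (RA-D2f) The chain rule along the coordinate lines. -/
theorem hasD2_comp {f : E n → ℝ} {x : E n} {g h : Fin n → ℝ} {F F1 : ℝ → ℝ} {F2 : ℝ}
    (hf : HasD2 f x g h) (hF : ∀ᶠ s in 𝓝 (f x), HasDerivAt F (F1 s) s)
    (hF1 : HasDerivAt F1 F2 (f x)) :
    HasD2 (fun z => F (f z)) x (fun i => F1 (f x) * g i)
      (fun i => F2 * (g i) ^ 2 + F1 (f x) * h i) := by
  intro i
  have h1 : D2 (fun t : ℝ => f (x + t • (bv i : E n))) 0 (g i) (h i) := hf i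
  have h2 := D2.comp (F := F) (F1 := F1) (F2 := F2) h1 (by simpa using hF) (by simpa using hF1)
  simp only [D2L_zero] at h2
  exact h2

end Pool.Agent.Lib.MP_6cd19d_an.A
end

section

/-!
# Line derivatives of the Riesz potentials off the support
-/

set_option autoImplicit false

open MeasureTheory Set Filter Topology Metric
open scoped ENNReal NNReal RealInnerProductSpace

namespace Pool.Agent.Lib.MP_6cd19d_an.A

open Pool.Agent.Lib.MP_6cd19d_an.ND

variable {n : ℕ}

private theorem g2_int {F : Type} [NormedAddCommGroup F] {K : Set (E n)} (hK : IsCompact K)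
    {μ : Measure (E n)} (hfin : μ univ ≠ ⊤) (hμ : μ Kᶜ = 0) {f : E n → F}
    (hf : ContinuousOn f K) : Integrable f μ := by
  have : IsFiniteMeasure μ := ⟨hfin.lt_top⟩
  have h1 := hf.integrableOn_compact (μ := μ) hK
  rwa [IntegrableOn, Measure.restrict_eq_self_of_ae_mem (s := K) (by rw [ae_iff]; exact hμ)] at h1

private theorem g2_cont {K : Set (E n)} {x : E n} (hx : x ∉ K) (p : ℝ) :
    ContinuousOn (fun y : E n => ‖x - y‖ ^ p) K := by
  refine ContinuousOn.rpow_const (by fun_prop) fun y hy => Or.inl ?_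
  rw [norm_ne_zero_iff, sub_ne_zero]
  rintro rfl
  exact hx hy

private theorem g2_pos {K : Set (E n)} (hK : IsCompact K)
    {μ : Measure (E n)} (hfin : μ univ ≠ ⊤) (h0 : μ univ ≠ 0) (hμ : μ Kᶜ = 0) {x : E n}
    (hx : x ∉ K) (p : ℝ) : 0 < ∫ y, ‖x - y‖ ^ p ∂μ := by
  have hint := g2_int hK hfin hμ (g2_cont hx p)
  rw [integral_pos_iff_support_of_nonneg (fun y => Real.rpow_nonneg (norm_nonneg _) _) hint]
  have h1 : 0 < μ K := by
    refine pos_iff_ne_zero.2 fun h => h0 ?_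
    have h2 : μ univ ≤ μ K + μ Kᶜ := by
      rw [← union_compl_self K]
      exact measure_union_le _ _
    rw [h, hμ, add_zero] at h2
    exact le_antisymm h2 bot_le
  refine h1.trans_le (measure_mono fun y hy => ?_)
  rw [Function.mem_support]
  have hxy : 0 < ‖x - y‖ := by
    rw [norm_pos_iff, sub_ne_zero]
    rintro rfl
    exact hx hy
  exact (Real.rpow_pos_of_pos hxy _).ne'

/-- (RA-G2a) Integrability off `K` (continuous on the compact `K`, `μ = μ.restrict K`). -/
theorem integrable_rpow {p : ℝ} {K : Set (E n)} (hK : IsCompact K) {μ : Measure (E n)}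
    (hfin : μ univ ≠ ⊤) (hμ : μ Kᶜ = 0) {x : E n} (hx : x ∉ K) :
    Integrable (fun y => ‖x - y‖ ^ p) μ ∧
    ∀ b : E n, Integrable (fun y => ‖x - y‖ ^ p * ⟪b, y - x⟫) μ ∧
    Integrable (fun y => (‖x - y‖ ^ p) • (y - x)) μ := by
  refine ⟨g2_int hK hfin hμ (g2_cont hx p), fun b => ⟨?_, ?_⟩⟩
  · refine g2_int hK hfin hμ ((g2_cont hx p).mul ?_)
    fun_prop
  · refine g2_int hK hfin hμ ((g2_cont hx p).smul ?_)
    fun_prop

/-- (RA-G2b) Off the compact set `K` the real potential `rU` has along the coordinate lines the derivatives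
`q (vV)_i` and second derivatives with sum `q (q + 2 - n) rS`.

Proof.  `ND.hasD2_pot`, `ND.lap_pot` (file `ND/P5a.lean`, proved), and `(vV q μ x) i = ∫ ‖x-y‖^(-q-2) (y i - x i)`
(`inner_bv`, `integral_inner`, or `EuclideanSpace.proj i` and `ContinuousLinearMap.integral_comp_comm`). -/
theorem hasD2_rU {q : ℝ} {K : Set (E n)} (hK : IsCompact K) {μ : Measure (E n)}
    (hfin : μ univ ≠ ⊤) (hμ : μ Kᶜ = 0) {x : E n} (hx : x ∉ K) :
    ∃ b : Fin n → ℝ, HasD2 (rU q μ) x (fun i => q * (vV q μ x) i) b ∧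
      ∑ i, b i = q * (q + 2 - n) * rS q μ x := by
  have : IsFiniteMeasure μ := ⟨hfin.lt_top⟩
  have h1 := hasD2_pot q hK hμ hx
  have h2 := lap_pot q hK hμ hx
  refine ⟨_, ?_, h2⟩
  have e : (fun i => q * (vV q μ x) i) =
      fun i => ∫ y, (-q) * (x i - y i) * ‖x - y‖ ^ (-q - 2) ∂μ := by
    funext i
    have hint := ((integrable_rpow (p := -q - 2) hK hfin hμ hx).2 0).2
    have h3 := (EuclideanSpace.proj i : E n →L[ℝ] ℝ).integral_comp_comm hint
    have h4 : (vV q μ x) i = ∫ y, ‖x - y‖ ^ (-q - 2) * (y i - x i) ∂μ := by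
      rw [vV]
      refine Eq.trans h3.symm ?_
      refine integral_congr_ae (Eventually.of_forall fun y => ?_)
      simp
    rw [h4, ← integral_const_mul]
    refine integral_congr_ae (Eventually.of_forall fun y => ?_)
    show q * (‖x - y‖ ^ (-q - 2) * (y i - x i)) = (-q) * (x i - y i) * ‖x - y‖ ^ (-q - 2)
    ring
  rw [e]
  exact h1

/-- (RA-G2c) Continuity of `rU` off `K` (dominated convergence; if all goes well from a formula
for the derivative of `z ↦ ‖z - y‖ ^ (-q)`, or `continuousAt_of_dominated`). -/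
theorem continuousAt_rU {q : ℝ} {K : Set (E n)} (hK : IsCompact K) {μ : Measure (E n)}
    (hfin : μ univ ≠ ⊤) (hμ : μ Kᶜ = 0) {x : E n} (hx : x ∉ K) :
    ContinuousAt (rU q μ) x := by
  have : IsFiniteMeasure μ := ⟨hfin.lt_top⟩
  have hae : ∀ᵐ y ∂μ, y ∈ K := by
    rw [ae_iff]
    exact hμ
  have h1 : Kᶜ ∈ 𝓝 x := hK.isClosed.isOpen_compl.mem_nhds hx
  obtain ⟨ε, hε, hball⟩ := Metric.nhds_basis_closedBall.mem_iff.1 h1
  have hc : ContinuousOn (fun p : E n × E n => ‖p.1 - p.2‖ ^ (-q)) (closedBall x ε ×ˢ K) := by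
    refine ContinuousOn.rpow_const (by fun_prop) fun p hp => Or.inl ?_
    rw [norm_ne_zero_iff, sub_ne_zero]
    intro h
    exact hball hp.1 (h ▸ hp.2)
  obtain ⟨C, hC⟩ := ((isCompact_closedBall x ε).prod hK).exists_bound_of_continuousOn hc
  have hnh : closedBall x ε ∈ 𝓝 x := closedBall_mem_nhds x hε
  refine continuousAt_of_dominated (bound := fun _ => C) ?_ ?_ (integrable_const C) ?_
  · filter_upwards [hnh] with z hz
    exact (g2_int hK hfin hμ (g2_cont (hball hz) (-q))).aestronglyMeasurable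
  · filter_upwards [hnh] with z hz
    filter_upwards [hae] with y hy
    exact hC (z, y) ⟨hz, hy⟩
  · filter_upwards [hae] with y hy
    refine ContinuousAt.rpow_const (by fun_prop) (Or.inl ?_)
    rw [norm_ne_zero_iff, sub_ne_zero]
    rintro rfl
    exact hx hy

/-- (RA-G2d) Off `K` the extended potential is the real one (`ND.pot_toReal`). -/
theorem pot_eq_rU {q : ℝ} {K : Set (E n)} (hK : IsCompact K) {μ : Measure (E n)}
    (hfin : μ univ ≠ ⊤) (hμ : μ Kᶜ = 0) {x : E n} (hx : x ∉ K) :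
    pot q μ x = ENNReal.ofReal (rU q μ x) := by
  have : IsFiniteMeasure μ := ⟨hfin.lt_top⟩
  obtain ⟨h1, h2⟩ := pot_toReal q hK hμ hx
  rw [rU, ← h1, ENNReal.ofReal_toReal h2.ne]

/-- (RA-G2e) Positivity. -/
theorem rU_pos {q : ℝ} {K : Set (E n)} (hK : IsCompact K) {μ : Measure (E n)}
    (hfin : μ univ ≠ ⊤) (h0 : μ univ ≠ 0) (hμ : μ Kᶜ = 0) {x : E n} (hx : x ∉ K) :
    0 < rU q μ x ∧ 0 < rS q μ x := by
  exact ⟨g2_pos hK hfin h0 hμ hx _, g2_pos hK hfin h0 hμ hx _⟩

end Pool.Agent.Lib.MP_6cd19d_an.A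
end
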