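import Pool.Agent.Lib.MP_6cd19d_an.A.G2
import Pool.Agent.Lib.MP_6cd19d_an.ND.P5b
import Pool.Agent.Lib.MP_6cd19d_an.ND.B04

section

section

/-!
# The potential of the ball as a function of the distance: derivatives
-/

set_option autoImplicit false

open MeasureTheory Set Filter Topology Metric
open scoped ENNReal NNReal RealInnerProductSpace

namespace Pool.Agent.Lib.MP_6cd19d_an.A

open Pool.Agent.Lib.MP_6cd19d_an.ND

variable {n : ℕ}

private theorem U1_out {ℓ : ℝ} (hℓ : 1 < ℓ) (i₀ : Fin n) : ℓ • (bv i₀ : E n) ∉ BB n := by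
  rw [mem_closedBall_zero_iff, norm_smul, norm_bv, mul_one, Real.norm_of_nonneg (by linarith)]
  exact not_le.2 hℓ

private theorem U1_rU {q : ℝ} {μ : Measure (E n)} {u : ℝ → ℝ} (hB : BallM n q μ u) {z : E n}
    (hz : 1 < ‖z‖) : rU q μ z = u ‖z‖ := by
  have hzK : z ∉ BB n := by
    rw [mem_closedBall_zero_iff]
    exact not_le.2 hz
  have hfin : μ univ ≠ ⊤ := by rw [hB.prob]; exact ENNReal.one_ne_top
  have h0 : μ univ ≠ 0 := by rw [hB.prob]; exact one_ne_zero
  have h1 := pot_eq_rU (q := q) (isCompact_closedBall (0 : E n) 1) hfin hB.supp hzK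
  rw [hB.pot_eq z] at h1
  have h2 := (rU_pos (q := q) (isCompact_closedBall (0 : E n) 1) hfin h0 hB.supp hzK).1
  rw [ENNReal.ofReal_eq_ofReal_iff (hB.u_pos _ (norm_nonneg _)).le h2.le] at h1
  exact h1.symm

private theorem U1_norm {ℓ t : ℝ} {i i₀ : Fin n} (hi : i ≠ i₀) :
    ‖ℓ • (bv i₀ : E n) + t • (bv i : E n)‖ = Real.sqrt (ℓ ^ 2 + t ^ 2) := by
  rw [← Real.sqrt_sq (norm_nonneg (ℓ • (bv i₀ : E n) + t • (bv i : E n))),
    @norm_add_sq_real, norm_smul, norm_smul, norm_bv, norm_bv, real_inner_smul_left,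
    real_inner_smul_right, inner_bv]
  have h1 : (bv i₀ : E n) i = 0 := by
    simp [bv, hi]
  rw [h1]
  simp

private theorem U1_sqrt {ℓ : ℝ} (hℓ : 0 < ℓ) : D2 (fun t : ℝ => Real.sqrt (ℓ ^ 2 + t ^ 2)) 0 0 (1 / ℓ) := by
  have h1 : ∀ t : ℝ, HasDerivAt (fun t : ℝ => Real.sqrt (ℓ ^ 2 + t ^ 2))
      (t / Real.sqrt (ℓ ^ 2 + t ^ 2)) t := by
    intro t
    have h2 : HasDerivAt (fun t : ℝ => ℓ ^ 2 + t ^ 2) (2 * t) t := by
      have h3 := (hasDerivAt_pow 2 t).const_add (ℓ ^ 2)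
      simpa using h3
    have hpos : ℓ ^ 2 + t ^ 2 ≠ 0 := by positivity
    refine (h2.sqrt hpos).congr_deriv ?_
    have : Real.sqrt (ℓ ^ 2 + t ^ 2) ≠ 0 := by positivity
    field_simp
  refine ⟨fun t => t / Real.sqrt (ℓ ^ 2 + t ^ 2), Eventually.of_forall h1, by simp, ?_⟩
  have hs0 : Real.sqrt (ℓ ^ 2 + (0 : ℝ) ^ 2) = ℓ := by
    rw [show ℓ ^ 2 + (0 : ℝ) ^ 2 = ℓ ^ 2 by ring, Real.sqrt_sq hℓ.le]
  have h4 := (hasDerivAt_id (0 : ℝ)).div (h1 0) (by rw [hs0]; exact hℓ.ne')
  refine h4.congr_deriv ?_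
  rw [hs0]
  simp only [id, zero_div, mul_zero, sub_zero, one_mul]
  field_simp

private theorem U1_neg {q : ℝ} {μ : Measure (E n)} {u : ℝ → ℝ} (hB : BallM n q μ u)
    (i₀ : Fin n) {ℓ : ℝ} (hℓ : 1 < ℓ) : (vV q μ (ℓ • (bv i₀ : E n))) i₀ < 0 := by
  have hfin : μ univ ≠ ⊤ := by rw [hB.prob]; exact ENNReal.one_ne_top
  have hK := isCompact_closedBall (0 : E n) 1
  obtain ⟨hi1, hi2⟩ := integrable_rpow (p := -q - 2) hK hfin hB.supp (U1_out hℓ i₀)
  have hi3 := (hi2 (bv i₀)).1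
  have hi4 := (hi2 (bv i₀)).2
  have h1 : (vV q μ (ℓ • (bv i₀ : E n))) i₀ =
      ∫ y, ‖ℓ • (bv i₀ : E n) - y‖ ^ (-q - 2) * ⟪(bv i₀ : E n), y - ℓ • (bv i₀ : E n)⟫ ∂μ := by
    rw [← inner_bv, real_inner_comm, vV, ← integral_inner hi4]
    refine integral_congr_ae (Eventually.of_forall fun y => ?_)
    show ⟪(bv i₀ : E n), (‖ℓ • (bv i₀ : E n) - y‖ ^ (-q - 2)) • (y - ℓ • (bv i₀ : E n))⟫ = _
    rw [real_inner_smul_right]
  rw [h1, ← neg_pos, ← integral_neg]
  have hae : ∀ᵐ y ∂μ, y ∈ BB n := by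
    rw [ae_iff]
    exact hB.supp
  have hpos : ∀ y ∈ BB n, 0 < -(‖ℓ • (bv i₀ : E n) - y‖ ^ (-q - 2) *
      ⟪(bv i₀ : E n), y - ℓ • (bv i₀ : E n)⟫) := by
    intro y hy
    rw [mem_closedBall_zero_iff] at hy
    have h2 : ⟪(bv i₀ : E n), y - ℓ • (bv i₀ : E n)⟫ < 0 := by
      rw [inner_sub_right, real_inner_smul_right, real_inner_self_eq_norm_sq, norm_bv]
      have h3 := real_inner_le_norm (bv i₀ : E n) y
      rw [norm_bv] at h3
      linarith
    have h4 : 0 < ‖ℓ • (bv i₀ : E n) - y‖ := by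
      rw [norm_pos_iff, sub_ne_zero]
      rintro rfl
      rw [norm_smul, norm_bv, mul_one, Real.norm_of_nonneg (by linarith)] at hy
      linarith
    have h5 := Real.rpow_pos_of_pos h4 (-q - 2)
    nlinarith
  rw [integral_pos_iff_support_of_nonneg_ae]
  · have h6 : BB n ⊆ Function.support (fun y => -(‖ℓ • (bv i₀ : E n) - y‖ ^ (-q - 2) *
        ⟪(bv i₀ : E n), y - ℓ • (bv i₀ : E n)⟫)) := fun y hy => (hpos y hy).ne'
    refine lt_of_lt_of_le ?_ (measure_mono h6)
    have h7 : μ (BB n) = 1 := by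
      rw [← hB.prob]
      refine le_antisymm (measure_mono (subset_univ _)) ?_
      rw [← union_compl_self (BB n)]
      refine (measure_union_le _ _).trans ?_
      rw [hB.supp, add_zero]
    rw [h7]
    exact one_pos
  · filter_upwards [hae] with y hy
    exact (hpos y hy).le
  · exact hi3.neg

private theorem U1_shift {f : ℝ → ℝ} {a ℓ : ℝ} (h : HasDerivAt (fun t => f (ℓ + t)) a 0) :
    HasDerivAt f a ℓ := by
  have h1 : HasDerivAt (fun s : ℝ => s - ℓ) 1 ℓ := (hasDerivAt_id ℓ).sub_const ℓ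
  have h2 : HasDerivAt (fun t => f (ℓ + t)) a (ℓ - ℓ) := by rw [sub_self]; exact h
  have h3 := HasDerivAt.comp (h₂ := fun t => f (ℓ + t)) (h := fun s : ℝ => s - ℓ) ℓ h2 h1
  rw [mul_one] at h3
  refine h3.congr_of_eventuallyEq (Eventually.of_forall fun s => ?_)
  show f s = f (ℓ + (s - ℓ))
  congr 1
  ring

private theorem U1_shift' {f : ℝ → ℝ} {a ℓ t : ℝ} (h : HasDerivAt f a (ℓ + t)) :
    HasDerivAt (fun t => f (ℓ + t)) a t := by
  have h1 : HasDerivAt (fun s : ℝ => ℓ + s) 1 t := (hasDerivAt_id t).const_add ℓ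
  have h3 := HasDerivAt.comp (h₂ := f) (h := fun s : ℝ => ℓ + s) t h h1
  rw [mul_one] at h3
  exact h3

/-- (RA-U1) For `ℓ > 1`, with `x = ℓ e_{i₀}` (outside the closed ball): `rU q μ z = u ‖z‖` for every `z` outside the ball
(`pot_eq_rU`).

Proof.  Let `x = ℓ • bv i₀`.  By `hasD2_rU` (with `K = BB n`) the line functions have derivatives `q (vV)_i` and second derivatives
`b i` with `∑ b i = q (q+2-n) rS`.  Along `e_{i₀}`: `rU q μ (x + t e_{i₀}) = u (ℓ + t)`, so `u` is twice differentiable at `ℓ` (for every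
`ℓ > 1`: define `u1 ℓ = q (vV q μ (ℓ e_{i₀})) i₀`, and `u2 ℓ = b i₀`; the function `f'` in `HasD2` coincides near `0` with `t ↦ u1 (ℓ + t)` by
uniqueness of derivatives).  Along `e_i`, `i ≠ i₀`: `rU q μ (x + t e_i) = u (√(ℓ²+t²))`, whose derivatives at `t = 0` are `0` and
`u1 ℓ / ℓ` (`D2.comp`, `D2.unique`; `√(ℓ²+t²)` has derivatives `0`, `1/ℓ` at `0`).  So `(vV)_i = 0` for `i ≠ i₀`, i.e.
`vV = (u1 ℓ / q) e_{i₀}`, and `b i = u1 ℓ / ℓ`.  `u1 ℓ < 0`: `(vV)_{i₀} = ∫ (y_{i₀} - ℓ) |x-y|^(-q-2) < 0` as `y_{i₀} ≤ 1 < ℓ`. -/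
theorem u_deriv {q : ℝ} (hq0 : 0 < q) {μ : Measure (E n)} {u : ℝ → ℝ} (hB : BallM n q μ u)
    (i₀ : Fin n) :
    ∃ u1 u2 : ℝ → ℝ, ∀ ℓ : ℝ, 1 < ℓ → HasDerivAt u (u1 ℓ) ℓ ∧ HasDerivAt u1 (u2 ℓ) ℓ ∧
      u1 ℓ < 0 ∧ vV q μ (ℓ • (bv i₀ : E n)) = (u1 ℓ / q) • (bv i₀ : E n) ∧
      u2 ℓ + ((n : ℝ) - 1) * u1 ℓ / ℓ = q * (q + 2 - n) * rS q μ (ℓ • (bv i₀ : E n)) := by
  classical
  have hfin : μ univ ≠ ⊤ := by rw [hB.prob]; exact ENNReal.one_ne_top
  have hK := isCompact_closedBall (0 : E n) 1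
  have hex : ∀ ℓ : ℝ, ∃ b : Fin n → ℝ, 1 < ℓ →
      HasD2 (rU q μ) (ℓ • (bv i₀ : E n)) (fun i => q * (vV q μ (ℓ • (bv i₀ : E n))) i) b ∧
      ∑ i, b i = q * (q + 2 - n) * rS q μ (ℓ • (bv i₀ : E n)) := by
    intro ℓ
    by_cases hℓ : 1 < ℓ
    · obtain ⟨b, hb⟩ := hasD2_rU (q := q) hK hfin hB.supp (U1_out hℓ i₀)
      exact ⟨b, fun _ => hb⟩
    · exact ⟨0, fun h => absurd h hℓ⟩
  choose b hb using hex
  have hnear : ∀ ℓ : ℝ, 1 < ℓ → ∀ᶠ t in 𝓝 (0 : ℝ), 1 < ℓ + t := by
    intro ℓ hℓ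
    have hc : ContinuousAt (fun t : ℝ => ℓ + t) 0 := by fun_prop
    exact continuousAt_const.eventually_lt hc (by simpa using hℓ)
  have hline : ∀ ℓ : ℝ, 1 < ℓ → ∀ᶠ t in 𝓝 (0 : ℝ),
      rU q μ (ℓ • (bv i₀ : E n) + t • (bv i₀ : E n)) = u (ℓ + t) := by
    intro ℓ hℓ
    filter_upwards [hnear ℓ hℓ] with t ht
    have h1 : ‖ℓ • (bv i₀ : E n) + t • (bv i₀ : E n)‖ = ℓ + t := by
      rw [← add_smul, norm_smul, norm_bv, mul_one, Real.norm_of_nonneg (by linarith)]
    rw [U1_rU hB (by rw [h1]; exact ht), h1]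
  obtain ⟨u1, hu1⟩ : ∃ u1 : ℝ → ℝ, u1 = fun ℓ => q * (vV q μ (ℓ • (bv i₀ : E n))) i₀ := ⟨_, rfl⟩
  have hd1 : ∀ ℓ : ℝ, 1 < ℓ → HasDerivAt u (u1 ℓ) ℓ := by
    intro ℓ hℓ
    obtain ⟨f', hf1, hf2, hf3⟩ := (hb ℓ hℓ).1 i₀
    have h1 := hf1.self_of_nhds
    have h2 : HasDerivAt (fun t => u (ℓ + t)) (f' 0) 0 := by
      refine h1.congr_of_eventuallyEq ?_
      filter_upwards [hline ℓ hℓ] with t ht
      exact ht.symm
    rw [hf2] at h2
    rw [hu1]
    exact U1_shift h2
  have hd2 : ∀ ℓ : ℝ, 1 < ℓ → HasDerivAt u1 (b ℓ i₀) ℓ := by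
    intro ℓ hℓ
    obtain ⟨f', hf1, hf2, hf3⟩ := (hb ℓ hℓ).1 i₀
    refine U1_shift (hf3.congr_of_eventuallyEq ?_)
    filter_upwards [hf1, hnear ℓ hℓ, (hline ℓ hℓ).eventually_nhds] with t ht1 ht2 ht3
    have h1 : HasDerivAt (fun t => u (ℓ + t)) (f' t) t := by
      refine ht1.congr_of_eventuallyEq ?_
      filter_upwards [ht3] with r hr
      exact hr.symm
    exact (U1_shift' (hd1 _ ht2)).unique h1
  have hoff : ∀ ℓ : ℝ, 1 < ℓ → ∀ i, i ≠ i₀ →
      q * (vV q μ (ℓ • (bv i₀ : E n))) i = 0 ∧ b ℓ i = u1 ℓ / ℓ := by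
    intro ℓ hℓ i hi
    have hℓ0 : 0 < ℓ := by linarith
    have hg0 : Real.sqrt (ℓ ^ 2 + (0 : ℝ) ^ 2) = ℓ := by
      rw [show ℓ ^ 2 + (0 : ℝ) ^ 2 = ℓ ^ 2 by ring, Real.sqrt_sq hℓ0.le]
    have h1 := (hb ℓ hℓ).1 i
    have h1 : D2 (fun t : ℝ => rU q μ (ℓ • (bv i₀ : E n) + t • (bv i : E n))) 0
      (q * (vV q μ (ℓ • (bv i₀ : E n))) i) (b ℓ i) := h1
    have h2 : D2 (fun t : ℝ => u (Real.sqrt (ℓ ^ 2 + t ^ 2))) 0 (u1 ℓ * 0)
        (b ℓ i₀ * 0 ^ 2 + u1 ℓ * (1 / ℓ)) := by
      have h3 := D2.comp (F := u) (F1 := u1) (F2 := b ℓ i₀) (U1_sqrt hℓ0)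
        (by
          rw [hg0]
          filter_upwards [isOpen_Ioi.mem_nhds (show ℓ ∈ Ioi 1 from hℓ)] with s hs
          exact hd1 s hs) (by rw [hg0]; exact hd2 ℓ hℓ)
      rw [hg0] at h3
      exact h3
    have h4 : D2 (fun t : ℝ => rU q μ (ℓ • (bv i₀ : E n) + t • (bv i : E n))) 0 (u1 ℓ * 0)
        (b ℓ i₀ * 0 ^ 2 + u1 ℓ * (1 / ℓ)) := by
      refine h2.congr (Eventually.of_forall fun t => ?_)
      show rU q μ (ℓ • (bv i₀ : E n) + t • (bv i : E n)) = u (Real.sqrt (ℓ ^ 2 + t ^ 2))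
      have h5 : 1 < Real.sqrt (ℓ ^ 2 + t ^ 2) := by
        refine Real.lt_sqrt_of_sq_lt ?_
        have := sq_nonneg t
        nlinarith
      rw [U1_rU hB (by rw [U1_norm hi]; exact h5), U1_norm hi]
    obtain ⟨h6, h7⟩ := h1.unique h4
    refine ⟨by rw [h6, mul_zero], ?_⟩
    rw [h7]
    ring
  refine ⟨u1, fun ℓ => b ℓ i₀, fun ℓ hℓ => ⟨hd1 ℓ hℓ, hd2 ℓ hℓ, ?_, ?_, ?_⟩⟩
  · rw [hu1]
    exact mul_neg_of_pos_of_neg hq0 (U1_neg hB i₀ hℓ)
  · ext i
    by_cases hi : i = i₀
    · rw [hi, PiLp.smul_apply, smul_eq_mul, hu1]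
      have h1 : (bv i₀ : E n) i₀ = 1 := by simp [bv]
      rw [h1]
      field_simp
    · rw [PiLp.smul_apply, smul_eq_mul]
      have h1 : (bv i₀ : E n) i = 0 := by simp [bv, hi]
      rw [h1, mul_zero]
      have h2 := (hoff ℓ hℓ i hi).1
      rcases mul_eq_zero.1 h2 with h3 | h3
      · exact absurd h3 hq0.ne'
      · exact h3
  · show b ℓ i₀ + ((n : ℝ) - 1) * u1 ℓ / ℓ = _
    rw [← (hb ℓ hℓ).2]
    have h1 : ∀ i, b ℓ i = u1 ℓ / ℓ + if i = i₀ then b ℓ i₀ - u1 ℓ / ℓ else 0 := by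
      intro i
      by_cases hi : i = i₀
      · rw [if_pos hi, hi]
        ring
      · rw [if_neg hi, (hoff ℓ hℓ i hi).2, add_zero]
    rw [Finset.sum_congr rfl (fun i _ => h1 i), Finset.sum_add_distrib, Finset.sum_const, Finset.card_univ, Fintype.card_fin,
      Finset.sum_ite_eq' Finset.univ i₀, if_pos (Finset.mem_univ _), nsmul_eq_mul]
    ring

end Pool.Agent.Lib.MP_6cd19d_an.A
end

section

/-!
# The potential of the ball as a function of the distance: values
-/

set_option autoImplicit false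

open MeasureTheory Set Filter Topology Metric
open scoped ENNReal NNReal RealInnerProductSpace

namespace Pool.Agent.Lib.MP_6cd19d_an.A

open Pool.Agent.Lib.MP_6cd19d_an.ND

variable {n : ℕ}

private theorem U2_norm (i : Fin n) {ℓ : ℝ} (hℓ : 0 ≤ ℓ) : ‖ℓ • (bv i : E n)‖ = ℓ := by
  rw [norm_smul, norm_bv, mul_one, Real.norm_of_nonneg hℓ]

/-- (RA-U2a) Bounds: `ℓ - 1 ≤ dist x y ≤ ℓ + 1` for `‖x‖ = ℓ`, `y` in the ball. -/
theorem u_bounds {q : ℝ} (hn : 1 ≤ n) (hq0 : 0 < q) {μ : Measure (E n)} {u : ℝ → ℝ}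
    (hB : BallM n q μ u) {ℓ : ℝ} (hℓ : 1 < ℓ) :
    (ℓ + 1) ^ (-q) ≤ u ℓ ∧ u ℓ ≤ (ℓ - 1) ^ (-q) := by
  have i₀ : Fin n := ⟨0, hn⟩
  set x : E n := ℓ • (bv i₀ : E n) with hx
  have hxn : ‖x‖ = ℓ := U2_norm i₀ (by linarith)
  have hpot : pot q μ x = ENNReal.ofReal (u ℓ) := by rw [hB.pot_eq, hxn]
  have hae : ∀ᵐ y ∂μ, y ∈ BB n := by
    rw [ae_iff]
    exact hB.supp
  have hd : ∀ y ∈ BB n, ℓ - 1 ≤ dist x y ∧ dist x y ≤ ℓ + 1 := by
    intro y hy
    have hy1 : ‖y‖ ≤ 1 := by simpa using hy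
    have h1 := norm_sub_norm_le x y
    have h2 := norm_sub_le x y
    rw [dist_eq_norm]
    constructor <;> linarith
  have he : ∀ y ∈ BB n, (edist x y) ^ (-q) = ENNReal.ofReal (dist x y ^ (-q)) := by
    intro y hy
    have h1 := (hd y hy).1
    rw [edist_dist, ENNReal.ofReal_rpow_of_pos (by linarith)]
  have hconst : ∀ c : ℝ≥0∞, ∫⁻ _, c ∂μ = c := by
    intro c
    rw [lintegral_const, hB.prob, mul_one]
  constructor
  · have h1 : ENNReal.ofReal ((ℓ + 1) ^ (-q)) ≤ pot q μ x := by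
      rw [← hconst (ENNReal.ofReal ((ℓ + 1) ^ (-q)))]
      refine lintegral_mono_ae ?_
      filter_upwards [hae] with y hy
      rw [he y hy]
      apply ENNReal.ofReal_le_ofReal
      exact Real.rpow_le_rpow_of_nonpos (by linarith [(hd y hy).1]) (hd y hy).2 (by linarith)
    rw [hpot] at h1
    exact (ENNReal.ofReal_le_ofReal_iff (hB.u_pos ℓ (by linarith)).le).1 h1
  · have h1 : pot q μ x ≤ ENNReal.ofReal ((ℓ - 1) ^ (-q)) := by
      rw [← hconst (ENNReal.ofReal ((ℓ - 1) ^ (-q)))]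
      refine lintegral_mono_ae ?_
      filter_upwards [hae] with y hy
      rw [he y hy]
      apply ENNReal.ofReal_le_ofReal
      exact Real.rpow_le_rpow_of_nonpos (by linarith) (hd y hy).1 (by linarith)
    rw [hpot] at h1
    exact (ENNReal.ofReal_le_ofReal_iff (Real.rpow_nonneg (by linarith) _)).1 h1

/-- (RA-U2b) `u` is strictly decreasing on `(1,∞)` (negative derivative), values `< κ`. -/
theorem u_strictAnti {q : ℝ} (hn : 1 ≤ n) (hq0 : 0 < q) {μ : Measure (E n)} {u : ℝ → ℝ}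
    (hB : BallM n q μ u) : StrictAntiOn u (Ioi 1) ∧ ∀ ℓ, 1 < ℓ → u ℓ < kap n q := by
  have i₀ : Fin n := ⟨0, hn⟩
  obtain ⟨u1, u2, hu⟩ := u_deriv hq0 hB i₀
  have h1 : StrictAntiOn u (Ioi 1) := by
    refine strictAntiOn_of_deriv_neg (convex_Ioi 1) ?_ ?_
    · intro ℓ hℓ
      exact (hu ℓ hℓ).1.continuousAt.continuousWithinAt
    · intro ℓ hℓ
      rw [interior_Ioi] at hℓ
      rw [(hu ℓ hℓ).1.deriv]
      exact (hu ℓ hℓ).2.2.1
  refine ⟨h1, fun ℓ hℓ => ?_⟩
  have h2 : (1 : ℝ) < (1 + ℓ) / 2 := by linarith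
  exact (h1 (mem_Ioi.2 h2) (mem_Ioi.2 hℓ) (by linarith)).trans_le (hB.u_le _ (by linarith))

/-- (RA-U2c) Every value in `(0, κ)` is taken on `(1,∞)`: `u` is continuous there, tends to `0`, and
`liminf_{ℓ → 1+} u ℓ ≥ κ` by Fatou's lemma for `pot q μ` at the boundary point `e` (`pot q μ (ℓ e)`, `ℓ = 1 + 1/(k+1)`,
the kernel `z ↦ edist z y ^ (-q)` is continuous into `[0,∞]`, `pot q μ e = κ`). -/
theorem u_surj {q : ℝ} (hn : 1 ≤ n) (hq0 : 0 < q) {μ : Measure (E n)} {u : ℝ → ℝ}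
    (hB : BallM n q μ u) {t : ℝ} (ht0 : 0 < t) (ht : t < kap n q) : ∃ ℓ, 1 < ℓ ∧ u ℓ = t := by
  have i₀ : Fin n := ⟨0, hn⟩
  obtain ⟨u1, u2, hu⟩ := u_deriv hq0 hB i₀
  have hcont : ContinuousOn u (Ioi 1) := fun ℓ hℓ =>
    (hu ℓ hℓ).1.continuousAt.continuousWithinAt
  -- a point with a small value
  obtain ⟨b, hb1, hb⟩ : ∃ b : ℝ, 1 < b ∧ u b ≤ t := by
    have h1 : Tendsto (fun s : ℝ => s ^ (-q)) atTop (𝓝 0) := tendsto_rpow_neg_atTop hq0
    obtain ⟨s, hs⟩ := ((h1.eventually (ge_mem_nhds ht0)).and (eventually_gt_atTop (0 : ℝ))).exists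
    refine ⟨s + 1, by linarith [hs.2], ?_⟩
    have h2 := (u_bounds hn hq0 hB (ℓ := s + 1) (by linarith [hs.2])).2
    rw [add_sub_cancel_right] at h2
    exact h2.trans hs.1
  -- a point with a large value
  obtain ⟨a, ha1, ha⟩ : ∃ a : ℝ, 1 < a ∧ t ≤ u a := by
    by_contra hcon
    push Not at hcon
    set f : ℕ → E n → ℝ≥0∞ := fun k y => (edist ((1 + 1 / ((k : ℝ) + 1)) • (bv i₀ : E n)) y) ^ (-q)
      with hf
    have hk : ∀ k : ℕ, (1 : ℝ) < 1 + 1 / ((k : ℝ) + 1) := fun k => by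
      have : (0 : ℝ) < 1 / ((k : ℝ) + 1) := by positivity
      linarith
    have h1 : ∀ k, ∫⁻ y, f k y ∂μ ≤ ENNReal.ofReal t := by
      intro k
      have h2 : ∫⁻ y, f k y ∂μ = pot q μ ((1 + 1 / ((k : ℝ) + 1)) • (bv i₀ : E n)) := rfl
      rw [h2, hB.pot_eq, U2_norm i₀ (by linarith [hk k])]
      exact ENNReal.ofReal_le_ofReal (hcon _ (hk k)).le
    have hlim : Tendsto (fun k : ℕ => (1 + 1 / ((k : ℝ) + 1)) • (bv i₀ : E n)) atTop
        (𝓝 (bv i₀ : E n)) := by
      have h3 : Tendsto (fun k : ℕ => 1 + 1 / ((k : ℝ) + 1)) atTop (𝓝 (1 + 0)) :=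
        tendsto_const_nhds.add tendsto_one_div_add_atTop_nhds_zero_nat
      have h4 := h3.smul_const (bv i₀ : E n)
      simpa using h4
    have h5 : ∀ y, Tendsto (fun k => f k y) atTop (𝓝 ((edist (bv i₀ : E n) y) ^ (-q))) := by
      intro y
      exact (ENNReal.continuous_rpow_const.tendsto _).comp
        ((continuous_id.edist continuous_const).tendsto _ |>.comp hlim)
    have h6 : pot q μ (bv i₀ : E n) ≤ ENNReal.ofReal t := by
      calc pot q μ (bv i₀ : E n) = ∫⁻ y, liminf (fun k => f k y) atTop ∂μ := by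
            refine lintegral_congr fun y => ?_
            exact (h5 y).liminf_eq.symm
        _ ≤ liminf (fun k => ∫⁻ y, f k y ∂μ) atTop := by
            refine lintegral_liminf_le fun k => ?_
            exact (measurable_edist_right).pow_const (-q)
        _ ≤ ENNReal.ofReal t := by
            refine (liminf_le_liminf (Eventually.of_forall h1)).trans ?_
            rw [liminf_const]
    rw [hB.pot_eq, norm_bv, hB.u_in 1 ⟨zero_le_one, le_rfl⟩] at h6
    exact absurd ((ENNReal.ofReal_le_ofReal_iff ht0.le).1 h6) (not_le.2 ht)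
  have hpre : IsPreconnected (Ioi (1 : ℝ)) := isPreconnected_Ioi
  obtain ⟨ℓ, hℓ, h⟩ := hpre.intermediate_value (mem_Ioi.2 hb1) (mem_Ioi.2 ha1) hcont ⟨hb, ha⟩
  exact ⟨ℓ, hℓ, h⟩

end Pool.Agent.Lib.MP_6cd19d_an.A
end
end

section

section

/-!
# P7: on a closed neighbourhood the equilibrium potential is at least the energy everywhere

Let `A` be compact, `δ > 0`, `K = Metric.cthickening δ A`, `0 < s < n`, `μ` a minimiser, `x ∈ K`,
`I = infEn s K`. Claim `I ≤ pot s μ x`. We may assume `pot s μ x < ⊤`.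
There is `a ∈ A` with `dist x a ≤ δ` (`A` compact), so `closedBall a δ ⊆ K` and `x ∈ closedBall a δ`.
For `0 < r ≤ δ` let `z_r = x + (r / 2) u`, with `u = (a - x)/‖a - x‖` (any unit vector if `x = a`, here
`r ≤ δ`), if `‖a-x‖ ≥ r/2`; in general take `z_r` on the segment from `x` to `a` at distance
`min (r/2) ‖a - x‖` from `x`. Then `closedBall z_r (r/2) ⊆ closedBall a δ ∩ closedBall x r`.
(if `‖a-x‖ ≥ r/2`: `dist z_r a = ‖a-x‖ - r/2 ≤ δ - r/2`; otherwise `z_r = a`.) Let `ν_r` be normalised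
Lebesgue measure on `closedBall z_r (r/2)`. Then `PK K ν_r` and `en s ν_r < ⊤` (as `s < n`: the function
`‖y‖^(-s)` is locally integrable), so by `variation` and Tonelli
`I ≤ ∫⁻ pot s μ dν_r = ∫⁻ pot s ν_r dμ`.
Now there is a constant `C` with `pot s ν_r y ≤ C * (edist x y)^(-s)` for all `r`, `y`: if
`dist x y ≥ 2 r` then `dist w y ≥ dist x y / 2` for all `w` in the ball; if `dist x y < 2 r` then
`pot s ν_r y ≤ |B_{r/2}|⁻¹ ∫_{ball y (3 r)} ‖w-y‖^(-s) dw = C' r^(-s) ≤ C'' (dist x y)^(-s)`.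
And `pot s ν_r y → (edist x y)^(-s)` as `r → 0` for `y ≠ x`. Since `pot s μ x < ⊤`, `μ {x} = 0`, and
dominated convergence gives `∫⁻ pot s ν_r dμ → pot s μ x` (`r = 1/j`, `j → ∞`).
-/

set_option autoImplicit false

open MeasureTheory Set Filter Topology
open scoped ENNReal

namespace Pool.Agent.Lib.MP_6cd19d_an.ND

private theorem P7_unit {n : ℕ} {s : ℝ} (hs : 0 < s) (hsn : s < n) :
    ∫⁻ w in Metric.ball (0 : E n) 1, (edist (0 : E n) w) ^ (-s) ≠ ⊤ := by
  have hn : 0 < n := by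
    have : (0 : ℝ) < n := hs.trans hsn
    exact_mod_cast this
  have : Nonempty (Fin n) := ⟨⟨0, hn⟩⟩
  have : Nontrivial (E n) := inferInstance
  have h1 : IntegrableOn (fun x : E n => (fun t : ℝ => t ^ (-s)) ‖x‖) (Metric.ball 0 1)
      volume := by
    rw [integrableOn_fun_norm_addHaar (f := fun t : ℝ => t ^ (-s)) volume (r := 1),
      finrank_euclideanSpace_fin]
    have h2 : IntegrableOn (fun y : ℝ => y ^ ((n : ℝ) - 1 - s)) (Ioo 0 1) := by
      rw [intervalIntegral.integrableOn_Ioo_rpow_iff one_pos]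
      linarith
    refine h2.congr_fun (fun y hy => ?_) measurableSet_Ioo
    have hy0 : 0 < y := hy.1
    show y ^ ((n : ℝ) - 1 - s) = y ^ (n - 1) * y ^ (-s)
    rw [← Real.rpow_natCast, ← Real.rpow_add hy0, Nat.cast_sub (Nat.one_le_iff_ne_zero.2 hn.ne')]
    congr 1
    push_cast
    ring
  have h3 := h1.2
  unfold HasFiniteIntegral at h3
  refine ne_of_lt (lt_of_le_of_lt (le_of_eq ?_) h3)
  refine lintegral_congr_ae ?_
  have h4 : ∀ᵐ w ∂(volume.restrict (Metric.ball (0 : E n) 1)), w ≠ 0 := by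
    refine ae_restrict_of_ae ?_
    rw [ae_iff]
    simp
  filter_upwards [h4] with w hw
  have hw' : 0 < ‖w‖ := norm_pos_iff.2 hw
  rw [edist_comm, edist_zero_right, Real.enorm_eq_ofReal (Real.rpow_nonneg hw'.le _),
    ← ENNReal.ofReal_rpow_of_pos hw', ofReal_norm]

private theorem P7_scale {n : ℕ} {s : ℝ} (y : E n) {R : ℝ} (hR : 0 < R) :
    ∫⁻ w in Metric.ball y R, (edist y w) ^ (-s) =
      ENNReal.ofReal (R ^ ((n : ℝ) - s)) *
        ∫⁻ w in Metric.ball (0 : E n) 1, (edist (0 : E n) w) ^ (-s) := by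
  have hmeas : Measurable fun w : E n => (edist y w) ^ (-s) := by fun_prop
  have hmeas0 : Measurable fun w : E n => (edist (0 : E n) w) ^ (-s) := by fun_prop
  rw [← lintegral_indicator Metric.isOpen_ball.measurableSet,
    ← lintegral_indicator Metric.isOpen_ball.measurableSet]
  rw [← lintegral_add_left_eq_self _ y]
  have hmap : (volume : Measure (E n)) = ENNReal.ofReal (R ^ n) •
      Measure.map (R • ·) (volume : Measure (E n)) := by
    rw [Measure.map_addHaar_smul _ hR.ne', smul_smul, finrank_euclideanSpace_fin,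
      abs_of_pos (by positivity), ← ENNReal.ofReal_mul (by positivity),
      mul_inv_cancel₀ (by positivity), ENNReal.ofReal_one, one_smul]
  conv_lhs => rw [hmap]
  rw [lintegral_smul_measure, lintegral_map]
  · rw [smul_eq_mul]
    have hsplit : ENNReal.ofReal (R ^ ((n : ℝ) - s)) =
        ENNReal.ofReal (R ^ n) * ENNReal.ofReal (R ^ (-s)) := by
      rw [← ENNReal.ofReal_mul (by positivity), ← Real.rpow_natCast, ← Real.rpow_add hR]
      rfl
    rw [hsplit, mul_assoc]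
    congr 1
    rw [← lintegral_const_mul]
    · refine lintegral_congr fun w => ?_
      by_cases hw : w ∈ Metric.ball (0 : E n) 1
      · have hw2 : y + R • w ∈ Metric.ball y R := by
          rw [Metric.mem_ball, dist_self_add_left, norm_smul, Real.norm_of_nonneg hR.le]
          rw [mem_ball_zero_iff] at hw
          nlinarith
        have he : edist y (y + R • w) = ENNReal.ofReal R * ‖w‖ₑ := by
          rw [edist_dist, dist_self_add_right, norm_smul, Real.norm_of_nonneg hR.le,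
            ENNReal.ofReal_mul hR.le, ofReal_norm]
        rw [indicator_of_mem hw, indicator_of_mem hw2, he,
          edist_comm, edist_zero_right, ENNReal.mul_rpow_of_ne_top ENNReal.ofReal_ne_top
            enorm_ne_top, ENNReal.ofReal_rpow_of_pos hR]
      · have hw2 : y + R • w ∉ Metric.ball y R := by
          rw [Metric.mem_ball, dist_self_add_left, norm_smul, Real.norm_of_nonneg hR.le]
          rw [mem_ball_zero_iff] at hw
          nlinarith
        rw [indicator_of_notMem hw, indicator_of_notMem hw2, mul_zero]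
    · exact hmeas0.indicator Metric.isOpen_ball.measurableSet
  · exact (hmeas.indicator Metric.isOpen_ball.measurableSet).comp (measurable_const_add y)
  · fun_prop

/-- the integral of the kernel over any closed ball of radius `ρ` -/
private theorem P7_ball {n : ℕ} {s : ℝ} (hs : 0 < s) (hsn : s < n) :
    ∃ C : ℝ≥0∞, C ≠ ⊤ ∧ ∀ (y z : E n) (ρ : ℝ), 0 < ρ →
      ∫⁻ w in Metric.closedBall z ρ, (edist y w) ^ (-s) ≤ C * ENNReal.ofReal (ρ ^ ((n : ℝ) - s)) := by
  refine ⟨(∫⁻ w in Metric.ball (0 : E n) 1, (edist (0 : E n) w) ^ (-s)) +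
    volume (Metric.closedBall (0 : E n) 1), ENNReal.add_ne_top.2 ⟨P7_unit hs hsn,
      measure_closedBall_lt_top.ne⟩, fun y z ρ hρ => ?_⟩
  have hsub : Metric.closedBall z ρ ⊆ Metric.ball y ρ ∪ (Metric.closedBall z ρ \ Metric.ball y ρ) :=
    fun w hw => by
      by_cases h : w ∈ Metric.ball y ρ
      · exact Or.inl h
      · exact Or.inr ⟨hw, h⟩
  have h1 : ∫⁻ w in Metric.closedBall z ρ \ Metric.ball y ρ, (edist y w) ^ (-s) ≤
      ENNReal.ofReal (ρ ^ ((n : ℝ) - s)) * volume (Metric.closedBall (0 : E n) 1) := by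
    have h2 : ∫⁻ w in Metric.closedBall z ρ \ Metric.ball y ρ, (edist y w) ^ (-s) ≤
        ∫⁻ _ in Metric.closedBall z ρ \ Metric.ball y ρ, ENNReal.ofReal (ρ ^ (-s)) := by
      refine setLIntegral_mono' (Metric.isClosed_closedBall.measurableSet.diff
        Metric.isOpen_ball.measurableSet) fun w hw => ?_
      have h3 : ENNReal.ofReal ρ ≤ edist y w := by
        rw [edist_dist]
        refine ENNReal.ofReal_le_ofReal ?_
        have := hw.2
        rw [Metric.mem_ball, not_lt, dist_comm] at this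
        exact this
      rw [← ENNReal.ofReal_rpow_of_pos hρ, ENNReal.rpow_neg, ENNReal.rpow_neg]
      exact ENNReal.inv_le_inv.2 (ENNReal.rpow_le_rpow h3 hs.le)
    refine h2.trans ?_
    rw [setLIntegral_const]
    have h4 : volume (Metric.closedBall z ρ \ Metric.ball y ρ) ≤
        ENNReal.ofReal (ρ ^ n) * volume (Metric.closedBall (0 : E n) 1) := by
      refine (measure_mono sdiff_subset).trans (le_of_eq ?_)
      rw [Measure.addHaar_closedBall' _ _ hρ.le, finrank_euclideanSpace_fin]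
    calc ENNReal.ofReal (ρ ^ (-s)) * volume (Metric.closedBall z ρ \ Metric.ball y ρ) ≤
        ENNReal.ofReal (ρ ^ (-s)) * (ENNReal.ofReal (ρ ^ n) *
          volume (Metric.closedBall (0 : E n) 1)) := by gcongr
      _ = _ := by
        rw [← mul_assoc, ← ENNReal.ofReal_mul (by positivity), ← Real.rpow_natCast,
          ← Real.rpow_add hρ]
        congr 3
        ring
  calc ∫⁻ w in Metric.closedBall z ρ, (edist y w) ^ (-s) ≤
      ∫⁻ w in Metric.ball y ρ ∪ (Metric.closedBall z ρ \ Metric.ball y ρ), (edist y w) ^ (-s) :=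
        lintegral_mono_set hsub
    _ ≤ (∫⁻ w in Metric.ball y ρ, (edist y w) ^ (-s)) +
        ∫⁻ w in Metric.closedBall z ρ \ Metric.ball y ρ, (edist y w) ^ (-s) :=
          lintegral_union_le _ _ _
    _ ≤ ENNReal.ofReal (ρ ^ ((n : ℝ) - s)) *
        (∫⁻ w in Metric.ball (0 : E n) 1, (edist (0 : E n) w) ^ (-s)) +
        ENNReal.ofReal (ρ ^ ((n : ℝ) - s)) * volume (Metric.closedBall (0 : E n) 1) := by
          rw [P7_scale y hρ]
          gcongr
    _ = _ := by rw [← mul_add, mul_comm]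

/-- normalised Lebesgue measure on a ball -/
private noncomputable def nu {n : ℕ} (z : E n) (ρ : ℝ) : Measure (E n) :=
  (volume (Metric.closedBall z ρ))⁻¹ • volume.restrict (Metric.closedBall z ρ)

private theorem vol_ne_zero {n : ℕ} (z : E n) {ρ : ℝ} (hρ : 0 < ρ) :
    volume (Metric.closedBall z ρ) ≠ 0 := (Metric.measure_closedBall_pos _ _ hρ).ne'

private theorem nu_univ {n : ℕ} (z : E n) {ρ : ℝ} (hρ : 0 < ρ) : nu z ρ univ = 1 := by
  unfold nu
  rw [Measure.smul_apply, Measure.restrict_apply_univ, smul_eq_mul,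
    ENNReal.inv_mul_cancel (vol_ne_zero z hρ) measure_closedBall_lt_top.ne]

private theorem nu_isProb {n : ℕ} (z : E n) {ρ : ℝ} (hρ : 0 < ρ) :
    IsProbabilityMeasure (nu z ρ) := ⟨nu_univ z hρ⟩

private theorem nu_ae_mem {n : ℕ} (z : E n) (ρ : ℝ) :
    ∀ᵐ w ∂(nu z ρ), w ∈ Metric.closedBall z ρ := by
  unfold nu
  refine Measure.ae_smul_measure ?_ _
  exact ae_restrict_mem Metric.isClosed_closedBall.measurableSet

private theorem nu_pk {n : ℕ} (z : E n) {ρ : ℝ} (hρ : 0 < ρ) {K : Set (E n)}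
    (hK : Metric.closedBall z ρ ⊆ K) : PK K (nu z ρ) := by
  refine ⟨nu_univ z hρ, ?_⟩
  rw [← mem_ae_iff]
  filter_upwards [nu_ae_mem z ρ] with w hw
  exact hK hw

private theorem pot_nu_le {n : ℕ} {s : ℝ} (hs : 0 < s) (hsn : s < n) :
    ∃ C : ℝ≥0∞, C ≠ ⊤ ∧ ∀ (y z : E n) (ρ : ℝ), 0 < ρ →
      pot s (nu z ρ) y ≤ C * ENNReal.ofReal (ρ ^ (-s)) := by
  obtain ⟨C, hC, hCb⟩ := P7_ball hs hsn
  have hv0 : volume (Metric.closedBall (0 : E n) 1) ≠ 0 := vol_ne_zero _ one_pos
  refine ⟨(volume (Metric.closedBall (0 : E n) 1))⁻¹ * C,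
    ENNReal.mul_ne_top (ENNReal.inv_ne_top.2 hv0) hC, fun y z ρ hρ => ?_⟩
  unfold pot nu
  rw [lintegral_smul_measure, smul_eq_mul]
  have hvol : volume (Metric.closedBall z ρ) =
      ENNReal.ofReal (ρ ^ n) * volume (Metric.closedBall (0 : E n) 1) := by
    rw [Measure.addHaar_closedBall' _ _ hρ.le, finrank_euclideanSpace_fin]
  have hρn : ENNReal.ofReal (ρ ^ n) ≠ 0 := by
    rw [Ne, ENNReal.ofReal_eq_zero, not_le]
    positivity
  calc (volume (Metric.closedBall z ρ))⁻¹ * ∫⁻ w in Metric.closedBall z ρ, (edist y w) ^ (-s) ≤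
      (volume (Metric.closedBall z ρ))⁻¹ * (C * ENNReal.ofReal (ρ ^ ((n : ℝ) - s))) := by
        gcongr
        exact hCb y z ρ hρ
    _ = (volume (Metric.closedBall (0 : E n) 1))⁻¹ * C * ((ENNReal.ofReal (ρ ^ n))⁻¹ *
        ENNReal.ofReal (ρ ^ ((n : ℝ) - s))) := by
        rw [hvol, ENNReal.mul_inv (Or.inl hρn) (Or.inl ENNReal.ofReal_ne_top)]
        ring
    _ = _ := by
        rw [← ENNReal.ofReal_inv_of_pos (by positivity), ← ENNReal.ofReal_mul (by positivity)]
        congr 2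
        rw [← Real.rpow_natCast, ← Real.rpow_neg hρ.le, ← Real.rpow_add hρ]
        congr 1
        ring

private theorem en_nu_ne_top {n : ℕ} {s : ℝ} (hs : 0 < s) (hsn : s < n) (z : E n) {ρ : ℝ}
    (hρ : 0 < ρ) : en s (nu z ρ) ≠ ⊤ := by
  obtain ⟨C, hC, hCb⟩ := pot_nu_le hs hsn
  refine ne_of_lt (lt_of_le_of_lt (b := C * ENNReal.ofReal (ρ ^ (-s))) ?_
    (ENNReal.mul_lt_top hC.lt_top ENNReal.ofReal_lt_top))
  have h1 : en s (nu z ρ) = ∫⁻ x, pot s (nu z ρ) x ∂(nu z ρ) := rfl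
  rw [h1]
  calc ∫⁻ x, pot s (nu z ρ) x ∂(nu z ρ) ≤ ∫⁻ _, C * ENNReal.ofReal (ρ ^ (-s)) ∂(nu z ρ) :=
      lintegral_mono fun x => hCb x z ρ hρ
    _ = _ := by rw [lintegral_const, nu_univ z hρ, mul_one]

/-- uniform domination of the potentials of small balls near `x` -/
private theorem pot_nu_dom {n : ℕ} {s : ℝ} (hs : 0 < s) (hsn : s < n) :
    ∃ C : ℝ≥0∞, C ≠ ⊤ ∧ ∀ (x y z : E n) (ρ : ℝ), 0 < ρ → dist z x ≤ ρ →
      pot s (nu z ρ) y ≤ C * (edist x y) ^ (-s) := by
  obtain ⟨C, hC, hCb⟩ := pot_nu_le hs hsn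
  refine ⟨max (ENNReal.ofReal (2 ^ s)) (C * ENNReal.ofReal (4 ^ s)), ?_, fun x y z ρ hρ hz => ?_⟩
  · rw [Ne, max_eq_top, not_or]
    exact ⟨ENNReal.ofReal_ne_top, ENNReal.mul_ne_top hC ENNReal.ofReal_ne_top⟩
  rcases le_or_gt (4 * ρ) (dist x y) with h | h
  · have hprob := nu_isProb z hρ
    have hxy : 0 < dist x y := by linarith
    have h1 : pot s (nu z ρ) y ≤ ∫⁻ _, ENNReal.ofReal (2 ^ s) * (edist x y) ^ (-s) ∂(nu z ρ) := by
      unfold pot
      refine lintegral_mono_ae ?_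
      filter_upwards [nu_ae_mem z ρ] with w hw
      have hd : dist x y / 2 ≤ dist y w := by
        have h2 := dist_triangle4 x z w y
        rw [dist_comm x z, dist_comm z w, dist_comm w y] at h2
        rw [Metric.mem_closedBall] at hw
        linarith
      have hyw : 0 < dist y w := by linarith
      rw [edist_dist, edist_dist, ENNReal.ofReal_rpow_of_pos hyw, ENNReal.ofReal_rpow_of_pos hxy,
        ← ENNReal.ofReal_mul (by positivity)]
      refine ENNReal.ofReal_le_ofReal ?_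
      calc dist y w ^ (-s) ≤ (dist x y / 2) ^ (-s) :=
          Real.rpow_le_rpow_of_nonpos (by positivity) hd (by linarith)
        _ = _ := by
          rw [Real.div_rpow hxy.le (by norm_num), Real.rpow_neg (by norm_num : (0 : ℝ) ≤ 2),
            div_inv_eq_mul, mul_comm]
    refine h1.trans ?_
    rw [lintegral_const, nu_univ z hρ, mul_one]
    gcongr
    exact le_max_left _ _
  · refine (hCb y z ρ hρ).trans ?_
    calc C * ENNReal.ofReal (ρ ^ (-s)) ≤ C * (ENNReal.ofReal (4 ^ s) * (edist x y) ^ (-s)) := by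
          gcongr
          rcases eq_or_ne x y with hxy | hxy
          · rw [hxy, edist_self, ENNReal.zero_rpow_of_neg (by linarith), ENNReal.mul_top]
            · exact le_top
            · rw [Ne, ENNReal.ofReal_eq_zero, not_le]
              positivity
          · have hd : 0 < dist x y := dist_pos.2 hxy
            rw [edist_dist, ENNReal.ofReal_rpow_of_pos hd, ← ENNReal.ofReal_mul (by positivity)]
            refine ENNReal.ofReal_le_ofReal ?_
            calc ρ ^ (-s) ≤ (dist x y / 4) ^ (-s) :=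
                Real.rpow_le_rpow_of_nonpos (by positivity) (by linarith) (by linarith)
              _ = _ := by
                rw [Real.div_rpow hd.le (by norm_num), Real.rpow_neg (by norm_num : (0 : ℝ) ≤ 4),
                  div_inv_eq_mul, mul_comm]
      _ ≤ _ := by
          rw [← mul_assoc]
          gcongr
          exact le_max_right _ _

/-- the potentials of small balls near `x` converge to the kernel -/
private theorem pot_nu_tendsto {n : ℕ} {s : ℝ} (hs : 0 < s) {x y : E n} (hxy : x ≠ y)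
    {z : ℕ → E n} {ρ : ℕ → ℝ} (hρ : ∀ j, 0 < ρ j) (hρ0 : Tendsto ρ atTop (𝓝 0))
    (hz : ∀ j, dist (z j) x ≤ ρ j) :
    Tendsto (fun j => pot s (nu (z j) (ρ j)) y) atTop (𝓝 ((edist x y) ^ (-s))) := by
  have hd : 0 < dist x y := dist_pos.2 hxy
  have hlim : ∀ c : ℝ, Tendsto (fun j => ENNReal.ofReal (dist x y + c * ρ j) ^ (-s)) atTop
      (𝓝 ((edist x y) ^ (-s))) := by
    intro c
    refine ((ENNReal.continuous_rpow_const).tendsto _).comp ?_
    rw [edist_dist]
    refine (ENNReal.continuous_ofReal.tendsto _).comp ?_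
    have := (hρ0.const_mul c).const_add (dist x y)
    simpa using this
  refine tendsto_of_tendsto_of_tendsto_of_le_of_le (hlim 2) (hlim (-2)) ?_ ?_
  · intro j
    have hprob := nu_isProb (z j) (hρ j)
    show ENNReal.ofReal (dist x y + 2 * ρ j) ^ (-s) ≤ pot s (nu (z j) (ρ j)) y
    calc ENNReal.ofReal (dist x y + 2 * ρ j) ^ (-s) =
        ∫⁻ _, ENNReal.ofReal (dist x y + 2 * ρ j) ^ (-s) ∂(nu (z j) (ρ j)) := by
          rw [lintegral_const, nu_univ _ (hρ j), mul_one]
      _ ≤ _ := by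
          unfold pot
          refine lintegral_mono_ae ?_
          filter_upwards [nu_ae_mem (z j) (ρ j)] with w hw
          rw [ENNReal.rpow_neg, ENNReal.rpow_neg]
          refine ENNReal.inv_le_inv.2 (ENNReal.rpow_le_rpow ?_ hs.le)
          rw [edist_dist]
          refine ENNReal.ofReal_le_ofReal ?_
          have h2 := dist_triangle4 y x (z j) w
          rw [dist_comm y x, dist_comm x (z j), dist_comm (z j) w] at h2
          rw [Metric.mem_closedBall] at hw
          have := hz j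
          linarith
  · intro j
    have hprob := nu_isProb (z j) (hρ j)
    show pot s (nu (z j) (ρ j)) y ≤ ENNReal.ofReal (dist x y + -2 * ρ j) ^ (-s)
    calc pot s (nu (z j) (ρ j)) y ≤
        ∫⁻ _, ENNReal.ofReal (dist x y + -2 * ρ j) ^ (-s) ∂(nu (z j) (ρ j)) := by
          unfold pot
          refine lintegral_mono_ae ?_
          filter_upwards [nu_ae_mem (z j) (ρ j)] with w hw
          rw [ENNReal.rpow_neg, ENNReal.rpow_neg]
          refine ENNReal.inv_le_inv.2 (ENNReal.rpow_le_rpow ?_ hs.le)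
          rw [edist_dist]
          refine ENNReal.ofReal_le_ofReal ?_
          have h2 := dist_triangle4 x (z j) w y
          rw [dist_comm x (z j), dist_comm (z j) w, dist_comm w y] at h2
          rw [Metric.mem_closedBall] at hw
          have := hz j
          linarith
      _ = _ := by rw [lintegral_const, nu_univ _ (hρ j), mul_one]

theorem pot_ge_cthickening {n : ℕ} {s : ℝ} (hs : 0 < s) (hsn : s < n) {A : Set (E n)}
    (hA : IsCompact A) {δ : ℝ} (hδ : 0 < δ) {μ : Measure (E n)}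
    (hμ : PK (Metric.cthickening δ A) μ) (hmin : en s μ = infEn s (Metric.cthickening δ A))
    {x : E n} (hx : x ∈ Metric.cthickening δ A) :
    infEn s (Metric.cthickening δ A) ≤ pot s μ x := by
  rcases eq_or_ne (pot s μ x) ⊤ with htop | htop
  · rw [htop]
    exact le_top
  have hμfin : IsFiniteMeasure μ := ⟨by rw [hμ.1]; exact ENNReal.one_lt_top⟩
  -- the centre of the ball
  rw [hA.cthickening_eq_biUnion_closedBall hδ.le] at hx
  simp only [mem_iUnion, exists_prop] at hx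
  obtain ⟨a, ha, hxa⟩ := hx
  rw [Metric.mem_closedBall] at hxa
  -- the radii and the centres
  set ρ : ℕ → ℝ := fun j => δ / (j + 1) with hρdef
  have hρ : ∀ j, 0 < ρ j := fun j => by
    rw [hρdef]
    positivity
  have hρ0 : Tendsto ρ atTop (𝓝 0) := by
    have := tendsto_one_div_add_atTop_nhds_zero_nat (𝕜 := ℝ)
    have h2 := this.const_mul δ
    rw [mul_zero] at h2
    refine h2.congr fun j => ?_
    rw [hρdef]
    ring
  set z : ℕ → E n := fun j => x + (ρ j / δ) • (a - x) with hzdef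
  have hρδ : ∀ j, ρ j ≤ δ := fun j => by
    rw [hρdef]
    exact div_le_self hδ.le (by
      have : (0 : ℝ) ≤ j := Nat.cast_nonneg j
      linarith)
  have hax : ‖a - x‖ ≤ δ := by
    rw [← dist_eq_norm, dist_comm]
    exact hxa
  have hz : ∀ j, dist (z j) x ≤ ρ j := fun j => by
    rw [hzdef]
    show dist (x + (ρ j / δ) • (a - x)) x ≤ ρ j
    rw [dist_self_add_left, norm_smul, Real.norm_of_nonneg (div_nonneg (hρ j).le hδ.le)]
    calc ρ j / δ * ‖a - x‖ ≤ ρ j / δ * δ := by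
          have := (hρ j).le
          gcongr
      _ = ρ j := div_mul_cancel₀ _ hδ.ne'
  have hza : ∀ j, dist (z j) a ≤ δ - ρ j := fun j => by
    have h1 : z j - a = (1 - ρ j / δ) • (x - a) := by
      rw [hzdef]
      show x + (ρ j / δ) • (a - x) - a = (1 - ρ j / δ) • (x - a)
      rw [sub_smul, one_smul, ← neg_sub x a, smul_neg]
      abel
    have h2 : 0 ≤ 1 - ρ j / δ := by
      rw [sub_nonneg, div_le_one hδ]
      exact hρδ j
    rw [dist_eq_norm, h1, norm_smul, Real.norm_of_nonneg h2]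
    calc (1 - ρ j / δ) * ‖x - a‖ ≤ (1 - ρ j / δ) * δ := by
          rw [norm_sub_rev] at hax
          gcongr
      _ = δ - ρ j := by field_simp
  have hball : ∀ j, Metric.closedBall (z j) (ρ j) ⊆ Metric.cthickening δ A := fun j => by
    refine (Metric.closedBall_subset_closedBall' ?_).trans
      (Metric.closedBall_subset_cthickening ha δ)
    have := hza j
    linarith
  -- the infimum is finite and the variational inequality holds
  have hprob : ∀ j, IsProbabilityMeasure (nu (z j) (ρ j)) := fun j => nu_isProb _ (hρ j)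
  have hfin : infEn s (Metric.cthickening δ A) ≠ ⊤ := by
    refine ne_of_lt (lt_of_le_of_lt ?_ (en_nu_ne_top hs hsn (z 0) (hρ 0)).lt_top)
    exact iInf₂_le _ (nu_pk _ (hρ 0) (hball 0))
  have hvar : ∀ j, infEn s (Metric.cthickening δ A) ≤ ∫⁻ y, pot s (nu (z j) (ρ j)) y ∂μ := by
    intro j
    have h1 := variation hμ (nu_pk _ (hρ j) (hball j)) hmin hfin (en_nu_ne_top hs hsn _ (hρ j))
    refine h1.trans (le_of_eq ?_)
    unfold pot
    rw [lintegral_lintegral_swap]
    · refine lintegral_congr fun y => lintegral_congr fun w => ?_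
      rw [edist_comm]
    · have : Measurable fun p : E n × E n => (edist p.1 p.2) ^ (-s) := by fun_prop
      exact this.aemeasurable
  -- dominated convergence
  obtain ⟨C, hC, hCb⟩ := pot_nu_dom (n := n) hs hsn
  have hμx : μ {x} = 0 := by
    by_contra h
    apply htop
    unfold pot
    rw [eq_top_iff]
    calc (⊤ : ℝ≥0∞) = ∫⁻ _ in {x}, ⊤ ∂μ := by
          rw [lintegral_const, Measure.restrict_apply_univ, ENNReal.top_mul h]
      _ = ∫⁻ y in {x}, (edist x y) ^ (-s) ∂μ := by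
          refine setLIntegral_congr_fun (measurableSet_singleton x) fun y hy => ?_
          rw [mem_singleton_iff] at hy
          rw [hy, edist_self, ENNReal.zero_rpow_of_neg (by linarith)]
      _ ≤ _ := setLIntegral_le_lintegral _ _
  have hconv : Tendsto (fun j => ∫⁻ y, pot s (nu (z j) (ρ j)) y ∂μ) atTop
      (𝓝 (∫⁻ y, (edist x y) ^ (-s) ∂μ)) := by
    refine tendsto_lintegral_of_dominated_convergence (fun y => C * (edist x y) ^ (-s))
      (fun j => ?_) (fun j => ?_) ?_ ?_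
    · have := hprob j
      exact measurable_pot s (nu (z j) (ρ j))
    · exact Eventually.of_forall fun y => hCb x y (z j) (ρ j) (hρ j) (hz j)
    · rw [lintegral_const_mul _ (by fun_prop)]
      exact ENNReal.mul_ne_top hC htop
    · have hae : ∀ᵐ y ∂μ, y ≠ x := by
        rw [ae_iff]
        simpa using hμx
      filter_upwards [hae] with y hy
      exact pot_nu_tendsto hs hy.symm hρ hρ0 hz
  exact ge_of_tendsto' hconv hvar

end Pool.Agent.Lib.MP_6cd19d_an.ND
end

section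

/-!
# The energy of the unit ball; the potential of the minimiser
-/

set_option autoImplicit false

open MeasureTheory Set Filter Topology Metric
open scoped ENNReal NNReal RealInnerProductSpace

namespace Pool.Agent.Lib.MP_6cd19d_an.A

open Pool.Agent.Lib.MP_6cd19d_an.ND

section aux

private theorem B1_unit {n : ℕ} {s : ℝ} (hs : 0 < s) (hsn : s < n) :
    ∫⁻ w in Metric.ball (0 : E n) 1, (edist (0 : E n) w) ^ (-s) ≠ ⊤ := by
  have hn : 0 < n := by
    have : (0 : ℝ) < n := hs.trans hsn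
    exact_mod_cast this
  have : Nonempty (Fin n) := ⟨⟨0, hn⟩⟩
  have : Nontrivial (E n) := inferInstance
  have h1 : IntegrableOn (fun x : E n => (fun t : ℝ => t ^ (-s)) ‖x‖) (Metric.ball 0 1)
      volume := by
    rw [integrableOn_fun_norm_addHaar (f := fun t : ℝ => t ^ (-s)) volume (r := 1),
      finrank_euclideanSpace_fin]
    have h2 : IntegrableOn (fun y : ℝ => y ^ ((n : ℝ) - 1 - s)) (Ioo 0 1) := by
      rw [intervalIntegral.integrableOn_Ioo_rpow_iff one_pos]
      linarith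
    refine h2.congr_fun (fun y hy => ?_) measurableSet_Ioo
    have hy0 : 0 < y := hy.1
    show y ^ ((n : ℝ) - 1 - s) = y ^ (n - 1) * y ^ (-s)
    rw [← Real.rpow_natCast, ← Real.rpow_add hy0, Nat.cast_sub (Nat.one_le_iff_ne_zero.2 hn.ne')]
    congr 1
    push_cast
    ring
  have h3 := h1.2
  unfold HasFiniteIntegral at h3
  refine ne_of_lt (lt_of_le_of_lt (le_of_eq ?_) h3)
  refine lintegral_congr_ae ?_
  have h4 : ∀ᵐ w ∂(volume.restrict (Metric.ball (0 : E n) 1)), w ≠ 0 := by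
    refine ae_restrict_of_ae ?_
    rw [ae_iff]
    simp
  filter_upwards [h4] with w hw
  have hw' : 0 < ‖w‖ := norm_pos_iff.2 hw
  rw [edist_comm, edist_zero_right, Real.enorm_eq_ofReal (Real.rpow_nonneg hw'.le _),
    ← ENNReal.ofReal_rpow_of_pos hw', ofReal_norm]

private theorem B1_scale {n : ℕ} {s : ℝ} (y : E n) {R : ℝ} (hR : 0 < R) :
    ∫⁻ w in Metric.ball y R, (edist y w) ^ (-s) =
      ENNReal.ofReal (R ^ ((n : ℝ) - s)) *
        ∫⁻ w in Metric.ball (0 : E n) 1, (edist (0 : E n) w) ^ (-s) := by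
  have hmeas : Measurable fun w : E n => (edist y w) ^ (-s) := by fun_prop
  have hmeas0 : Measurable fun w : E n => (edist (0 : E n) w) ^ (-s) := by fun_prop
  rw [← lintegral_indicator Metric.isOpen_ball.measurableSet,
    ← lintegral_indicator Metric.isOpen_ball.measurableSet]
  rw [← lintegral_add_left_eq_self _ y]
  have hmap : (volume : Measure (E n)) = ENNReal.ofReal (R ^ n) •
      Measure.map (R • ·) (volume : Measure (E n)) := by
    rw [Measure.map_addHaar_smul _ hR.ne', smul_smul, finrank_euclideanSpace_fin,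
      abs_of_pos (by positivity), ← ENNReal.ofReal_mul (by positivity),
      mul_inv_cancel₀ (by positivity), ENNReal.ofReal_one, one_smul]
  conv_lhs => rw [hmap]
  rw [lintegral_smul_measure, lintegral_map]
  · rw [smul_eq_mul]
    have hsplit : ENNReal.ofReal (R ^ ((n : ℝ) - s)) =
        ENNReal.ofReal (R ^ n) * ENNReal.ofReal (R ^ (-s)) := by
      rw [← ENNReal.ofReal_mul (by positivity), ← Real.rpow_natCast, ← Real.rpow_add hR]
      rfl
    rw [hsplit, mul_assoc]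
    congr 1
    rw [← lintegral_const_mul]
    · refine lintegral_congr fun w => ?_
      by_cases hw : w ∈ Metric.ball (0 : E n) 1
      · have hw2 : y + R • w ∈ Metric.ball y R := by
          rw [Metric.mem_ball, dist_self_add_left, norm_smul, Real.norm_of_nonneg hR.le]
          rw [mem_ball_zero_iff] at hw
          nlinarith
        have he : edist y (y + R • w) = ENNReal.ofReal R * ‖w‖ₑ := by
          rw [edist_dist, dist_self_add_right, norm_smul, Real.norm_of_nonneg hR.le,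
            ENNReal.ofReal_mul hR.le, ofReal_norm]
        rw [indicator_of_mem hw, indicator_of_mem hw2, he,
          edist_comm, edist_zero_right, ENNReal.mul_rpow_of_ne_top ENNReal.ofReal_ne_top
            enorm_ne_top, ENNReal.ofReal_rpow_of_pos hR]
      · have hw2 : y + R • w ∉ Metric.ball y R := by
          rw [Metric.mem_ball, dist_self_add_left, norm_smul, Real.norm_of_nonneg hR.le]
          rw [mem_ball_zero_iff] at hw
          nlinarith
        rw [indicator_of_notMem hw, indicator_of_notMem hw2, mul_zero]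
    · exact hmeas0.indicator Metric.isOpen_ball.measurableSet
  · exact (hmeas.indicator Metric.isOpen_ball.measurableSet).comp (measurable_const_add y)
  · fun_prop

/-- the integral of the kernel over any closed ball of radius `ρ` -/
private theorem B1_ball {n : ℕ} {s : ℝ} (hs : 0 < s) (hsn : s < n) :
    ∃ C : ℝ≥0∞, C ≠ ⊤ ∧ ∀ (y z : E n) (ρ : ℝ), 0 < ρ →
      ∫⁻ w in Metric.closedBall z ρ, (edist y w) ^ (-s) ≤ C * ENNReal.ofReal (ρ ^ ((n : ℝ) - s)) := by
  refine ⟨(∫⁻ w in Metric.ball (0 : E n) 1, (edist (0 : E n) w) ^ (-s)) +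
    volume (Metric.closedBall (0 : E n) 1), ENNReal.add_ne_top.2 ⟨B1_unit hs hsn,
      measure_closedBall_lt_top.ne⟩, fun y z ρ hρ => ?_⟩
  have hsub : Metric.closedBall z ρ ⊆ Metric.ball y ρ ∪ (Metric.closedBall z ρ \ Metric.ball y ρ) :=
    fun w hw => by
      by_cases h : w ∈ Metric.ball y ρ
      · exact Or.inl h
      · exact Or.inr ⟨hw, h⟩
  have h1 : ∫⁻ w in Metric.closedBall z ρ \ Metric.ball y ρ, (edist y w) ^ (-s) ≤
      ENNReal.ofReal (ρ ^ ((n : ℝ) - s)) * volume (Metric.closedBall (0 : E n) 1) := by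
    have h2 : ∫⁻ w in Metric.closedBall z ρ \ Metric.ball y ρ, (edist y w) ^ (-s) ≤
        ∫⁻ _ in Metric.closedBall z ρ \ Metric.ball y ρ, ENNReal.ofReal (ρ ^ (-s)) := by
      refine setLIntegral_mono' (Metric.isClosed_closedBall.measurableSet.diff
        Metric.isOpen_ball.measurableSet) fun w hw => ?_
      have h3 : ENNReal.ofReal ρ ≤ edist y w := by
        rw [edist_dist]
        refine ENNReal.ofReal_le_ofReal ?_
        have := hw.2
        rw [Metric.mem_ball, not_lt, dist_comm] at this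
        exact this
      rw [← ENNReal.ofReal_rpow_of_pos hρ, ENNReal.rpow_neg, ENNReal.rpow_neg]
      exact ENNReal.inv_le_inv.2 (ENNReal.rpow_le_rpow h3 hs.le)
    refine h2.trans ?_
    rw [setLIntegral_const]
    have h4 : volume (Metric.closedBall z ρ \ Metric.ball y ρ) ≤
        ENNReal.ofReal (ρ ^ n) * volume (Metric.closedBall (0 : E n) 1) := by
      refine (measure_mono sdiff_subset).trans (le_of_eq ?_)
      rw [Measure.addHaar_closedBall' _ _ hρ.le, finrank_euclideanSpace_fin]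
    calc ENNReal.ofReal (ρ ^ (-s)) * volume (Metric.closedBall z ρ \ Metric.ball y ρ) ≤
        ENNReal.ofReal (ρ ^ (-s)) * (ENNReal.ofReal (ρ ^ n) *
          volume (Metric.closedBall (0 : E n) 1)) := by gcongr
      _ = _ := by
        rw [← mul_assoc, ← ENNReal.ofReal_mul (by positivity), ← Real.rpow_natCast,
          ← Real.rpow_add hρ]
        congr 3
        ring
  calc ∫⁻ w in Metric.closedBall z ρ, (edist y w) ^ (-s) ≤
      ∫⁻ w in Metric.ball y ρ ∪ (Metric.closedBall z ρ \ Metric.ball y ρ), (edist y w) ^ (-s) :=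
        lintegral_mono_set hsub
    _ ≤ (∫⁻ w in Metric.ball y ρ, (edist y w) ^ (-s)) +
        ∫⁻ w in Metric.closedBall z ρ \ Metric.ball y ρ, (edist y w) ^ (-s) :=
          lintegral_union_le _ _ _
    _ ≤ ENNReal.ofReal (ρ ^ ((n : ℝ) - s)) *
        (∫⁻ w in Metric.ball (0 : E n) 1, (edist (0 : E n) w) ^ (-s)) +
        ENNReal.ofReal (ρ ^ ((n : ℝ) - s)) * volume (Metric.closedBall (0 : E n) 1) := by
          rw [B1_scale y hρ]
          gcongr
    _ = _ := by rw [← mul_add, mul_comm]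

/-- normalised Lebesgue measure on a ball -/
private noncomputable def B1_nu {n : ℕ} (z : E n) (ρ : ℝ) : Measure (E n) :=
  (volume (Metric.closedBall z ρ))⁻¹ • volume.restrict (Metric.closedBall z ρ)

private theorem B1_vol_ne_zero {n : ℕ} (z : E n) {ρ : ℝ} (hρ : 0 < ρ) :
    volume (Metric.closedBall z ρ) ≠ 0 := (Metric.measure_closedBall_pos _ _ hρ).ne'

private theorem B1_nu_univ {n : ℕ} (z : E n) {ρ : ℝ} (hρ : 0 < ρ) : B1_nu z ρ univ = 1 := by
  unfold B1_nu
  rw [Measure.smul_apply, Measure.restrict_apply_univ, smul_eq_mul,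
    ENNReal.inv_mul_cancel (B1_vol_ne_zero z hρ) measure_closedBall_lt_top.ne]

private theorem B1_nu_isProb {n : ℕ} (z : E n) {ρ : ℝ} (hρ : 0 < ρ) :
    IsProbabilityMeasure (B1_nu z ρ) := ⟨B1_nu_univ z hρ⟩

private theorem B1_nu_ae_mem {n : ℕ} (z : E n) (ρ : ℝ) :
    ∀ᵐ w ∂(B1_nu z ρ), w ∈ Metric.closedBall z ρ := by
  unfold B1_nu
  refine Measure.ae_smul_measure ?_ _
  exact ae_restrict_mem Metric.isClosed_closedBall.measurableSet

private theorem B1_nu_pk {n : ℕ} (z : E n) {ρ : ℝ} (hρ : 0 < ρ) {K : Set (E n)}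
    (hK : Metric.closedBall z ρ ⊆ K) : PK K (B1_nu z ρ) := by
  refine ⟨B1_nu_univ z hρ, ?_⟩
  rw [← mem_ae_iff]
  filter_upwards [B1_nu_ae_mem z ρ] with w hw
  exact hK hw

private theorem B1_pot_nu_le {n : ℕ} {s : ℝ} (hs : 0 < s) (hsn : s < n) :
    ∃ C : ℝ≥0∞, C ≠ ⊤ ∧ ∀ (y z : E n) (ρ : ℝ), 0 < ρ →
      pot s (B1_nu z ρ) y ≤ C * ENNReal.ofReal (ρ ^ (-s)) := by
  obtain ⟨C, hC, hCb⟩ := B1_ball hs hsn
  have hv0 : volume (Metric.closedBall (0 : E n) 1) ≠ 0 := B1_vol_ne_zero _ one_pos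
  refine ⟨(volume (Metric.closedBall (0 : E n) 1))⁻¹ * C,
    ENNReal.mul_ne_top (ENNReal.inv_ne_top.2 hv0) hC, fun y z ρ hρ => ?_⟩
  unfold pot B1_nu
  rw [lintegral_smul_measure, smul_eq_mul]
  have hvol : volume (Metric.closedBall z ρ) =
      ENNReal.ofReal (ρ ^ n) * volume (Metric.closedBall (0 : E n) 1) := by
    rw [Measure.addHaar_closedBall' _ _ hρ.le, finrank_euclideanSpace_fin]
  have hρn : ENNReal.ofReal (ρ ^ n) ≠ 0 := by
    rw [Ne, ENNReal.ofReal_eq_zero, not_le]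
    positivity
  calc (volume (Metric.closedBall z ρ))⁻¹ * ∫⁻ w in Metric.closedBall z ρ, (edist y w) ^ (-s) ≤
      (volume (Metric.closedBall z ρ))⁻¹ * (C * ENNReal.ofReal (ρ ^ ((n : ℝ) - s))) := by
        gcongr
        exact hCb y z ρ hρ
    _ = (volume (Metric.closedBall (0 : E n) 1))⁻¹ * C * ((ENNReal.ofReal (ρ ^ n))⁻¹ *
        ENNReal.ofReal (ρ ^ ((n : ℝ) - s))) := by
        rw [hvol, ENNReal.mul_inv (Or.inl hρn) (Or.inl ENNReal.ofReal_ne_top)]
        ring
    _ = _ := by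
        rw [← ENNReal.ofReal_inv_of_pos (by positivity), ← ENNReal.ofReal_mul (by positivity)]
        congr 2
        rw [← Real.rpow_natCast, ← Real.rpow_neg hρ.le, ← Real.rpow_add hρ]
        congr 1
        ring

private theorem B1_en_nu_ne_top {n : ℕ} {s : ℝ} (hs : 0 < s) (hsn : s < n) (z : E n) {ρ : ℝ}
    (hρ : 0 < ρ) : en s (B1_nu z ρ) ≠ ⊤ := by
  obtain ⟨C, hC, hCb⟩ := B1_pot_nu_le hs hsn
  refine ne_of_lt (lt_of_le_of_lt (b := C * ENNReal.ofReal (ρ ^ (-s))) ?_
    (ENNReal.mul_lt_top hC.lt_top ENNReal.ofReal_lt_top))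
  have h1 : en s (B1_nu z ρ) = ∫⁻ x, pot s (B1_nu z ρ) x ∂(B1_nu z ρ) := rfl
  rw [h1]
  calc ∫⁻ x, pot s (B1_nu z ρ) x ∂(B1_nu z ρ) ≤ ∫⁻ _, C * ENNReal.ofReal (ρ ^ (-s)) ∂(B1_nu z ρ) :=
      lintegral_mono fun x => hCb x z ρ hρ
    _ = _ := by rw [lintegral_const, B1_nu_univ z hρ, mul_one]

end aux

variable {n : ℕ}

/-- (RA-B1a) Finite: the normalised Lebesgue measure on the ball has finite energy for `q < n` (see the private lemma
`en_nu_ne_top` of the proved file `ND/P7.lean`).  Positive: `edist x y ≤ 2` on the ball, so every energy is at least `2^(-q)`. -/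
theorem infEn_ball_fin {q : ℝ} (hn : 1 ≤ n) (hq0 : 0 < q) (hqn : q < n) :
    infEn q (BB n) ≠ ⊤ ∧ 0 < kap n q ∧ infEn q (BB n) = ENNReal.ofReal (kap n q) := by
  have hfin : infEn q (BB n) ≠ ⊤ := by
    refine ne_of_lt (lt_of_le_of_lt ?_ (B1_en_nu_ne_top hq0 hqn (0 : E n) one_pos).lt_top)
    exact iInf₂_le _ (B1_nu_pk (0 : E n) one_pos subset_rfl)
  have hge : ENNReal.ofReal 2 ^ (-q) ≤ infEn q (BB n) := by
    refine le_iInf₂ fun μ hμ => ?_
    have hae : ∀ᵐ x ∂μ, x ∈ BB n := by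
      rw [ae_iff]
      exact hμ.2
    calc ENNReal.ofReal 2 ^ (-q) = ∫⁻ _, (∫⁻ _, ENNReal.ofReal 2 ^ (-q) ∂μ) ∂μ := by
          rw [lintegral_const, lintegral_const, hμ.1, mul_one, mul_one]
      _ ≤ en q μ := by
          unfold en
          refine lintegral_mono_ae ?_
          filter_upwards [hae] with x hx
          refine lintegral_mono_ae ?_
          filter_upwards [hae] with y hy
          rw [ENNReal.rpow_neg, ENNReal.rpow_neg]
          refine ENNReal.inv_le_inv.2 (ENNReal.rpow_le_rpow ?_ hq0.le)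
          rw [edist_dist]
          refine ENNReal.ofReal_le_ofReal ?_
          have h1 : dist x 0 ≤ 1 := hx
          have h2 : dist y 0 ≤ 1 := hy
          have h3 := dist_triangle_right x y 0
          linarith
  have hpos : 0 < infEn q (BB n) := by
    refine lt_of_lt_of_le ?_ hge
    rw [ENNReal.ofReal_rpow_of_pos two_pos, ENNReal.ofReal_pos]
    positivity
  refine ⟨hfin, ?_, ?_⟩
  · exact ENNReal.toReal_pos hpos.ne' hfin
  · exact (ENNReal.ofReal_toReal hfin).symm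

/-- (RA-B1b) The potential of a minimiser of the ball is constant on the closed ball.  `BB n` is the closed thickening
`Metric.cthickening 1 {0}`, so `ND.pot_ge_cthickening` gives `≥`. -/
theorem pot_eq_on_ball {q : ℝ} (hq0 : 0 < q) (hqn : q < n) {μ : Measure (E n)}
    (hμ : PK (BB n) μ) (hmin : en q μ = infEn q (BB n))
    (hle : ∀ x, pot q μ x ≤ infEn q (BB n)) :
    ∀ x ∈ BB n, pot q μ x = infEn q (BB n) := by
  intro x hx
  have hBB : Metric.cthickening 1 ({0} : Set (E n)) = BB n := by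
    rw [Metric.cthickening_singleton _ zero_le_one]
  refine le_antisymm (hle x) ?_
  have h := pot_ge_cthickening (n := n) (s := q) hq0 hqn (A := {0}) isCompact_singleton
    (δ := 1) one_pos (μ := μ) (by rw [hBB]; exact hμ) (by rw [hBB]; exact hmin)
    (x := x) (by rw [hBB]; exact hx)
  rw [hBB] at h
  exact h

end Pool.Agent.Lib.MP_6cd19d_an.A
end

section

/-!
# The radial equilibrium measure of the ball
-/

set_option autoImplicit false

open MeasureTheory Set Filter Topology Metric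
open scoped ENNReal NNReal RealInnerProductSpace

namespace Pool.Agent.Lib.MP_6cd19d_an.A

open Pool.Agent.Lib.MP_6cd19d_an.ND

variable {n : ℕ}

private theorem B4_pot_map {q : ℝ} {μ σ : Measure (E n)} [IsProbabilityMeasure μ]
    [IsProbabilityMeasure σ] (hσ : σ univ = 1 ∧ σ (sphere (0 : E n) 1)ᶜ = 0)
    (hT : ∀ T : E n ≃ₗᵢ[ℝ] E n, σ.map T = σ) (x : E n) :
    pot q ((μ.prod σ).map (fun p : E n × E n => ‖p.1‖ • p.2)) x =
      ∫⁻ ω, pot q μ (‖x‖ • ω) ∂σ := by
  have hf : Measurable (fun p : E n × E n => ‖p.1‖ • p.2) := by fun_prop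
  have hk : Measurable (fun z : E n => (edist x z) ^ (-q)) :=
    measurable_edist_right.pow_const _
  unfold pot
  have hk2 : Measurable (fun p : E n × E n => (edist x (‖p.1‖ • p.2)) ^ (-q)) := hk.comp hf
  rw [lintegral_map hk hf, lintegral_prod _ hk2.aemeasurable]
  have h1 : ∀ y : E n, ∫⁻ ω, (edist x (‖y‖ • ω)) ^ (-q) ∂σ =
      ∫⁻ ω, (edist (‖x‖ • ω) y) ^ (-q) ∂σ := fun y => mean_symm hσ hT q x y
  simp_rw [h1]
  have h2 : Measurable (Function.uncurry fun (y ω : E n) => (edist (‖x‖ • ω) y) ^ (-q)) := by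
    have h3 : Measurable (fun p : E n × E n => edist (‖x‖ • p.2) p.1) := by
      have : Continuous (fun p : E n × E n => edist (‖x‖ • p.2) p.1) :=
        Continuous.edist (by fun_prop) (by fun_prop)
      exact this.measurable
    exact h3.pow_const _
  exact lintegral_lintegral_swap h2.aemeasurable

private theorem B4_pot_pos {q : ℝ} (hq0 : 0 < q) {μ : Measure (E n)} (h1 : μ univ = 1)
    (hs : μ (BB n)ᶜ = 0) (z : E n) : (ENNReal.ofReal (‖z‖ + 1)) ^ (-q) ≤ pot q μ z := by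
  have h2 : ∫⁻ _y : E n, (ENNReal.ofReal (‖z‖ + 1)) ^ (-q) ∂μ ≤ pot q μ z := by
    unfold pot
    refine lintegral_mono_ae ?_
    have hae : ∀ᵐ y ∂μ, y ∈ BB n := by
      rw [ae_iff]
      exact hs
    filter_upwards [hae] with y hy
    rw [ENNReal.rpow_neg, ENNReal.rpow_neg, ENNReal.inv_le_inv]
    refine ENNReal.rpow_le_rpow ?_ hq0.le
    rw [edist_dist]
    refine ENNReal.ofReal_le_ofReal ?_
    rw [mem_closedBall_zero_iff] at hy
    rw [dist_eq_norm]
    exact (norm_sub_le _ _).trans (by linarith)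
  rw [lintegral_const, h1, mul_one] at h2
  exact h2

/-- (RA-B4) Existence of the radial equilibrium measure.

Proof.  `μ` from `ND.exists_equilibrium` for `K = BB n` (`infEn_ball_fin`), potential `= κ` on the ball
(`pot_eq_on_ball`), `≤ κ` everywhere, `κ = kap n q`.  `σ` from `exists_sphere_measure`.  `μB` = image of `μ.prod σ` under
`(y, ω) ↦ ‖y‖ • ω`: probability on the ball, and `pot q μB x = ∫⁻ y, ∫⁻ ω, edist x (‖y‖ • ω)^(-q) ∂σ ∂μ
= ∫⁻ y, ∫⁻ ω, edist (‖x‖ • ω) y ^(-q) ∂σ ∂μ = ∫⁻ ω, pot q μ (‖x‖ • ω) ∂σ` (`mean_symm`, Tonelli), which depends only on `‖x‖`, is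
`κ` for `‖x‖ ≤ 1` and `≤ κ` always.  `u s := (pot q μB (s • e)).toReal` for a fixed unit vector `e`.
Positivity: `edist x y ≤ ‖x‖ + 1` on the ball. -/
theorem exists_ballM {q : ℝ} (hn : 1 ≤ n) (hq : (n : ℝ) - 2 ≤ q) (hq0 : 0 < q) (hqn : q < n) :
    ∃ (μ : Measure (E n)) (u : ℝ → ℝ), BallM n q μ u := by
  obtain ⟨hfin, hk0, hkap⟩ := infEn_ball_fin (n := n) hn hq0 hqn
  obtain ⟨μ, hPK, hen, -, hle⟩ := exists_equilibrium hq0 hq (isCompact_closedBall (0 : E n) 1) hfin
  obtain ⟨σ, hσ1, hσ2, hT⟩ := exists_sphere_measure (n := n) hn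
  have hμp : IsProbabilityMeasure μ := ⟨hPK.1⟩
  have hσp : IsProbabilityMeasure σ := ⟨hσ1⟩
  have hon := pot_eq_on_ball hq0 hqn hPK hen hle
  have hf : Measurable (fun p : E n × E n => ‖p.1‖ • p.2) := by fun_prop
  have hpot := B4_pot_map (q := q) (μ := μ) ⟨hσ1, hσ2⟩ hT
  have hae : ∀ᵐ ω ∂σ, ω ∈ sphere (0 : E n) 1 := by
    rw [ae_iff]
    exact hσ2
  have hPle : ∀ s : ℝ, ∫⁻ ω, pot q μ (s • ω) ∂σ ≤ infEn q (BB n) := by
    intro s
    refine (lintegral_mono fun ω => hle (s • ω)).trans ?_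
    rw [lintegral_const, hσ1, mul_one]
  have hPfin : ∀ s : ℝ, ∫⁻ ω, pot q μ (s • ω) ∂σ ≠ ⊤ := fun s =>
    ne_top_of_le_ne_top hfin (hPle s)
  refine ⟨(μ.prod σ).map (fun p : E n × E n => ‖p.1‖ • p.2),
    fun s => (∫⁻ ω, pot q μ (s • ω) ∂σ).toReal, ?_, ?_, ?_, ?_, ?_, ?_⟩
  · rw [Measure.map_apply hf MeasurableSet.univ, preimage_univ, measure_univ]
  · rw [Measure.map_apply hf isClosed_closedBall.measurableSet.compl]
    have hsub : (fun p : E n × E n => ‖p.1‖ • p.2) ⁻¹' (BB n)ᶜ ⊆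
        ((BB n)ᶜ ×ˢ (univ : Set (E n))) ∪ ((univ : Set (E n)) ×ˢ (sphere (0 : E n) 1)ᶜ) := by
      rintro ⟨y, ω⟩ hp
      by_contra hcon
      rw [mem_union, not_or] at hcon
      have h1 : y ∈ BB n := by
        by_contra h
        exact hcon.1 ⟨h, mem_univ _⟩
      have h2 : ω ∈ sphere (0 : E n) 1 := by
        by_contra h
        exact hcon.2 ⟨mem_univ _, h⟩
      apply hp
      rw [mem_closedBall_zero_iff] at h1 ⊢
      rw [mem_sphere_zero_iff_norm] at h2
      rw [norm_smul, norm_norm, h2, mul_one]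
      exact h1
    refine measure_mono_null hsub (measure_union_null ?_ ?_)
    · rw [Measure.prod_prod, hPK.2, zero_mul]
    · rw [Measure.prod_prod, hσ2, mul_zero]
  · intro x
    rw [hpot x, ENNReal.ofReal_toReal (hPfin _)]
  · intro s hs
    have h1 : ∫⁻ ω, pot q μ (s • ω) ∂σ = infEn q (BB n) := by
      have h2 : ∫⁻ ω, pot q μ (s • ω) ∂σ = ∫⁻ _ω, infEn q (BB n) ∂σ := by
        refine lintegral_congr_ae ?_
        filter_upwards [hae] with ω hω
        refine hon _ ?_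
        rw [mem_closedBall_zero_iff, norm_smul, mem_sphere_zero_iff_norm.1 hω, mul_one,
          Real.norm_of_nonneg hs.1]
        exact hs.2
      rw [h2, lintegral_const, hσ1, mul_one]
    show (∫⁻ ω, pot q μ (s • ω) ∂σ).toReal = kap n q
    rw [h1]
    rfl
  · intro s hs
    refine ENNReal.toReal_pos ?_ (hPfin s)
    have h1 : ∫⁻ _ω, (ENNReal.ofReal (s + 1)) ^ (-q) ∂σ ≤ ∫⁻ ω, pot q μ (s • ω) ∂σ := by
      refine lintegral_mono_ae ?_
      filter_upwards [hae] with ω hω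
      have h2 := B4_pot_pos hq0 hPK.1 hPK.2 (s • ω)
      rw [norm_smul, mem_sphere_zero_iff_norm.1 hω, mul_one, Real.norm_of_nonneg hs] at h2
      exact h2
    rw [lintegral_const, hσ1, mul_one] at h1
    have h3 : 0 < (ENNReal.ofReal (s + 1)) ^ (-q) :=
      ENNReal.rpow_pos (ENNReal.ofReal_pos.2 (by linarith)) ENNReal.ofReal_ne_top
    exact (h3.trans_le h1).ne'
  · intro s _
    exact ENNReal.toReal_mono hfin (hPle s)

end Pool.Agent.Lib.MP_6cd19d_an.A
end

section

/-!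
# The dual measure
-/

set_option autoImplicit false

open MeasureTheory Set Filter Topology Metric
open scoped ENNReal NNReal RealInnerProductSpace

namespace Pool.Agent.Lib.MP_6cd19d_an.A

open Pool.Agent.Lib.MP_6cd19d_an.ND

variable {n : ℕ}

/-- The scaling identity of the potential. -/
theorem P3_scale {q : ℝ} (μ : Measure (E n)) (x : E n) {r : ℝ} (hr : 0 < r) :
    ∫⁻ z, (edist x (r • z)) ^ (-q) ∂μ = ENNReal.ofReal (r ^ (-q)) * pot q μ (r⁻¹ • x) := by
  unfold pot
  have h1 : ∀ z : E n, (edist x (r • z)) ^ (-q) =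
      ENNReal.ofReal (r ^ (-q)) * (edist (r⁻¹ • x) z) ^ (-q) := by
    intro z
    have h2 : x = r • (r⁻¹ • x) := by rw [smul_smul, mul_inv_cancel₀ hr.ne', one_smul]
    have h3 : edist x (r • z) = ENNReal.ofReal r * edist (r⁻¹ • x) z := by
      conv_lhs => rw [h2]
      rw [edist_dist, edist_dist, dist_smul₀, Real.norm_of_nonneg hr.le, ENNReal.ofReal_mul hr.le]
    rw [h3, ENNReal.mul_rpow_of_ne_top ENNReal.ofReal_ne_top (edist_ne_top _ _),
      ENNReal.ofReal_rpow_of_pos hr]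
  simp only [h1]
  rw [lintegral_const_mul' _ _ ENNReal.ofReal_ne_top]

/-- (RA-P3) Existence of the dual measure.

Proof.  `κ = kap n q > 0` (from `u_pos`, `u_in`).  `Q s = u s / κ`, `0 ≤ Q ≤ 1`, `Q = 1` on `[0,1]`, `Q < 1` on `(1,∞)` (`u_strictAnti`).
`Λ` = image of the product of `μ` with the measure `κ⁻¹ 2 r^(1+q) dr` on `(0,1)` (volume.restrict (Ioo 0 1) with that density) under
`(z, r) ↦ r • z`.  It is finite and carried by the open unit ball.  For `r > 0`: `∫⁻ edist x (r • z)^(-q) dμ(z) = r^(-q) pot q μ (r⁻¹ • x)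
= ofReal (r^(-q) u(‖x‖/r))`.  So `pot q Λ x = ofReal (j ‖x‖)`, `j s = ∫ r in 0..1, 2 r Q(s/r)` (measurability of `u` on `[0,∞)`: `u s = (pot q μ (s • e)).toReal`
for a unit vector `e`, `pot q μ` measurable; work with `lintegral` and set `j s = (∫⁻ ...).toReal`, the values are `≤ 1`).
`c = 1 - ∫_0^1 2 s Q(1/s) ds`, positive since `Q(1/s) < 1` for `0 < s < 1`.  Substitution `r = s r'`: `∫_0^s 2 r Q(s/r) dr = (1-c) s^2`.  For `s ≤ 1`:
`j s = (1-c) s² + ∫_s^1 2 r dr = 1 - c s²`.  For `s > 1`: `j s = (1-c)s² - ∫_1^s 2 r Q(s/r) dr ≥ (1-c)s² - (s² - 1)`. -/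
theorem exists_dualM {q : ℝ} (hn : 1 ≤ n) (hq0 : 0 < q) {μ : Measure (E n)} {u : ℝ → ℝ}
    (hB : BallM n q μ u) : ∃ (c : ℝ) (Λ : Measure (E n)) (j : ℝ → ℝ), 0 < c ∧ DualM n q c Λ j := by
  have : IsProbabilityMeasure μ := ⟨hB.prob⟩
  set κ : ℝ := kap n q with hκdef
  have hκ : 0 < κ := by
    have h1 := hB.u_pos 0 le_rfl
    rwa [hB.u_in 0 ⟨le_rfl, zero_le_one⟩] at h1
  -- the profile
  set v : ℝ → ℝ := fun s => u |s| with hv
  have hvm : Measurable v := by
    have h1 : v = fun s : ℝ => (pot q μ (s • (bv ⟨0, hn⟩ : E n))).toReal := by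
      funext s
      rw [hB.pot_eq, norm_smul, norm_bv, mul_one, Real.norm_eq_abs,
        ENNReal.toReal_ofReal (hB.u_pos _ (abs_nonneg s)).le]
    rw [h1]
    exact ((measurable_pot q μ).comp (measurable_id.smul_const _)).ennreal_toReal
  have hv0 : ∀ s, 0 < v s := fun s => hB.u_pos _ (abs_nonneg s)
  have hv1 : ∀ s, v s ≤ κ := fun s => hB.u_le _ (abs_nonneg s)
  have hvin : ∀ s, |s| ≤ 1 → v s = κ := fun s hs => hB.u_in _ ⟨abs_nonneg s, hs⟩
  have hvlt : ∀ s, 1 < s → v s < κ := fun s hs => by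
    have h1 := (u_strictAnti hn hq0 hB).2 s hs
    simpa [hv, abs_of_pos (lt_trans zero_lt_one hs)] using h1
  set W : ℝ → ℝ := fun r => 2 * r * (v (1 / r) / κ) with hW
  have hWm : Measurable W := by
    have : Measurable fun r : ℝ => v (1 / r) := hvm.comp (by fun_prop)
    fun_prop
  have hWb : ∀ r, 0 ≤ r → 0 ≤ W r ∧ W r ≤ 2 * r := by
    intro r hr
    have h1 : v (1 / r) / κ ≤ 1 := (div_le_one hκ).2 (hv1 _)
    have h2 : 0 ≤ v (1 / r) / κ := (div_pos (hv0 _) hκ).le
    constructor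
    · simp only [hW]; positivity
    · simp only [hW]
      nlinarith
  have hWi : ∀ a b : ℝ, 0 ≤ a → 0 ≤ b → IntervalIntegrable W volume a b := by
    intro a b ha hb
    have h1 : IntervalIntegrable (fun r : ℝ => 2 * r) volume a b :=
      (continuous_const.mul continuous_id).intervalIntegrable a b
    refine h1.mono_fun' hWm.aestronglyMeasurable ?_
    refine (ae_restrict_iff' measurableSet_uIoc).2 (Eventually.of_forall fun r hr => ?_)
    have hr0 : 0 ≤ r := by
      have := hr.1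
      have h3 : 0 ≤ min a b := le_min ha hb
      exact (h3.trans_lt this).le
    show ‖W r‖ ≤ 2 * r
    rw [Real.norm_eq_abs, abs_of_nonneg (hWb r hr0).1]
    exact (hWb r hr0).2
  have h2r : ∀ a b : ℝ, ∫ r in a..b, 2 * r = b ^ 2 - a ^ 2 := by
    intro a b
    rw [intervalIntegral.integral_const_mul, integral_id]
    ring
  have h2i : ∀ a b : ℝ, IntervalIntegrable (fun r : ℝ => 2 * r) volume a b := fun a b =>
    (continuous_const.mul continuous_id).intervalIntegrable a b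
  set A : ℝ := ∫ r in (0 : ℝ)..1, W r with hA
  have hA1 : A < 1 := by
    have h1 : 0 < ∫ r in (0 : ℝ)..1, (2 * r - W r) := by
      refine intervalIntegral.intervalIntegral_pos_of_pos_on
        ((h2i 0 1).sub (hWi 0 1 le_rfl zero_le_one)) (fun r hr => ?_) zero_lt_one
      have h2 : 1 < 1 / r := by
        rw [lt_div_iff₀ hr.1, one_mul]
        exact hr.2
      have h3 : v (1 / r) / κ < 1 := (div_lt_one hκ).2 (hvlt _ h2)
      have h4 : 0 < r := hr.1
      simp only [hW]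
      nlinarith
    rw [intervalIntegral.integral_sub (h2i 0 1) (hWi 0 1 le_rfl zero_le_one), h2r] at h1
    linarith
  -- the function j
  set J : ℝ → ℝ≥0∞ := fun s => ∫⁻ r in Ioo (0 : ℝ) 1, ENNReal.ofReal (2 * r * (v (s / r) / κ))
    with hJ
  have hQm : ∀ s : ℝ, Measurable fun r : ℝ => 2 * r * (v (s / r) / κ) := by
    intro s
    have : Measurable fun r : ℝ => v (s / r) := hvm.comp (by fun_prop)
    fun_prop
  have hJfin : ∀ s, J s ≠ ⊤ := by
    intro s
    have h1 : J s ≤ ∫⁻ r in Ioo (0 : ℝ) 1, ENNReal.ofReal 2 := by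
      refine setLIntegral_mono measurable_const fun r hr => ?_
      refine ENNReal.ofReal_le_ofReal ?_
      have h2 : v (s / r) / κ ≤ 1 := (div_le_one hκ).2 (hv1 _)
      have h3 : 0 ≤ v (s / r) / κ := (div_pos (hv0 _) hκ).le
      have h4 := hr.1
      have h5 := hr.2
      nlinarith
    refine ne_top_of_le_ne_top ?_ h1
    rw [setLIntegral_const, Real.volume_Ioo]
    exact ENNReal.mul_ne_top ENNReal.ofReal_ne_top ENNReal.ofReal_ne_top
  have hJr : ∀ s, (J s).toReal = ∫ r in (0 : ℝ)..1, 2 * r * (v (s / r) / κ) := by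
    intro s
    rw [intervalIntegral.integral_of_le zero_le_one, integral_Ioc_eq_integral_Ioo,
      integral_eq_lintegral_of_nonneg_ae]
    · refine (ae_restrict_iff' measurableSet_Ioo).2 (Eventually.of_forall fun r hr => ?_)
      have h3 : 0 ≤ v (s / r) / κ := (div_pos (hv0 _) hκ).le
      have h4 := hr.1
      simp only [Pi.zero_apply]
      positivity
    · exact (hQm s).aestronglyMeasurable
  have hJs : ∀ s, 0 < s → (J s).toReal = s ^ 2 * ∫ r in (0 : ℝ)..(1 / s), W r := by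
    intro s hs
    rw [hJr]
    have h1 : ∀ r : ℝ, 2 * r * (v (s / r) / κ) = s * W (r / s) := by
      intro r
      simp only [hW]
      rw [one_div_div]
      field_simp
    simp only [h1]
    rw [intervalIntegral.integral_const_mul, intervalIntegral.integral_comp_div (fun r => W r) hs.ne']
    simp only [zero_div, smul_eq_mul]
    ring
  -- the measure
  set ρ : Measure ℝ := (volume.restrict (Ioo (0 : ℝ) 1)).withDensity
    (fun r => ENNReal.ofReal (κ⁻¹ * 2 * r ^ (1 + q))) with hρ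
  have hdm : Measurable fun r : ℝ => ENNReal.ofReal (κ⁻¹ * 2 * r ^ (1 + q)) := by
    refine Measurable.ennreal_ofReal ?_
    exact measurable_const.mul (measurable_id.pow_const _)
  have hρfin : ρ univ < ⊤ := by
    rw [hρ, withDensity_apply _ MeasurableSet.univ, Measure.restrict_univ]
    have h1 : ∫⁻ r in Ioo (0 : ℝ) 1, ENNReal.ofReal (κ⁻¹ * 2 * r ^ (1 + q)) ≤
        ∫⁻ r in Ioo (0 : ℝ) 1, ENNReal.ofReal (κ⁻¹ * 2) := by
      refine setLIntegral_mono measurable_const fun r hr => ?_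
      refine ENNReal.ofReal_le_ofReal ?_
      have h2 : r ^ (1 + q) ≤ 1 := Real.rpow_le_one hr.1.le hr.2.le (by linarith)
      have h3 : 0 < κ⁻¹ * 2 := by positivity
      nlinarith
    refine lt_of_le_of_lt h1 ?_
    rw [setLIntegral_const, Real.volume_Ioo]
    exact ENNReal.mul_lt_top ENNReal.ofReal_lt_top ENNReal.ofReal_lt_top
  have : IsFiniteMeasure ρ := ⟨hρfin⟩
  have hρ0 : ρ (Ioo (0 : ℝ) 1)ᶜ = 0 := by
    rw [hρ]
    refine withDensity_absolutelyContinuous _ _ ?_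
    rw [Measure.restrict_apply measurableSet_Ioo.compl]
    simp
  have hsm : Measurable fun p : ℝ × E n => p.1 • p.2 := measurable_fst.smul measurable_snd
  set Λ : Measure (E n) := Measure.map (fun p : ℝ × E n => p.1 • p.2) (ρ.prod μ) with hΛ
  have : IsFiniteMeasure Λ := by
    rw [hΛ]
    infer_instance
  have hpot : ∀ x : E n, pot q Λ x = J ‖x‖ := by
    intro x
    have hkm : Measurable fun y : E n => (edist x y) ^ (-q) :=
      (measurable_const.edist measurable_id).pow_const _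
    have hcm : Measurable fun p : ℝ × E n => (edist x (p.1 • p.2)) ^ (-q) := hkm.comp hsm
    have hpp : pot q Λ x = ∫⁻ r, ∫⁻ z, (edist x (r • z)) ^ (-q) ∂μ ∂ρ := by
      unfold pot
      rw [hΛ, lintegral_map hkm hsm, lintegral_prod _ hcm.aemeasurable]
    rw [hpp, hρ, lintegral_withDensity_eq_lintegral_mul₀ hdm.aemeasurable
        (hcm.lintegral_prod_right' (ν := μ)).aemeasurable]
    refine setLIntegral_congr_fun measurableSet_Ioo fun r hr => ?_
    have hr0 : 0 < r := hr.1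
    simp only [Pi.mul_apply]
    rw [P3_scale μ x hr0, hB.pot_eq, norm_smul, Real.norm_of_nonneg (inv_nonneg.2 hr0.le),
      ← ENNReal.ofReal_mul (Real.rpow_nonneg hr0.le _), ← ENNReal.ofReal_mul (by positivity)]
    congr 1
    have h1 : v (‖x‖ / r) = u (r⁻¹ * ‖x‖) := by
      simp only [hv]
      rw [abs_of_nonneg (by positivity)]
      congr 1
      ring
    rw [h1, Real.rpow_add hr0, Real.rpow_one, Real.rpow_neg hr0.le]
    have h2 : r ^ q ≠ 0 := (Real.rpow_pos_of_pos hr0 _).ne'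
    field_simp
  refine ⟨1 - A, Λ, fun s => (J s).toReal, by linarith, ?_⟩
  have hin : ∀ s : ℝ, 0 ≤ s → s ≤ 1 → (J s).toReal = 1 - (1 - A) * s ^ 2 := by
    intro s hs0 hs1
    rcases hs0.eq_or_lt with h0 | h0
    · rw [hJr, ← h0]
      have h1 : ∀ r : ℝ, 2 * r * (v (0 / r) / κ) = 2 * r := by
        intro r
        rw [zero_div, hvin 0 (by simp), div_self hκ.ne', mul_one]
      simp only [h1]
      rw [h2r]
      ring
    · have h1s : 1 ≤ 1 / s := by
        rw [le_div_iff₀ h0, one_mul]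
        exact hs1
      rw [hJs s h0, ← intervalIntegral.integral_add_adjacent_intervals
        (hWi 0 1 le_rfl zero_le_one) (hWi 1 (1 / s) zero_le_one (by positivity))]
      have h2 : ∫ r in (1 : ℝ)..(1 / s), W r = ∫ r in (1 : ℝ)..(1 / s), 2 * r := by
        refine intervalIntegral.integral_congr fun r hr => ?_
        rw [uIcc_of_le h1s] at hr
        have h3 : 0 < r := lt_of_lt_of_le zero_lt_one hr.1
        have h4 : |1 / r| ≤ 1 := by
          rw [abs_of_pos (by positivity), div_le_one h3]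
          exact hr.1
        simp only [hW]
        rw [hvin _ h4, div_self hκ.ne', mul_one]
      rw [h2, h2r, ← hA]
      field_simp
      ring
  have hge : ∀ s : ℝ, 1 < s → 1 - (1 - A) * s ^ 2 ≤ (J s).toReal := by
    intro s hs
    have h0 : 0 < s := lt_trans zero_lt_one hs
    have h1s : 1 / s ≤ 1 := by
      rw [div_le_one h0]
      exact hs.le
    have h1 := intervalIntegral.integral_add_adjacent_intervals
        (hWi 0 (1 / s) le_rfl (by positivity)) (hWi (1 / s) 1 (by positivity) zero_le_one)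
    have h2 : ∫ r in (1 / s)..(1 : ℝ), W r ≤ ∫ r in (1 / s)..(1 : ℝ), 2 * r := by
      refine intervalIntegral.integral_mono_on h1s (hWi _ _ (by positivity) zero_le_one)
        (h2i _ _) fun r hr => ?_
      exact (hWb r (le_trans (by positivity) hr.1)).2
    rw [h2r] at h2
    rw [hJs s h0]
    have h3 : A - (1 ^ 2 - (1 / s) ^ 2) ≤ ∫ r in (0 : ℝ)..(1 / s), W r := by
      rw [hA]
      linarith
    have h4 : s ^ 2 * (A - (1 ^ 2 - (1 / s) ^ 2)) ≤ s ^ 2 * ∫ r in (0 : ℝ)..(1 / s), W r := by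
      gcongr
    refine le_trans (le_of_eq ?_) h4
    field_simp
    ring
  refine ⟨?_, ?_, ?_, ?_, ?_, ?_⟩
  · exact measure_lt_top _ _
  · rw [hΛ, Measure.map_apply hsm measurableSet_ball.compl]
    have hsub : (fun p : ℝ × E n => p.1 • p.2) ⁻¹' (ball (0 : E n) 1)ᶜ ⊆
        ((Ioo (0 : ℝ) 1)ᶜ ×ˢ univ) ∪ (univ ×ˢ (BB n)ᶜ) := by
      rintro ⟨r, z⟩ hp
      by_contra hcon
      simp only [mem_union, mem_prod, mem_compl_iff, mem_univ, and_true, true_and, not_or,
        not_not] at hcon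
      obtain ⟨hr, hz⟩ := hcon
      apply hp
      rw [mem_ball_zero_iff, norm_smul, Real.norm_of_nonneg hr.1.le]
      have hz1 : ‖z‖ ≤ 1 := by simpa using hz
      nlinarith [hr.1, hr.2, norm_nonneg z]
    refine measure_mono_null hsub (measure_union_null ?_ ?_)
    · rw [Measure.prod_prod, hρ0, zero_mul]
    · rw [Measure.prod_prod, hB.supp, mul_zero]
  · intro x
    rw [hpot, ENNReal.ofReal_toReal (hJfin _)]
  · intro s hs
    exact hin s hs.1 hs.2
  · intro s hs
    rcases le_or_gt s 1 with h1 | h1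
    · exact (hin s hs h1).ge
    · exact hge s h1
  · intro s _
    exact ENNReal.toReal_nonneg

end Pool.Agent.Lib.MP_6cd19d_an.A
end
end
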