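import Pool.Agent.Lib.MP_6cd19d_an.ND.B04
import Pool.Agent.Lib.MP_6cd19d_an.A.G2
import Pool.Agent.Lib.MP_6cd19d_an.ND.P5b
import Pool.Agent.Lib.MP_6cd19d_an.A.P3

section

section

/-!
# The smooth Newton potentials
-/

set_option autoImplicit false

open MeasureTheory Set Filter Topology Metric
open scoped ENNReal NNReal RealInnerProductSpace

namespace Pool.Agent.Lib.MP_6cd19d_an.A

open Pool.Agent.Lib.MP_6cd19d_an.ND

variable {n : ℕ}

/-- The smooth Newton potential. -/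
noncomputable def wN (n : ℕ) (e : ℝ) (ν : Measure (E n)) (x : E n) : ℝ :=
  ∫ y, Nk n (Real.sqrt (dist x y ^ 2 + e ^ 2)) ∂ν

private theorem G3_integrable {μ : Measure (E n)} [IsFiniteMeasure μ] {F : Set (E n)}
    (hF : IsCompact F) (hμF : μ Fᶜ = 0) {f : E n → ℝ} (hf : ContinuousOn f F) :
    Integrable f μ := by
  have h1 := hf.integrableOn_compact (μ := μ) hF
  rwa [IntegrableOn, Measure.restrict_eq_self_of_ae_mem (s := F) (by rw [ae_iff]; exact hμF)] at h1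

private theorem G3_hasDerivAt_int {μ : Measure (E n)} [IsFiniteMeasure μ] {F : Set (E n)}
    (hF : IsCompact F) (hμF : μ Fᶜ = 0) {ε : ℝ} {φ φ' : ℝ → E n → ℝ}
    (h1 : Continuous (fun p : ℝ × E n => φ p.1 p.2))
    (h2 : Continuous (fun p : ℝ × E n => φ' p.1 p.2))
    (h3 : ∀ t y, HasDerivAt (fun t => φ t y) (φ' t y) t)
    {t : ℝ} (ht : t ∈ Ioo (-ε) ε) :
    HasDerivAt (fun t => ∫ y, φ t y ∂μ) (∫ y, φ' t y ∂μ) t := by
  have hae : ∀ᵐ y ∂μ, y ∈ F := by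
    rw [ae_iff]
    exact hμF
  have hc : ∀ t : ℝ, ∀ {ψ : ℝ → E n → ℝ},
      Continuous (fun p : ℝ × E n => ψ p.1 p.2) → Integrable (ψ t) μ := by
    intro t ψ hψ
    refine G3_integrable hF hμF (Continuous.continuousOn ?_)
    exact hψ.comp (f := fun y => (t, y)) (by fun_prop)
  obtain ⟨C, hC⟩ := (isCompact_Icc.prod hF).exists_bound_of_continuousOn
    (f := fun p : ℝ × E n => φ' p.1 p.2) (s := Icc (-ε) ε ×ˢ F) h2.continuousOn
  refine (hasDerivAt_integral_of_dominated_loc_of_deriv_le (s := Ioo (-ε) ε) (bound := fun _ => C)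
    (isOpen_Ioo.mem_nhds ht) ?_ (hc t h1) (hc t h2).aestronglyMeasurable ?_
    (integrable_const C) ?_).2
  · filter_upwards with u
    exact (hc u h1).aestronglyMeasurable
  · filter_upwards [hae] with y hy u hu
    exact hC (u, y) ⟨⟨hu.1.le, hu.2.le⟩, hy⟩
  · filter_upwards [hae] with y hy u hu
    exact h3 u y

private theorem G3_pos {e : ℝ} (he : 0 < e) (z : E n) : 0 < ‖z‖ ^ 2 + e ^ 2 := by positivity

private theorem G3_cont (hn : 2 ≤ n) {e : ℝ} (he : 0 < e) :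
    Continuous (fun z : E n => Nk n (Real.sqrt (‖z‖ ^ 2 + e ^ 2))) := by
  have h1 : ContinuousOn (fun s : ℝ => Nk n (Real.sqrt s)) (Ioi 0) := fun s hs =>
    (hasDerivAt_Nk_sqrt hn hs).continuousAt.continuousWithinAt
  exact h1.comp_continuous (f := fun z : E n => ‖z‖ ^ 2 + e ^ 2) (by fun_prop)
    fun z => G3_pos he z

private theorem G3_contp {e : ℝ} (he : 0 < e) (p : ℝ) :
    Continuous (fun z : E n => (‖z‖ ^ 2 + e ^ 2) ^ p) := by
  refine Continuous.rpow_const (by fun_prop) fun z => Or.inl (G3_pos he z).ne'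

private theorem G3_line (x y : E n) (i : Fin n) (e t : ℝ) :
    HasDerivAt (fun t : ℝ => ‖x + t • (bv i : E n) - y‖ ^ 2 + e ^ 2) (2 * (x i + t - y i)) t := by
  have h0 : HasDerivAt (fun t : ℝ => x + t • bv i - y) (bv i) t := by
    have h1 := (((hasDerivAt_id t).smul_const (bv i : E n)).const_add x).sub_const y
    rw [one_smul] at h1
    exact h1
  have h1 := h0.norm_sq
  have h2 : inner ℝ (x + t • bv i - y) (bv i : E n) = x i + t - y i := by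
    simp [bv, EuclideanSpace.inner_single_right]
  rw [h2] at h1
  exact h1.add_const (e ^ 2)

private theorem G3_d1 (hn : 2 ≤ n) {e : ℝ} (he : 0 < e) (x y : E n) (i : Fin n) (t : ℝ) :
    HasDerivAt (fun t : ℝ => Nk n (Real.sqrt (‖x + t • (bv i : E n) - y‖ ^ 2 + e ^ 2)))
      (-(x i + t - y i) * (‖x + t • (bv i : E n) - y‖ ^ 2 + e ^ 2) ^ (-(n : ℝ) / 2)) t := by
  have h1 := (hasDerivAt_Nk_sqrt hn (G3_pos he (x + t • (bv i : E n) - y))).comp t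
    (G3_line x y i e t)
  refine h1.congr_deriv ?_
  ring

private theorem G3_d2 {e : ℝ} (he : 0 < e) (x y : E n) (i : Fin n) (t : ℝ) :
    HasDerivAt (fun t : ℝ => -(x i + t - y i) *
      (‖x + t • (bv i : E n) - y‖ ^ 2 + e ^ 2) ^ (-(n : ℝ) / 2))
      (-(‖x + t • (bv i : E n) - y‖ ^ 2 + e ^ 2) ^ (-(n : ℝ) / 2) +
        n * (x i + t - y i) ^ 2 *
          (‖x + t • (bv i : E n) - y‖ ^ 2 + e ^ 2) ^ (-(n : ℝ) / 2 - 1)) t := by
  have h1 := (G3_line x y i e t).rpow_const (p := -(n : ℝ) / 2)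
    (Or.inl (G3_pos he (x + t • (bv i : E n) - y)).ne')
  have h2 : HasDerivAt (fun t : ℝ => -(x i + t - y i)) (-1) t := by
    have h3 := (((hasDerivAt_id t).const_add (x i)).sub_const (y i)).neg
    exact h3
  refine (h2.mul h1).congr_deriv ?_
  ring

private theorem G3_fin {K : Set (E n)} {ν : Measure (E n)} (hν : PK K ν) :
    IsProbabilityMeasure ν := ⟨hν.1⟩

/-- (RA-G3) The smooth Newton potential of a probability measure of compact support has along the coordinate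
lines second derivatives with negative sum at every point.

Proof (compare `ND/P5a.lean`, theorem `hasD2_pot`, proved there for the Riesz kernel, here it is easier: no singularity).
`dist (x + t e_i) y ^ 2 = dist x y ^ 2 + 2 t (x i - y i) + t^2`.  With `s = dist x y ^ 2 + e ^ 2` (`hasDerivAt_Nk_sqrt`): first derivative
`∫ -(x i - y i) s^(-n/2)`, second `∫ (-s^(-n/2) + n (x i - y i)^2 s^(-n/2-1))`; differentiate twice under the integral
(`hasDerivAt_integral_of_dominated_loc_of_deriv_le`, for `|t| ≤ 1`, `y ∈ K` everything is bounded).  The sum over `i` is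
`∫ (-n s^(-n/2) + n d² s^(-n/2-1)) = -∫ n e² s^(-n/2-1) < 0`. -/
theorem hasD2_wN (hn : 2 ≤ n) {e : ℝ} (he : 0 < e) {K : Set (E n)} (hK : IsCompact K)
    {ν : Measure (E n)} (hν : PK K ν) (x : E n) :
    ∃ a b : Fin n → ℝ, HasD2 (wN n e ν) x a b ∧ ∑ i, b i < 0 := by
  have := G3_fin hν
  have hcx : ∀ i : Fin n, Continuous (fun q : ℝ × E n => x i + q.1 - q.2 i) := fun i => by
    fun_prop
  have hcz : ∀ i : Fin n, Continuous (fun q : ℝ × E n => x + q.1 • (bv i : E n) - q.2) :=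
    fun i => by fun_prop
  have hc0 : ∀ i : Fin n, Continuous (fun q : ℝ × E n =>
      Nk n (Real.sqrt (‖x + q.1 • (bv i : E n) - q.2‖ ^ 2 + e ^ 2))) := fun i =>
    (G3_cont hn he).comp (hcz i)
  have hcp : ∀ (p : ℝ) (i : Fin n), Continuous (fun q : ℝ × E n =>
      (‖x + q.1 • (bv i : E n) - q.2‖ ^ 2 + e ^ 2) ^ p) := fun p i =>
    (G3_contp he p).comp (hcz i)
  have hc1 : ∀ i : Fin n, Continuous (fun q : ℝ × E n => -(x i + q.1 - q.2 i) *
      (‖x + q.1 • (bv i : E n) - q.2‖ ^ 2 + e ^ 2) ^ (-(n : ℝ) / 2)) := fun i =>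
    (hcx i).neg.mul (hcp _ i)
  have hc2 : ∀ i : Fin n, Continuous (fun q : ℝ × E n =>
      (-(‖x + q.1 • (bv i : E n) - q.2‖ ^ 2 + e ^ 2) ^ (-(n : ℝ) / 2) +
        n * (x i + q.1 - q.2 i) ^ 2 *
          (‖x + q.1 • (bv i : E n) - q.2‖ ^ 2 + e ^ 2) ^ (-(n : ℝ) / 2 - 1))) := fun i =>
    (hcp _ i).neg.add ((continuous_const.mul ((hcx i).pow 2)).mul (hcp _ i))
  refine ⟨fun i => ∫ y, -(x i + 0 - y i) *
      (‖x + (0 : ℝ) • (bv i : E n) - y‖ ^ 2 + e ^ 2) ^ (-(n : ℝ) / 2) ∂ν,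
    fun i => ∫ y, (-(‖x + (0 : ℝ) • (bv i : E n) - y‖ ^ 2 + e ^ 2) ^ (-(n : ℝ) / 2) +
        n * (x i + 0 - y i) ^ 2 *
          (‖x + (0 : ℝ) • (bv i : E n) - y‖ ^ 2 + e ^ 2) ^ (-(n : ℝ) / 2 - 1)) ∂ν, ?_, ?_⟩
  · intro i
    refine ⟨fun t => ∫ y, -(x i + t - y i) *
      (‖x + t • (bv i : E n) - y‖ ^ 2 + e ^ 2) ^ (-(n : ℝ) / 2) ∂ν, ?_, rfl, ?_⟩
    · filter_upwards [isOpen_Ioo.mem_nhds (show (0 : ℝ) ∈ Ioo (-1) 1 from ⟨by norm_num, by norm_num⟩)]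
        with t ht
      have h1 := G3_hasDerivAt_int hK hν.2
        (φ := fun t y => Nk n (Real.sqrt (‖x + t • (bv i : E n) - y‖ ^ 2 + e ^ 2)))
        (φ' := fun t y => -(x i + t - y i) *
          (‖x + t • (bv i : E n) - y‖ ^ 2 + e ^ 2) ^ (-(n : ℝ) / 2))
        (hc0 i) (hc1 i) (fun u y => G3_d1 hn he x y i u) ht
      refine h1.congr_of_eventuallyEq (Eventually.of_forall fun u => ?_)
      simp only [wN, dist_eq_norm]
    · exact G3_hasDerivAt_int (ε := 1) hK hν.2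
        (φ := fun t y => -(x i + t - y i) *
          (‖x + t • (bv i : E n) - y‖ ^ 2 + e ^ 2) ^ (-(n : ℝ) / 2))
        (φ' := fun t y => (-(‖x + t • (bv i : E n) - y‖ ^ 2 + e ^ 2) ^ (-(n : ℝ) / 2) +
          n * (x i + t - y i) ^ 2 *
          (‖x + t • (bv i : E n) - y‖ ^ 2 + e ^ 2) ^ (-(n : ℝ) / 2 - 1)))
        (hc1 i) (hc2 i) (fun u y => G3_d2 he x y i u) ⟨by norm_num, by norm_num⟩
  · have hint : ∀ i : Fin n, Integrable (fun y : E n =>
        (-(‖x + (0 : ℝ) • (bv i : E n) - y‖ ^ 2 + e ^ 2) ^ (-(n : ℝ) / 2) +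
        n * (x i + 0 - y i) ^ 2 *
          (‖x + (0 : ℝ) • (bv i : E n) - y‖ ^ 2 + e ^ 2) ^ (-(n : ℝ) / 2 - 1))) ν := by
      intro i
      refine G3_integrable hK hν.2 (Continuous.continuousOn ?_)
      exact (hc2 i).comp (f := fun y => ((0 : ℝ), y)) (by fun_prop)
    rw [← integral_finsetSum _ (fun i _ => hint i)]
    have hsum : ∀ y : E n, ∑ i : Fin n,
        (-(‖x + (0 : ℝ) • (bv i : E n) - y‖ ^ 2 + e ^ 2) ^ (-(n : ℝ) / 2) +
        n * (x i + 0 - y i) ^ 2 *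
          (‖x + (0 : ℝ) • (bv i : E n) - y‖ ^ 2 + e ^ 2) ^ (-(n : ℝ) / 2 - 1)) =
        -(n * e ^ 2 * (‖x - y‖ ^ 2 + e ^ 2) ^ (-(n : ℝ) / 2 - 1)) := by
      intro y
      simp only [zero_smul, add_zero]
      have hp := G3_pos he (x - y)
      have h1 : ∑ i : Fin n, (x i - y i) ^ 2 = ‖x - y‖ ^ 2 := by
        rw [← sum_sq]
        rfl
      have h2 : (‖x - y‖ ^ 2 + e ^ 2) ^ (-(n : ℝ) / 2) =
          (‖x - y‖ ^ 2 + e ^ 2) * (‖x - y‖ ^ 2 + e ^ 2) ^ (-(n : ℝ) / 2 - 1) := by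
        have e1 : -(n : ℝ) / 2 = 1 + (-(n : ℝ) / 2 - 1) := by ring
        conv_lhs => rw [e1]
        rw [Real.rpow_add hp, Real.rpow_one]
      rw [Finset.sum_add_distrib, Finset.sum_const, Finset.card_univ, Fintype.card_fin,
        nsmul_eq_mul, ← Finset.sum_mul, ← Finset.mul_sum, h1, h2]
      ring
    simp_rw [hsum]
    rw [integral_neg, neg_lt_zero]
    have hpos : ∀ y : E n, 0 < n * e ^ 2 * (‖x - y‖ ^ 2 + e ^ 2) ^ (-(n : ℝ) / 2 - 1) := by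
      intro y
      have hp := G3_pos he (x - y)
      have hn0 : (0 : ℝ) < n := by
        have : 0 < n := by omega
        exact_mod_cast this
      positivity
    rw [integral_pos_iff_support_of_nonneg (fun y => (hpos y).le)]
    · have h3 : Function.support (fun y : E n =>
          n * e ^ 2 * (‖x - y‖ ^ 2 + e ^ 2) ^ (-(n : ℝ) / 2 - 1)) = univ := by
        ext y
        simp only [Function.mem_support, mem_univ, iff_true]
        exact (hpos y).ne'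
      rw [h3, hν.1]
      exact one_pos
    · refine G3_integrable hK hν.2 (Continuous.continuousOn ?_)
      exact continuous_const.mul ((G3_contp he _).comp (by fun_prop))

/-- (RA-G3b) Continuity (dominated convergence). -/
theorem continuous_wN (hn : 2 ≤ n) {e : ℝ} (he : 0 < e) {K : Set (E n)} (hK : IsCompact K)
    {ν : Measure (E n)} (hν : PK K ν) : Continuous (wN n e ν) := by
  have := G3_fin hν
  have h0 : wN n e ν = fun x => ∫ y in K, Nk n (Real.sqrt (‖x - y‖ ^ 2 + e ^ 2)) ∂ν := by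
    funext x
    rw [Measure.restrict_eq_self_of_ae_mem (s := K) (by rw [ae_iff]; exact hν.2)]
    simp only [wN, dist_eq_norm]
  rw [h0]
  refine continuous_parametric_integral_of_continuous (f := fun x y : E n =>
    Nk n (Real.sqrt (‖x - y‖ ^ 2 + e ^ 2))) ?_ hK
  exact (G3_cont hn he).comp (g := fun z : E n => Nk n (Real.sqrt (‖z‖ ^ 2 + e ^ 2)))
    (f := fun p : E n × E n => p.1 - p.2) (by fun_prop)

/-- (RA-G3c) Bounds: `dist x y ≤ ‖x‖ + ρ` and `√(d²+e²) ≥ d ≥ ‖x‖ - ρ`, `Nk` antitone. -/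
theorem wN_bounds (hn : 2 ≤ n) {e ρ : ℝ} (he : 0 < e) {K : Set (E n)} (hK : IsCompact K)
    (hKρ : K ⊆ closedBall 0 ρ) {ν : Measure (E n)} (hν : PK K ν) (x : E n) :
    Nk n (Real.sqrt ((‖x‖ + ρ) ^ 2 + e ^ 2)) ≤ wN n e ν x ∧
      (ρ < ‖x‖ → wN n e ν x ≤ Nk n (‖x‖ - ρ)) := by
  have := G3_fin hν
  have hae : ∀ᵐ y ∂ν, y ∈ K := by
    rw [ae_iff]
    exact hν.2
  have hanti := (Nk_strictAntiOn hn).antitoneOn
  have hint : Integrable (fun y : E n => Nk n (Real.sqrt (dist x y ^ 2 + e ^ 2))) ν := by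
    refine G3_integrable hK hν.2 (Continuous.continuousOn ?_)
    simp only [dist_eq_norm]
    exact (G3_cont hn he).comp (g := fun z : E n => Nk n (Real.sqrt (‖z‖ ^ 2 + e ^ 2)))
      (f := fun y : E n => x - y) (by fun_prop)
  have hc : ∀ c : ℝ, ∫ _ : E n, c ∂ν = c := fun c => by
    rw [integral_const, measureReal_def, hν.1]
    simp
  have hs0 : ∀ y : E n, 0 < Real.sqrt (dist x y ^ 2 + e ^ 2) := fun y =>
    Real.sqrt_pos.2 (by positivity)
  constructor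
  · rw [← hc (Nk n (Real.sqrt ((‖x‖ + ρ) ^ 2 + e ^ 2)))]
    refine integral_mono_ae (integrable_const _) hint ?_
    filter_upwards [hae] with y hy
    have h1 : dist x y ≤ ‖x‖ + ρ := by
      have h2 := hKρ hy
      rw [mem_closedBall_zero_iff] at h2
      rw [dist_eq_norm]
      exact (norm_sub_le _ _).trans (by linarith)
    refine hanti (hs0 y) (Real.sqrt_pos.2 (by positivity)) ?_
    refine Real.sqrt_le_sqrt ?_
    have h3 : (0 : ℝ) ≤ dist x y := dist_nonneg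
    nlinarith
  · intro hx
    rw [← hc (Nk n (‖x‖ - ρ))]
    refine integral_mono_ae hint (integrable_const _) ?_
    filter_upwards [hae] with y hy
    have h1 : ‖x‖ - ρ ≤ dist x y := by
      have h2 := hKρ hy
      rw [mem_closedBall_zero_iff] at h2
      rw [dist_eq_norm]
      have h3 := norm_sub_norm_le x y
      linarith
    have h4 : 0 < ‖x‖ - ρ := by linarith
    refine hanti h4 (hs0 y) (h1.trans ?_)
    refine Real.le_sqrt_of_sq_le ?_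
    have := sq_nonneg e
    linarith

end Pool.Agent.Lib.MP_6cd19d_an.A
end

section

/-!
# The choice of the constants in the comparison
-/

set_option autoImplicit false

open MeasureTheory Set Filter Topology Metric
open scoped ENNReal NNReal RealInnerProductSpace

namespace Pool.Agent.Lib.MP_6cd19d_an.A

open Pool.Agent.Lib.MP_6cd19d_an.ND

variable {n : ℕ}

/-- (RA-N2) Proof.  For `n ≥ 3` (then `0 < Nk n 1 < W`): `c = Nk n 1 / W`; `Nk n 1 - c W = 0` and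
`Nk n (r₁+ρ+1) - c Nk n (r₁-ρ) > 0` for large `r₁` because the quotient `Nk n (r₁+ρ+1) / Nk n (r₁-ρ) → 1 > c`; the left side
of the last line tends to `0`.  For `n = 2` (`Nk 2 r = -log r`, `Nk 2 1 = 0 < W`): choose `r₁` with
`log ((r₁+ρ+1)/(r₁-ρ)) < W/4`, then `1/2 < c < 1` with `(1-c) log (r₁-ρ) < W/4`: the second is `> -W/2 > -c W`;
the left side of the last line tends to `-∞` (`log √((r+ρ)²+e²) - log (r-ρ-1) → 0`, `(c-1) log (...) → -∞`). -/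
theorem exists_constants (hn : 2 ≤ n) {ρ W e : ℝ} (hρ : 0 ≤ ρ) (hW : Nk n 1 < W) (he : 0 < e) :
    ∃ c : ℝ, 0 < c ∧ c < 1 ∧ ∃ r₁ : ℝ, ρ + 2 < r₁ ∧
      Nk n 1 - c * W < Nk n (r₁ + ρ + 1) - c * Nk n (r₁ - ρ) ∧
      ∃ r₂ : ℝ, ρ + 2 < r₂ ∧ ∀ r, r₂ ≤ r →
        Nk n (r - ρ - 1) - c * Nk n (Real.sqrt ((r + ρ) ^ 2 + e ^ 2)) <
          Nk n (r₁ + ρ + 1) - c * Nk n (r₁ - ρ) := by
  have hsq : Tendsto (fun r : ℝ => Real.sqrt ((r + ρ) ^ 2 + e ^ 2)) atTop atTop := by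
    refine tendsto_atTop_mono' _ ?_ (tendsto_atTop_add_const_right atTop ρ tendsto_id)
    filter_upwards [eventually_ge_atTop 0] with r hr
    refine Real.le_sqrt_of_sq_le ?_
    simp only [id]
    have := sq_nonneg e
    linarith
  have hsub : Tendsto (fun r : ℝ => r - ρ - 1) atTop atTop := by
    have h1 := tendsto_atTop_add_const_right atTop (-ρ - 1) (tendsto_id (α := ℝ))
    refine h1.congr fun r => ?_
    simp only [id]
    ring
  have hratio : Tendsto (fun r : ℝ => (r - ρ) / (r + ρ + 1)) atTop (𝓝 1) := by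
    have h1 : Tendsto (fun r : ℝ => (2 * ρ + 1) / (r + (ρ + 1))) atTop (𝓝 0) :=
      Tendsto.div_atTop tendsto_const_nhds (tendsto_atTop_add_const_right _ _ tendsto_id)
    have h2 : Tendsto (fun r : ℝ => 1 - (2 * ρ + 1) / (r + (ρ + 1))) atTop (𝓝 (1 - 0)) :=
      tendsto_const_nhds.sub h1
    rw [sub_zero] at h2
    refine h2.congr' ?_
    filter_upwards [eventually_gt_atTop 0] with r hr
    have h3 : r + (ρ + 1) ≠ 0 := by linarith
    have h4 : r + ρ + 1 ≠ 0 := by linarith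
    field_simp
    ring
  rcases Nk_limit hn with ⟨rfl, hlim⟩ | ⟨hn3, hlim, hpos⟩
  · -- the plane
    have hNk : ∀ r : ℝ, Nk 2 r = -Real.log r := fun r => by
      unfold Nk
      rw [if_pos rfl]
    have hW0 : 0 < W := by
      rw [hNk, Real.log_one, neg_zero] at hW
      exact hW
    have h1 : ∀ᶠ r : ℝ in atTop, Real.exp (-(W / 4)) < (r - ρ) / (r + ρ + 1) := by
      refine hratio.eventually (lt_mem_nhds ?_)
      rw [Real.exp_lt_one_iff]
      linarith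
    obtain ⟨r₁, hr1, hr2⟩ := (h1.and (eventually_gt_atTop (ρ + 2))).exists
    have hr3 : 0 < r₁ - ρ := by linarith
    have hr4 : 0 < r₁ + ρ + 1 := by linarith
    have hL : 0 < Real.log (r₁ - ρ) := Real.log_pos (by linarith)
    have hlog : Real.log (r₁ + ρ + 1) < Real.log (r₁ - ρ) + W / 4 := by
      have h2 := Real.log_lt_log (Real.exp_pos _) hr1
      rw [Real.log_exp, Real.log_div hr3.ne' hr4.ne'] at h2
      linarith
    set ℓ := Real.log (r₁ - ρ) with hℓ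
    have hε : ∃ ε : ℝ, 0 < ε ∧ ε < 1 / 2 ∧ ε * ℓ < W / 4 := by
      refine ⟨min (1 / 4) (W / (4 * (ℓ + 1))), by positivity, ?_, ?_⟩
      · exact (min_le_left _ _).trans_lt (by norm_num)
      · calc min (1 / 4) (W / (4 * (ℓ + 1))) * ℓ ≤ W / (4 * (ℓ + 1)) * ℓ := by
              gcongr
              exact min_le_right _ _
          _ < W / 4 := by
              rw [div_mul_eq_mul_div, div_lt_div_iff₀ (by positivity) (by norm_num)]
              nlinarith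
    obtain ⟨ε, hε0, hε1, hε2⟩ := hε
    refine ⟨1 - ε, by linarith, by linarith, r₁, hr2, ?_, ?_⟩
    · rw [hNk, hNk, hNk, Real.log_one]
      have h3 : (1 - ε) * W > W / 2 := by nlinarith
      have h4 : (1 - ε) * ℓ = ℓ - ε * ℓ := by ring
      rw [← hℓ]
      nlinarith
    · set b := Nk 2 (r₁ + ρ + 1) - (1 - ε) * Nk 2 (r₁ - ρ) with hb
      have h5 : Tendsto (fun r : ℝ => (1 - ε) * Real.log 2 + ε * Nk 2 (r - ρ - 1)) atTop atBot := by
        refine tendsto_atBot_add_const_left _ _ ?_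
        exact (hlim.comp hsub).const_mul_atBot hε0
      have h6 := (h5.eventually (eventually_lt_atBot b)).and
        ((eventually_ge_atTop (3 * ρ + e + 3)).and (eventually_gt_atTop (ρ + 2)))
      obtain ⟨r₂, hr₂⟩ := eventually_atTop.1 h6
      refine ⟨max r₂ (ρ + 3), lt_of_lt_of_le (by linarith) (le_max_right _ _), fun r hr => ?_⟩
      obtain ⟨h7, h8, h9⟩ := hr₂ r ((le_max_left _ _).trans hr)
      refine lt_of_le_of_lt ?_ h7
      rw [hNk, hNk]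
      have h10 : Real.sqrt ((r + ρ) ^ 2 + e ^ 2) ≤ 2 * (r - ρ - 1) := by
        refine Real.sqrt_le_iff.2 ⟨by linarith, ?_⟩
        nlinarith
      have h11 : 0 < Real.sqrt ((r + ρ) ^ 2 + e ^ 2) := Real.sqrt_pos.2 (by positivity)
      have h12 := Real.log_le_log h11 h10
      rw [Real.log_mul (by norm_num) (by linarith)] at h12
      have h13 : (1 - ε) * Real.log (Real.sqrt ((r + ρ) ^ 2 + e ^ 2)) ≤
          (1 - ε) * (Real.log 2 + Real.log (r - ρ - 1)) :=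
        mul_le_mul_of_nonneg_left h12 (by linarith)
      linarith
  · -- dimension at least three
    have hn3' : (3 : ℝ) ≤ n := by exact_mod_cast hn3
    have ha : 0 < (n : ℝ) - 2 := by linarith
    have hNk : ∀ r : ℝ, Nk n r = r ^ (-((n : ℝ) - 2)) / ((n : ℝ) - 2) := fun r => by
      unfold Nk
      rw [if_neg (by omega), neg_sub]
    have hN1 : 0 < Nk n 1 := hpos 1 one_pos
    have hW0 : 0 < W := hN1.trans hW
    have hc0 : 0 < Nk n 1 / W := div_pos hN1 hW0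
    have hc1 : Nk n 1 / W < 1 := (div_lt_one hW0).2 hW
    have h1 : ∀ᶠ r : ℝ in atTop, Nk n 1 / W < ((r - ρ) / (r + ρ + 1)) ^ ((n : ℝ) - 2) := by
      have h2 := hratio.rpow_const (p := (n : ℝ) - 2) (Or.inl one_ne_zero)
      rw [Real.one_rpow] at h2
      exact h2.eventually (lt_mem_nhds hc1)
    obtain ⟨r₁, hr1, hr2⟩ := (h1.and (eventually_gt_atTop (ρ + 2))).exists
    have hr3 : 0 < r₁ - ρ := by linarith
    have hr4 : 0 < r₁ + ρ + 1 := by linarith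
    have h3 : Nk n (r₁ + ρ + 1) = ((r₁ - ρ) / (r₁ + ρ + 1)) ^ ((n : ℝ) - 2) * Nk n (r₁ - ρ) := by
      rw [hNk, hNk, Real.div_rpow hr3.le hr4.le, Real.rpow_neg hr4.le, Real.rpow_neg hr3.le]
      have h4 : 0 < (r₁ - ρ) ^ ((n : ℝ) - 2) := Real.rpow_pos_of_pos hr3 _
      have h5 : 0 < (r₁ + ρ + 1) ^ ((n : ℝ) - 2) := Real.rpow_pos_of_pos hr4 _
      field_simp
    have h6 : 0 < Nk n (r₁ + ρ + 1) - Nk n 1 / W * Nk n (r₁ - ρ) := by
      rw [h3]
      have h7 := hpos (r₁ - ρ) hr3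
      nlinarith
    refine ⟨Nk n 1 / W, hc0, hc1, r₁, hr2, ?_, ?_⟩
    · rw [div_mul_cancel₀ _ hW0.ne', sub_self]
      exact h6
    · have h7 : Tendsto (fun r : ℝ => Nk n (r - ρ - 1) -
          Nk n 1 / W * Nk n (Real.sqrt ((r + ρ) ^ 2 + e ^ 2))) atTop
          (𝓝 (0 - Nk n 1 / W * 0)) :=
        (hlim.comp hsub).sub ((hlim.comp hsq).const_mul _)
      rw [mul_zero, sub_zero] at h7
      obtain ⟨r₂, hr₂⟩ := eventually_atTop.1 (h7.eventually (gt_mem_nhds h6))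
      exact ⟨max r₂ (ρ + 3), lt_of_lt_of_le (by linarith) (le_max_right _ _),
        fun r hr => hr₂ r ((le_max_left _ _).trans hr)⟩

end Pool.Agent.Lib.MP_6cd19d_an.A
end
end

section

section

/-!
# Translated and scaled dual measures, the integral inequality
-/

set_option autoImplicit false

open MeasureTheory Set Filter Topology Metric
open scoped ENNReal NNReal RealInnerProductSpace

namespace Pool.Agent.Lib.MP_6cd19d_an.A

open Pool.Agent.Lib.MP_6cd19d_an.ND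

variable {n : ℕ}

private theorem p4_measurable_kernel (s : ℝ) (x : E n) :
    Measurable fun y : E n => (edist x y) ^ (-s) :=
  (measurable_const.edist measurable_id).pow_const _

private theorem p4_edist {b y z : E n} {ρ : ℝ} (hρ : 0 < ρ) :
    edist y (b + ρ • z) = ENNReal.ofReal ρ * edist (ρ⁻¹ • (y - b)) z := by
  rw [edist_dist, edist_dist, ← ENNReal.ofReal_mul hρ.le]
  congr 1
  have h1 : y - (b + ρ • z) = ρ • (ρ⁻¹ • (y - b) - z) := by
    rw [smul_sub, smul_smul, mul_inv_cancel₀ hρ.ne', one_smul]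
    abel
  rw [dist_eq_norm, dist_eq_norm, h1, norm_smul, Real.norm_of_nonneg hρ.le]

/-- (RA-P4a) Translation and scaling: `Λ' = ρ^(2+q) • (map (z ↦ b + ρ z) Λ)`. -/
theorem dual_scaled {q c : ℝ} (hq0 : 0 < q) {Λ : Measure (E n)} {j : ℝ → ℝ}
    (hΛ : DualM n q c Λ j) (b : E n) {ρ : ℝ} (hρ : 0 < ρ) :
    ∃ Λ' : Measure (E n), Λ' univ ≠ ⊤ ∧ Λ' (ball b ρ)ᶜ = 0 ∧
      ∀ y, pot q Λ' y = ENNReal.ofReal (ρ ^ 2 * j (‖y - b‖ / ρ)) := by
  have hcont : Continuous fun z : E n => b + ρ • z := by fun_prop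
  have hmeas : Measurable fun z : E n => b + ρ • z := hcont.measurable
  refine ⟨ENNReal.ofReal (ρ ^ (2 + q)) • Λ.map (fun z : E n => b + ρ • z), ?_, ?_, ?_⟩
  · rw [Measure.smul_apply, Measure.map_apply hmeas MeasurableSet.univ, smul_eq_mul, preimage_univ]
    exact (ENNReal.mul_lt_top ENNReal.ofReal_lt_top hΛ.fin).ne
  · rw [Measure.smul_apply, Measure.map_apply hmeas isOpen_ball.measurableSet.compl]
    have : (fun z : E n => b + ρ • z) ⁻¹' (ball b ρ)ᶜ = (ball (0 : E n) 1)ᶜ := by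
      ext z
      simp only [mem_preimage, mem_compl_iff, mem_ball, dist_eq_norm, add_sub_cancel_left,
        norm_smul, Real.norm_of_nonneg hρ.le, sub_zero]
      rw [mul_lt_iff_lt_one_right hρ]
    rw [this, hΛ.supp, smul_zero]
  · intro y
    unfold pot
    rw [lintegral_smul_measure, lintegral_map (p4_measurable_kernel q y) hmeas]
    have h1 : ∀ z : E n, (edist y (b + ρ • z)) ^ (-q) =
        ENNReal.ofReal (ρ ^ (-q)) * (edist (ρ⁻¹ • (y - b)) z) ^ (-q) := by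
      intro z
      rw [p4_edist hρ, ENNReal.mul_rpow_of_ne_top ENNReal.ofReal_ne_top (edist_ne_top _ _),
        ENNReal.ofReal_rpow_of_pos hρ]
    simp_rw [h1]
    rw [lintegral_const_mul _ (p4_measurable_kernel q _)]
    have h2 : ∫⁻ z, (edist (ρ⁻¹ • (y - b)) z) ^ (-q) ∂Λ =
        ENNReal.ofReal (j (‖y - b‖ / ρ)) := by
      have := hΛ.pot_eq (ρ⁻¹ • (y - b))
      unfold pot at this
      rw [this, norm_smul, Real.norm_of_nonneg (inv_nonneg.2 hρ.le), div_eq_inv_mul]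
    rw [h2, smul_eq_mul, ← ENNReal.ofReal_mul (by positivity), ← ENNReal.ofReal_mul (by positivity)]
    congr 1
    rw [← mul_assoc, ← Real.rpow_add hρ]
    have h3 : (2 : ℝ) + q + -q = 2 := by ring
    rw [h3, Real.rpow_two]

private theorem p4_zero {q : ℝ} (hq0 : 0 < q) {Λ : Measure (E n)} (h : pot q Λ 0 ≠ ⊤) :
    Λ {0} = 0 := by
  by_contra hne
  apply h
  rw [eq_top_iff]
  have h1 : ∫⁻ y in ({0} : Set (E n)), (edist (0 : E n) y) ^ (-q) ∂Λ ≤ pot q Λ 0 :=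
    setLIntegral_le_lintegral _ _
  rw [lintegral_singleton, edist_self, ENNReal.zero_rpow_of_neg (by linarith),
    ENNReal.top_mul hne] at h1
  exact h1

private theorem p4_lhs {q : ℝ} {Λ' : Measure (E n)} {j : ℝ → ℝ} {b : E n} {ρ : ℝ}
    (hpot : ∀ y, pot q Λ' y = ENNReal.ofReal (ρ ^ 2 * j (‖y - b‖ / ρ)))
    (hq0 : 0 < q) (hfin : Λ' univ ≠ ⊤) {μ : Measure (E n)} (hμ : μ univ ≠ ⊤) {x : E n}
    (hx : μ {x} = 0) :
    ∫⁻ ξ, (edist ξ x) ^ (-q) * ENNReal.ofReal (ρ ^ 2 * j (‖inv0 (ξ - x) - b‖ / ρ)) ∂μ =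
      ∫⁻ y, (edist y 0) ^ (-q) * pot q μ (x + inv0 y) ∂Λ' := by
  have h0 : Λ' {0} = 0 := by
    apply p4_zero hq0
    rw [hpot]
    exact ENNReal.ofReal_ne_top
  rw [← kelvin hq0 hμ hfin hx h0]
  refine lintegral_congr fun ξ => ?_
  rw [hpot]

/-- (RA-P4b) The integral inequality.  `Λ' {0} = 0` because `pot q Λ' 0 < ⊤`.  By `kelvin` the left side is
`∫⁻ y, (edist y 0)^(-q) * pot q μ (x + inv0 y) ∂Λ' ≤ κ₀ * pot q Λ' 0`. -/
theorem dual_le {q c : ℝ} (hq0 : 0 < q) {Λ : Measure (E n)} {j : ℝ → ℝ}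
    (hΛ : DualM n q c Λ j) {μ : Measure (E n)} (hμ : μ univ ≠ ⊤) {κ₀ : ℝ≥0∞}
    (hU : ∀ z, pot q μ z ≤ κ₀) {x : E n} (hx : μ {x} = 0) (b : E n) {ρ : ℝ} (hρ : 0 < ρ) :
    ∫⁻ ξ, (edist ξ x) ^ (-q) * ENNReal.ofReal (ρ ^ 2 * j (‖inv0 (ξ - x) - b‖ / ρ)) ∂μ ≤
      κ₀ * ENNReal.ofReal (ρ ^ 2 * j (‖b‖ / ρ)) := by
  obtain ⟨Λ', hfin, -, hpot⟩ := dual_scaled hq0 hΛ b hρ
  rw [p4_lhs hpot hq0 hfin hμ hx]
  calc ∫⁻ y, (edist y 0) ^ (-q) * pot q μ (x + inv0 y) ∂Λ'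
      ≤ ∫⁻ y, κ₀ * (edist 0 y) ^ (-q) ∂Λ' := by
        refine lintegral_mono fun y => ?_
        show (edist y 0) ^ (-q) * pot q μ (x + inv0 y) ≤ κ₀ * (edist 0 y) ^ (-q)
        rw [edist_comm y 0, mul_comm κ₀]
        gcongr
        exact hU _
    _ = κ₀ * pot q Λ' 0 := lintegral_const_mul _ (p4_measurable_kernel q 0)
    _ = κ₀ * ENNReal.ofReal (ρ ^ 2 * j (‖b‖ / ρ)) := by
        rw [hpot, zero_sub, norm_neg]

/-- (RA-P4c) The case of equality: if `pot q μ (x + inv0 y) = κ₀` for all `y ≠ 0` in the open ball `ball b ρ`. -/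
theorem dual_eq {q c : ℝ} (hq0 : 0 < q) {Λ : Measure (E n)} {j : ℝ → ℝ}
    (hΛ : DualM n q c Λ j) {μ : Measure (E n)} (hμ : μ univ ≠ ⊤) {κ₀ : ℝ≥0∞} {x : E n}
    (hx : μ {x} = 0) (b : E n) {ρ : ℝ} (hρ : 0 < ρ)
    (hU : ∀ y ∈ ball b ρ, y ≠ 0 → pot q μ (x + inv0 y) = κ₀) :
    ∫⁻ ξ, (edist ξ x) ^ (-q) * ENNReal.ofReal (ρ ^ 2 * j (‖inv0 (ξ - x) - b‖ / ρ)) ∂μ =
      κ₀ * ENNReal.ofReal (ρ ^ 2 * j (‖b‖ / ρ)) := by
  obtain ⟨Λ', hfin, hsupp, hpot⟩ := dual_scaled hq0 hΛ b hρ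
  have h0 : Λ' {0} = 0 := by
    apply p4_zero hq0
    rw [hpot]
    exact ENNReal.ofReal_ne_top
  rw [p4_lhs hpot hq0 hfin hμ hx]
  have hae : ∀ᵐ y ∂Λ', y ∈ ball b ρ ∧ y ≠ 0 := by
    have h1 : ∀ᵐ y ∂Λ', y ∈ ball b ρ := by
      rw [ae_iff]
      exact hsupp
    have h2 : ∀ᵐ y ∂Λ', y ≠ 0 := by
      rw [ae_iff]
      simpa using h0
    exact h1.and h2
  calc ∫⁻ y, (edist y 0) ^ (-q) * pot q μ (x + inv0 y) ∂Λ'
      = ∫⁻ y, κ₀ * (edist 0 y) ^ (-q) ∂Λ' := by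
        refine lintegral_congr_ae ?_
        filter_upwards [hae] with y hy
        rw [edist_comm y 0, mul_comm κ₀, hU y hy.1 hy.2]
    _ = κ₀ * pot q Λ' 0 := lintegral_const_mul _ (p4_measurable_kernel q 0)
    _ = κ₀ * ENNReal.ofReal (ρ ^ 2 * j (‖b‖ / ρ)) := by
        rw [hpot, zero_sub, norm_neg]

end Pool.Agent.Lib.MP_6cd19d_an.A
end

section

/-!
# The comparison principle
-/

set_option autoImplicit false

open MeasureTheory Set Filter Topology Metric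
open scoped ENNReal NNReal RealInnerProductSpace

namespace Pool.Agent.Lib.MP_6cd19d_an.A

open Pool.Agent.Lib.MP_6cd19d_an.ND

variable {n : ℕ}

/-- (RA-C3) The abstract comparison.

Proof.  Suppose `Nk n 1 < W`; take `c, r₁, r₂` from `exists_constants`.  Let `f x = if x ∈ K then Nk n 1 - c w x else φ x - c w x`.
`f` is upper semicontinuous (`φ ≤ Nk n 1` off the closed set `K`, `φ` continuous on the open set `Kᶜ`, `w` continuous), so it attains its maximum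
on the closed ball of radius `max r₁ r₂ + 1` at some `x₀` (`UpperSemicontinuousOn.exists_isMaxOn` or sequences).  With
`x₁ = r₁ • bv 0` (off `K`): `f x₁ ≥ Nk n (r₁+ρ+1) - c Nk n (r₁-ρ) > Nk n 1 - c W ≥ f` on `K`, and `f x < f x₁` for `‖x‖ ≥ r₂`.  So the maximum
of `f` over the ball is a global maximum, `x₀ ∉ K`, and near `x₀` `f = φ - c w`: `ND.hasD2_add`, `ND.hasD2_smul` (with `-c`), `hasD2_congr`,
`ND.hasD2_localMax`: `b i - c b' i ≤ 0` for every `i`, so `0 ≤ ∑ b i ≤ c ∑ b' i < 0`: contradiction. -/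
theorem comparison (hn : 2 ≤ n) {e ρ W : ℝ} (he : 0 < e) {K : Set (E n)} (hK : IsCompact K)
    (hρ : 0 ≤ ρ) (hKρ : K ⊆ closedBall 0 ρ) {φ w : E n → ℝ}
    (hφc : ∀ x, x ∉ K → ContinuousAt φ x) (hφ1 : ∀ x, x ∉ K → φ x ≤ Nk n 1)
    (hφlow : ∀ x, x ∉ K → Nk n (‖x‖ + ρ + 1) ≤ φ x)
    (hφup : ∀ x, x ∉ K → ρ + 2 < ‖x‖ → φ x ≤ Nk n (‖x‖ - ρ - 1))
    (hφd : ∀ x, x ∉ K → ∃ a b : Fin n → ℝ, HasD2 φ x a b ∧ 0 ≤ ∑ i, b i)
    (hwc : Continuous w) (hwW : ∀ x ∈ K, W ≤ w x)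
    (hwlow : ∀ x, Nk n (Real.sqrt ((‖x‖ + ρ) ^ 2 + e ^ 2)) ≤ w x)
    (hwup : ∀ x, ρ < ‖x‖ → w x ≤ Nk n (‖x‖ - ρ))
    (hwd : ∀ x, ∃ a b : Fin n → ℝ, HasD2 w x a b ∧ ∑ i, b i < 0) :
    W ≤ Nk n 1 := by
  classical
  by_contra hcon
  push Not at hcon
  obtain ⟨c, hc0, hc1, r₁, hr₁, h1, r₂, hr₂, h2⟩ := exists_constants hn hρ hcon he
  set m : ℝ := Nk n (r₁ + ρ + 1) - c * Nk n (r₁ - ρ) with hm
  set f : E n → ℝ := fun x => if x ∈ K then Nk n 1 - c * w x else φ x - c * w x with hf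
  have hfK : ∀ x ∈ K, f x = Nk n 1 - c * w x := fun x hx => if_pos hx
  have hfK' : ∀ x, x ∉ K → f x = φ x - c * w x := fun x hx => if_neg hx
  have hnK : ∀ x, ρ < ‖x‖ → x ∉ K := by
    intro x hx hxK
    have := hKρ hxK
    rw [mem_closedBall, dist_zero_right] at this
    linarith
  -- the point of comparison
  have hn0 : 0 < n := by omega
  set x₁ : E n := r₁ • (bv ⟨0, hn0⟩ : E n) with hx₁
  have hnx₁ : ‖x₁‖ = r₁ := by
    rw [hx₁, norm_smul, norm_bv, mul_one, Real.norm_of_nonneg (by linarith)]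
  have hx₁K : x₁ ∉ K := hnK _ (by rw [hnx₁]; linarith)
  have hfx₁ : m ≤ f x₁ := by
    rw [hfK' _ hx₁K]
    have a1 := hφlow x₁ hx₁K
    have a2 := hwup x₁ (by rw [hnx₁]; linarith)
    rw [hnx₁] at a1 a2
    have a3 := mul_le_mul_of_nonneg_left a2 hc0.le
    linarith
  have hfin : ∀ x ∈ K, f x < m := by
    intro x hx
    rw [hfK _ hx]
    have a3 := mul_le_mul_of_nonneg_left (hwW x hx) hc0.le
    linarith
  have hfout : ∀ x, r₂ ≤ ‖x‖ → f x < m := by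
    intro x hx
    have hxK : x ∉ K := hnK _ (by linarith)
    rw [hfK' _ hxK]
    have a1 := hφup x hxK (by linarith)
    have a2 := mul_le_mul_of_nonneg_left (hwlow x) hc0.le
    have a3 := h2 ‖x‖ hx
    linarith
  -- semicontinuity
  have husc : UpperSemicontinuousOn f (closedBall 0 (max r₁ r₂)) := by
    have h3 : UpperSemicontinuous f := by
      intro x y hxy
      by_cases hx : x ∈ K
      · have hg : Continuous (fun z => Nk n 1 - c * w z) := by fun_prop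
        have hle : ∀ z, f z ≤ Nk n 1 - c * w z := by
          intro z
          by_cases hz : z ∈ K
          · exact (hfK z hz).le
          · rw [hfK' z hz]
            linarith [hφ1 z hz]
        rw [hfK x hx] at hxy
        filter_upwards [hg.continuousAt.eventually_lt_const hxy] with z hz
        exact lt_of_le_of_lt (hle z) hz
      · have hev : ∀ᶠ z in 𝓝 x, z ∉ K := hK.isClosed.isOpen_compl.mem_nhds hx
        have hg : ContinuousAt (fun z => φ z - c * w z) x :=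
          (hφc x hx).sub (continuousAt_const.mul hwc.continuousAt)
        rw [hfK' x hx] at hxy
        filter_upwards [hg.eventually_lt_const hxy, hev] with z hz hzK
        rw [hfK' z hzK]
        exact hz
    exact h3.upperSemicontinuousOn _
  have hne : (closedBall (0 : E n) (max r₁ r₂)).Nonempty := ⟨x₁, by
    rw [mem_closedBall, dist_zero_right, hnx₁]
    exact le_max_left _ _⟩
  obtain ⟨x₀, hx₀, hmax⟩ := husc.exists_isMaxOn hne (isCompact_closedBall _ _)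
  have hx₁mem : x₁ ∈ closedBall (0 : E n) (max r₁ r₂) := by
    rw [mem_closedBall, dist_zero_right, hnx₁]
    exact le_max_left _ _
  have hmx₀ : m ≤ f x₀ := hfx₁.trans (hmax hx₁mem)
  have hglob : ∀ x, f x ≤ f x₀ := by
    intro x
    by_cases hx : x ∈ closedBall (0 : E n) (max r₁ r₂)
    · exact hmax hx
    · rw [mem_closedBall, dist_zero_right] at hx
      push Not at hx
      exact ((hfout x (le_of_lt (lt_of_le_of_lt (le_max_right _ _) hx))).le).trans hmx₀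
  have hx₀K : x₀ ∉ K := fun h => absurd (hfin x₀ h) (not_lt.2 hmx₀)
  obtain ⟨a, b, hab, hb⟩ := hφd x₀ hx₀K
  obtain ⟨a', b', hab', hb'⟩ := hwd x₀
  have hD := hasD2_add hab (hasD2_smul (-c) hab')
  have hloc : IsLocalMax (fun y => φ y + -c * w y) x₀ := by
    have hev : ∀ᶠ z in 𝓝 x₀, z ∉ K := hK.isClosed.isOpen_compl.mem_nhds hx₀K
    filter_upwards [hev] with z hz
    have := hglob z
    rw [hfK' z hz, hfK' x₀ hx₀K] at this
    linarith
  have hfinal := (hasD2_localMax hD hloc).2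
  have hsum : ∑ i, (b i + -c * b' i) ≤ 0 := Finset.sum_nonpos fun i _ => hfinal i
  rw [Finset.sum_add_distrib, ← Finset.mul_sum] at hsum
  nlinarith

end Pool.Agent.Lib.MP_6cd19d_an.A
end

section

/-!
# The integral inequality in real form
-/

set_option autoImplicit false

open MeasureTheory Set Filter Topology Metric
open scoped ENNReal NNReal RealInnerProductSpace

namespace Pool.Agent.Lib.MP_6cd19d_an.A

open Pool.Agent.Lib.MP_6cd19d_an.ND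

variable {n : ℕ}

private theorem p5_edist {q : ℝ} {x ξ : E n} (h : ξ ≠ x) :
    (edist ξ x) ^ (-q) = ENNReal.ofReal (‖x - ξ‖ ^ (-q)) := by
  have h0 : 0 < ‖x - ξ‖ := norm_pos_iff.2 (sub_ne_zero.2 h.symm)
  rw [edist_comm, edist_dist, dist_eq_norm, ENNReal.ofReal_rpow_of_pos h0]

private theorem p5_point {q c : ℝ} {x ξ : E n} (h : ξ ≠ x) (b : E n) (ρ : ℝ) :
    ‖x - ξ‖ ^ (-q) * (ρ ^ 2 - c * ‖inv0 (ξ - x) - b‖ ^ 2) =
      ρ ^ 2 * ‖x - ξ‖ ^ (-q) - c * (‖x - ξ‖ ^ (-q - 2) - 2 * (‖x - ξ‖ ^ (-q - 2) * ⟪b, ξ - x⟫) +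
        ‖b‖ ^ 2 * ‖x - ξ‖ ^ (-q)) := by
  have h0 : 0 < ‖x - ξ‖ := norm_pos_iff.2 (sub_ne_zero.2 h.symm)
  have h1 : ‖inv0 (ξ - x) - b‖ ^ 2 =
      (‖x - ξ‖ ^ 2)⁻¹ - 2 * ((‖x - ξ‖ ^ 2)⁻¹ * ⟪b, ξ - x⟫) + ‖b‖ ^ 2 := by
    unfold inv0
    rw [norm_sub_sq_real, norm_smul, norm_sub_rev ξ x, inner_smul_left, real_inner_comm,
      norm_inv, norm_pow, norm_norm]
    simp only [conj_trivial]
    field_simp
  have h2 : ‖x - ξ‖ ^ (-q - 2) = ‖x - ξ‖ ^ (-q) * (‖x - ξ‖ ^ 2)⁻¹ := by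
    rw [Real.rpow_sub h0, div_eq_mul_inv]
    congr 2
    exact Real.rpow_two _
  rw [h1, h2]
  ring

/-- (RA-P5a) The integral of the quadratic function: for `x ∉ K`, with `ξ* = inv0 (ξ - x)`,
`∫ |ξ-x|^(-q) (ρ² - c |ξ*-b|²) dμ = ρ² t - c (S - 2 ⟪b, v⟫ + |b|² t)`; here
`|ξ-x|^(-q) |ξ*-b|² = |ξ-x|^(-q-2) - 2 |ξ-x|^(-q-2) ⟪ξ-x, b⟫ + |b|² |ξ-x|^(-q)`. -/
theorem integral_quad {q c : ℝ} {K : Set (E n)} (hK : IsCompact K) {μ : Measure (E n)}
    (hfin : μ univ ≠ ⊤) (hμ : μ Kᶜ = 0) {x : E n} (hx : x ∉ K) (b : E n) (ρ : ℝ) :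
    Integrable (fun ξ => ‖x - ξ‖ ^ (-q) * (ρ ^ 2 - c * ‖inv0 (ξ - x) - b‖ ^ 2)) μ ∧
    ∫ ξ, ‖x - ξ‖ ^ (-q) * (ρ ^ 2 - c * ‖inv0 (ξ - x) - b‖ ^ 2) ∂μ =
      ρ ^ 2 * rU q μ x - c * (rS q μ x - 2 * ⟪b, vV q μ x⟫ + ‖b‖ ^ 2 * rU q μ x) := by
  have hne : ∀ᵐ ξ ∂μ, ξ ≠ x := by
    have h1 : ∀ᵐ ξ ∂μ, ξ ∈ K := hμ
    filter_upwards [h1] with ξ hξ h2
    exact hx (h2 ▸ hξ)
  have i0 := (integrable_rpow (p := -q) hK hfin hμ hx).1
  have i2 := (integrable_rpow (p := -q - 2) hK hfin hμ hx).1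
  have i3 := ((integrable_rpow (p := -q - 2) hK hfin hμ hx).2 b).1
  have i4 := ((integrable_rpow (p := -q - 2) hK hfin hμ hx).2 b).2
  have hae : (fun ξ => ‖x - ξ‖ ^ (-q) * (ρ ^ 2 - c * ‖inv0 (ξ - x) - b‖ ^ 2)) =ᵐ[μ]
      fun ξ => ρ ^ 2 * ‖x - ξ‖ ^ (-q) - c * (‖x - ξ‖ ^ (-q - 2) -
        2 * (‖x - ξ‖ ^ (-q - 2) * ⟪b, ξ - x⟫) + ‖b‖ ^ 2 * ‖x - ξ‖ ^ (-q)) := by
    filter_upwards [hne] with ξ hξ
    exact p5_point hξ b ρ
  have j1 : Integrable (fun ξ => ρ ^ 2 * ‖x - ξ‖ ^ (-q)) μ := i0.const_mul _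
  have j2 : Integrable (fun ξ => 2 * (‖x - ξ‖ ^ (-q - 2) * ⟪b, ξ - x⟫)) μ := i3.const_mul _
  have j3 : Integrable (fun ξ => ‖b‖ ^ 2 * ‖x - ξ‖ ^ (-q)) μ := i0.const_mul _
  have j4 : Integrable (fun ξ => ‖x - ξ‖ ^ (-q - 2) -
      2 * (‖x - ξ‖ ^ (-q - 2) * ⟪b, ξ - x⟫)) μ := i2.sub j2
  have j5 : Integrable (fun ξ => ‖x - ξ‖ ^ (-q - 2) -
      2 * (‖x - ξ‖ ^ (-q - 2) * ⟪b, ξ - x⟫) + ‖b‖ ^ 2 * ‖x - ξ‖ ^ (-q)) μ := j4.add j3
  have j6 : Integrable (fun ξ => c * (‖x - ξ‖ ^ (-q - 2) -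
      2 * (‖x - ξ‖ ^ (-q - 2) * ⟪b, ξ - x⟫) + ‖b‖ ^ 2 * ‖x - ξ‖ ^ (-q))) μ := j5.const_mul _
  refine ⟨(j1.sub j6).congr hae.symm, ?_⟩
  rw [integral_congr_ae hae, integral_sub j1 j6, integral_const_mul, integral_const_mul,
    integral_add j4 j3, integral_sub i2 j2, integral_const_mul, integral_const_mul]
  have e1 : ∫ ξ, ‖x - ξ‖ ^ (-q - 2) * ⟪b, ξ - x⟫ ∂μ = ⟪b, vV q μ x⟫ := by
    unfold vV
    rw [← integral_inner i4]
    refine integral_congr_ae (Eventually.of_forall fun ξ => ?_)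
    simp only [inner_smul_right]
  rw [e1]
  rfl

/-- (RA-P5b) Inequality (3.3).  From `dual_le`: the integrand there is at least the `ofReal` of the quadratic one
(`j_ge`, `ρ² j(s/ρ) ≥ ρ² - c s²`), and `ENNReal.ofReal (∫ f) ≤ ∫⁻ ofReal f` for integrable `f`
(`ofReal_integral_...` applied to the positive part). -/
theorem quad_le {q c : ℝ} (hq0 : 0 < q) {Λ : Measure (E n)} {j : ℝ → ℝ} (hΛ : DualM n q c Λ j)
    {K : Set (E n)} (hK : IsCompact K) {μ : Measure (E n)} (hfin : μ univ ≠ ⊤) (hμ : μ Kᶜ = 0)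
    {κ₀ : ℝ} (hκ₀ : 0 ≤ κ₀) (hU : ∀ z, pot q μ z ≤ ENNReal.ofReal κ₀) {x : E n} (hx : x ∉ K)
    (b : E n) {ρ : ℝ} (hρ : 0 < ρ) :
    ρ ^ 2 * rU q μ x - c * (rS q μ x - 2 * ⟪b, vV q μ x⟫ + ‖b‖ ^ 2 * rU q μ x) ≤
      κ₀ * (ρ ^ 2 * j (‖b‖ / ρ)) := by
  obtain ⟨hint, hval⟩ := integral_quad (q := q) (c := c) hK hfin hμ hx b ρ
  rw [← hval]
  have hne : ∀ᵐ ξ ∂μ, ξ ≠ x := by
    have h1 : ∀ᵐ ξ ∂μ, ξ ∈ K := hμ
    filter_upwards [h1] with ξ hξ h2
    exact hx (h2 ▸ hξ)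
  have hx0 : μ {x} = 0 := measure_mono_null (by
    intro z hz
    rw [mem_singleton_iff] at hz
    rw [hz]
    exact hx) hμ
  have h1 := dual_le hq0 hΛ hfin hU hx0 b hρ
  have h2 : ∫⁻ ξ, ENNReal.ofReal (‖x - ξ‖ ^ (-q) * (ρ ^ 2 - c * ‖inv0 (ξ - x) - b‖ ^ 2)) ∂μ ≤
      ENNReal.ofReal κ₀ * ENNReal.ofReal (ρ ^ 2 * j (‖b‖ / ρ)) := by
    refine le_trans (lintegral_mono_ae ?_) h1
    filter_upwards [hne] with ξ hξ
    rw [p5_edist hξ, ← ENNReal.ofReal_mul (Real.rpow_nonneg (norm_nonneg _) _)]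
    refine ENNReal.ofReal_le_ofReal ?_
    refine mul_le_mul_of_nonneg_left ?_ (Real.rpow_nonneg (norm_nonneg _) _)
    have h3 := hΛ.j_ge (‖inv0 (ξ - x) - b‖ / ρ) (by positivity)
    have h4 : ρ ^ 2 * (1 - c * (‖inv0 (ξ - x) - b‖ / ρ) ^ 2) =
        ρ ^ 2 - c * ‖inv0 (ξ - x) - b‖ ^ 2 := by
      field_simp
    rw [← h4]
    exact mul_le_mul_of_nonneg_left h3 (by positivity)
  have hj := hΛ.j_nonneg (‖b‖ / ρ) (by positivity)
  rw [← ENNReal.ofReal_mul hκ₀] at h2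
  rw [integral_eq_lintegral_pos_part_sub_lintegral_neg_part hint]
  have h5 := ENNReal.toReal_mono ENNReal.ofReal_ne_top h2
  rw [ENNReal.toReal_ofReal (by positivity)] at h5
  have h6 : 0 ≤ (∫⁻ ξ, ENNReal.ofReal
      (-(‖x - ξ‖ ^ (-q) * (ρ ^ 2 - c * ‖inv0 (ξ - x) - b‖ ^ 2))) ∂μ).toReal :=
    ENNReal.toReal_nonneg
  linarith

/-- (RA-P5c) Equality (3.4) for the ball: `x = ℓ e`, `b = -(ℓ/(ℓ²-1)) e`, `ρ = 1/(ℓ²-1)`, so `‖b‖/ρ = ℓ`.
From `dual_eq` (`inv0_ball`, the potential of `μ` is `κ` on the ball) and `inv0_closedBall`: for `ξ` in the closed ball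
`‖ξ*-b‖/ρ ≤ 1`, where `j s = 1 - c s²`, so the integrand is equal to the quadratic one. -/
theorem quad_eq {q c : ℝ} (hq0 : 0 < q) {Λ : Measure (E n)} {j : ℝ → ℝ} (hΛ : DualM n q c Λ j)
    {μ : Measure (E n)} {u : ℝ → ℝ} (hB : BallM n q μ u) {e : E n} (he : ‖e‖ = 1) {ℓ : ℝ}
    (hℓ : 1 < ℓ) :
    (1 / (ℓ ^ 2 - 1)) ^ 2 * rU q μ (ℓ • e) - c * (rS q μ (ℓ • e) -
        2 * ⟪-(ℓ / (ℓ ^ 2 - 1)) • e, vV q μ (ℓ • e)⟫ +
        (ℓ / (ℓ ^ 2 - 1)) ^ 2 * rU q μ (ℓ • e)) =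
      kap n q * ((1 / (ℓ ^ 2 - 1)) ^ 2 * j ℓ) := by
  have hl : 0 < ℓ ^ 2 - 1 := by nlinarith
  set b : E n := -(ℓ / (ℓ ^ 2 - 1)) • e with hb
  set ρ : ℝ := 1 / (ℓ ^ 2 - 1) with hρ'
  have hρ : 0 < ρ := by positivity
  have hnb : ‖b‖ = ℓ / (ℓ ^ 2 - 1) := by
    rw [hb, norm_smul, he, mul_one, norm_neg, Real.norm_of_nonneg (by positivity)]
  have hratio : ‖b‖ / ρ = ℓ := by
    rw [hnb, hρ']
    field_simp
  have hx : ℓ • e ∉ BB n := by
    rw [mem_closedBall, dist_zero_right, norm_smul, he, mul_one, Real.norm_of_nonneg (by linarith)]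
    linarith
  have hfin : μ univ ≠ ⊤ := by
    rw [hB.prob]
    exact ENNReal.one_ne_top
  have hKc : IsCompact (BB n) := isCompact_closedBall _ _
  obtain ⟨hint, hval⟩ := integral_quad (q := q) (c := c) hKc hfin hB.supp hx b ρ
  rw [← hnb, ← hval]
  have hae : ∀ᵐ ξ ∂μ, ξ ∈ BB n := hB.supp
  have hx0 : μ {ℓ • e} = 0 := measure_mono_null (by
    intro z hz
    rw [mem_singleton_iff] at hz
    rw [hz]
    exact hx) hB.supp
  have hκ : 0 ≤ kap n q := ENNReal.toReal_nonneg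
  have h1 := dual_eq (κ₀ := ENNReal.ofReal (kap n q)) hq0 hΛ hfin hx0 b hρ (by
    intro y hy _
    obtain ⟨-, h2⟩ := inv0_ball he hℓ hy
    rw [mem_ball, dist_zero_right] at h2
    rw [hB.pot_eq, hB.u_in _ ⟨norm_nonneg _, h2.le⟩])
  rw [hratio, ← ENNReal.ofReal_mul hκ] at h1
  have hpt : ∀ ξ ∈ BB n, 0 ≤ ‖ℓ • e - ξ‖ ^ (-q) * (ρ ^ 2 - c * ‖inv0 (ξ - ℓ • e) - b‖ ^ 2) ∧
      (edist ξ (ℓ • e)) ^ (-q) * ENNReal.ofReal (ρ ^ 2 * j (‖inv0 (ξ - ℓ • e) - b‖ / ρ)) =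
        ENNReal.ofReal (‖ℓ • e - ξ‖ ^ (-q) * (ρ ^ 2 - c * ‖inv0 (ξ - ℓ • e) - b‖ ^ 2)) := by
    intro ξ hξ
    have hne : ξ ≠ ℓ • e := fun h => hx (h ▸ hξ)
    have h2 := inv0_closedBall he hℓ hξ
    rw [mem_closedBall, dist_eq_norm, ← hb, ← hρ'] at h2
    have h3 : ‖inv0 (ξ - ℓ • e) - b‖ / ρ ∈ Icc (0 : ℝ) 1 :=
      ⟨by positivity, by rw [div_le_one hρ]; exact h2⟩
    have h4 : ρ ^ 2 * j (‖inv0 (ξ - ℓ • e) - b‖ / ρ) =
        ρ ^ 2 - c * ‖inv0 (ξ - ℓ • e) - b‖ ^ 2 := by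
      rw [hΛ.j_in _ h3]
      field_simp
    have h5 : 0 ≤ ρ ^ 2 - c * ‖inv0 (ξ - ℓ • e) - b‖ ^ 2 := by
      rw [← h4]
      exact mul_nonneg (by positivity) (hΛ.j_nonneg _ h3.1)
    refine ⟨mul_nonneg (Real.rpow_nonneg (norm_nonneg _) _) h5, ?_⟩
    rw [h4, p5_edist hne, ← ENNReal.ofReal_mul (Real.rpow_nonneg (norm_nonneg _) _)]
  have h6 : ∫⁻ ξ, (edist ξ (ℓ • e)) ^ (-q) *
      ENNReal.ofReal (ρ ^ 2 * j (‖inv0 (ξ - ℓ • e) - b‖ / ρ)) ∂μ =
      ENNReal.ofReal (∫ ξ, ‖ℓ • e - ξ‖ ^ (-q) *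
        (ρ ^ 2 - c * ‖inv0 (ξ - ℓ • e) - b‖ ^ 2) ∂μ) := by
    rw [ofReal_integral_eq_lintegral_ofReal hint (by
      filter_upwards [hae] with ξ hξ
      exact (hpt ξ hξ).1)]
    refine lintegral_congr_ae ?_
    filter_upwards [hae] with ξ hξ
    exact (hpt ξ hξ).2
  rw [h6] at h1
  have h7 : 0 ≤ ∫ ξ, ‖ℓ • e - ξ‖ ^ (-q) *
        (ρ ^ 2 - c * ‖inv0 (ξ - ℓ • e) - b‖ ^ 2) ∂μ := by
    refine integral_nonneg_of_ae ?_
    filter_upwards [hae] with ξ hξ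
    exact (hpt ξ hξ).1
  have h8 : 0 ≤ kap n q * (ρ ^ 2 * j ℓ) :=
    mul_nonneg hκ (mul_nonneg (by positivity) (hΛ.j_nonneg _ (by linarith)))
  exact (ENNReal.ofReal_eq_ofReal_iff h7 h8).1 h1

end Pool.Agent.Lib.MP_6cd19d_an.A
end

section

/-!
# The function F = N ∘ u⁻¹
-/

set_option autoImplicit false

open MeasureTheory Set Filter Topology Metric
open scoped ENNReal NNReal RealInnerProductSpace

namespace Pool.Agent.Lib.MP_6cd19d_an.A

open Pool.Agent.Lib.MP_6cd19d_an.ND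

variable {n : ℕ}

/-- (RA-U3) The function `F` on `(0, κ)` with `F (u ℓ) = Nk n ℓ`.

Proof.  `L` = inverse of `u` on `(0,κ)` (`u_surj`, `u_strictAnti`); `L` is continuous (strictly antitone and surjective onto the open
half line `(1,∞)`), so `HasDerivAt L (1 / u1 (L t)) t` (`HasDerivAt.of_local_left_inverse`).  `F = Nk n ∘ L`,
`F1 t = -(L t)^(1-n) / u1 (L t) > 0`, and `F1` is differentiable with, at `t = u ℓ`,
`F2 = [ (n-1) ℓ^(-n) u1 + ℓ^(1-n) u2 ] / u1^3 = ℓ^(1-n) (u2 + (n-1) u1/ℓ) / u1^3`, so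
`F2 * u1^2 = - F1 * (u2 + (n-1) u1/ℓ) = -F1 q (q+2-n) rS`, and `q^2 ‖vV‖^2 = u1^2` (`u_deriv`, `norm_bv`). -/
theorem exists_F (hn : 2 ≤ n) {q : ℝ} (hq0 : 0 < q) {μ : Measure (E n)}
    {u : ℝ → ℝ} (hB : BallM n q μ u) (i₀ : Fin n) :
    ∃ F F1 F2 : ℝ → ℝ, (∀ ℓ, 1 < ℓ → F (u ℓ) = Nk n ℓ) ∧
      (∀ t ∈ Ioo 0 (kap n q), HasDerivAt F (F1 t) t ∧ HasDerivAt F1 (F2 t) t ∧ 0 < F1 t) ∧
      ∀ ℓ, 1 < ℓ → F2 (u ℓ) * (q ^ 2 * ‖vV q μ (ℓ • (bv i₀ : E n))‖ ^ 2) +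
        F1 (u ℓ) * (q * (q + 2 - n) * rS q μ (ℓ • (bv i₀ : E n))) = 0 := by
  classical
  have hn1 : 1 ≤ n := by omega
  obtain ⟨u1, u2, hu⟩ := u_deriv hq0 hB i₀
  obtain ⟨hanti, hlt⟩ := u_strictAnti hn1 hq0 hB
  have hex : ∀ t : ℝ, ∃ ℓ : ℝ, (0 < t ∧ t < kap n q) → (1 < ℓ ∧ u ℓ = t) := by
    intro t
    by_cases ht : 0 < t ∧ t < kap n q
    · obtain ⟨ℓ, h1, h2⟩ := u_surj hn1 hq0 hB ht.1 ht.2
      exact ⟨ℓ, fun _ => ⟨h1, h2⟩⟩
    · exact ⟨0, fun h => absurd h ht⟩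
  choose L hL using hex
  have hL1 : ∀ t ∈ Ioo 0 (kap n q), 1 < L t ∧ u (L t) = t := fun t ht => hL t ⟨ht.1, ht.2⟩
  have hum : ∀ ℓ : ℝ, 1 < ℓ → u ℓ ∈ Ioo 0 (kap n q) := fun ℓ hℓ =>
    ⟨hB.u_pos ℓ (by linarith), hlt ℓ hℓ⟩
  have hLu : ∀ ℓ : ℝ, 1 < ℓ → L (u ℓ) = ℓ := by
    intro ℓ hℓ
    obtain ⟨h1, h2⟩ := hL1 _ (hum ℓ hℓ)
    exact hanti.injOn h1 hℓ h2
  -- continuity of `L`
  have hLc : ∀ t ∈ Ioo 0 (kap n q), ContinuousAt L t := by
    intro t ht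
    have hmono : MonotoneOn (fun s => -L s) (Ioo 0 (kap n q)) := by
      intro a ha b hb hab
      simp only [neg_le_neg_iff]
      by_contra hcon
      push Not at hcon
      have h3 := hanti (hL1 a ha).1 (hL1 b hb).1 hcon
      rw [(hL1 a ha).2, (hL1 b hb).2] at h3
      linarith
    have himg : (fun s => -L s) '' (Ioo 0 (kap n q)) ∈ 𝓝 (-L t) := by
      have h4 : Iio (-1 : ℝ) ⊆ (fun s => -L s) '' (Ioo 0 (kap n q)) := by
        intro y hy
        have hy1 : 1 < -y := by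
          have : y < -1 := hy
          linarith
        refine ⟨u (-y), hum _ hy1, ?_⟩
        simp only [hLu _ hy1, neg_neg]
      refine mem_of_superset (Iio_mem_nhds ?_) h4
      have := (hL1 t ht).1
      linarith
    have h5 : ContinuousAt (fun s => -L s) t :=
      continuousAt_of_monotoneOn_of_image_mem_nhds hmono (Ioo_mem_nhds ht.1 ht.2) himg
    have h6 : ContinuousAt (fun s => - -L s) t := h5.neg
    simp only [neg_neg] at h6
    exact h6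
  have hLd : ∀ t ∈ Ioo 0 (kap n q), HasDerivAt L (u1 (L t))⁻¹ t := by
    intro t ht
    have h1 := hu (L t) (hL1 t ht).1
    refine HasDerivAt.of_local_left_inverse (hLc t ht) h1.1 h1.2.2.1.ne ?_
    filter_upwards [Ioo_mem_nhds ht.1 ht.2] with s hs
    exact (hL1 s hs).2
  refine ⟨fun t => Nk n (L t), fun t => -(L t) ^ (1 - (n : ℝ)) * (u1 (L t))⁻¹,
    fun t => (-((1 - (n : ℝ)) * (L t) ^ (1 - (n : ℝ) - 1)) * (u1 (L t))⁻¹ +
      -(L t) ^ (1 - (n : ℝ)) * (-(u2 (L t)) / (u1 (L t)) ^ 2)) * (u1 (L t))⁻¹, ?_, ?_, ?_⟩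
  · intro ℓ hℓ
    simp only [hLu ℓ hℓ]
  · intro t ht
    obtain ⟨hl, hul⟩ := hL1 t ht
    have hl0 : 0 < L t := by linarith
    have h1 := hu (L t) hl
    refine ⟨?_, ?_, ?_⟩
    · exact (hasDerivAt_Nk hn hl0).comp t (hLd t ht)
    · have hG : HasDerivAt (fun ℓ : ℝ => -ℓ ^ (1 - (n : ℝ)) * (u1 ℓ)⁻¹)
          (-((1 - (n : ℝ)) * (L t) ^ (1 - (n : ℝ) - 1)) * (u1 (L t))⁻¹ +
      -(L t) ^ (1 - (n : ℝ)) * (-(u2 (L t)) / (u1 (L t)) ^ 2)) (L t) := by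
        have h2 : HasDerivAt (fun ℓ : ℝ => -ℓ ^ (1 - (n : ℝ)))
            (-((1 - (n : ℝ)) * (L t) ^ (1 - (n : ℝ) - 1))) (L t) :=
          (Real.hasDerivAt_rpow_const (Or.inl hl0.ne')).neg
        have h3 : HasDerivAt (fun ℓ : ℝ => (u1 ℓ)⁻¹) (-(u2 (L t)) / (u1 (L t)) ^ 2) (L t) :=
          h1.2.1.inv h1.2.2.1.ne
        exact h2.mul h3
      exact hG.comp t (hLd t ht)
    · have h2 : 0 < (L t) ^ (1 - (n : ℝ)) := Real.rpow_pos_of_pos hl0 _
      have h3 : (u1 (L t))⁻¹ < 0 := inv_lt_zero.2 h1.2.2.1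
      nlinarith
  · intro ℓ hℓ
    have hl0 : 0 < ℓ := by linarith
    obtain ⟨-, -, hneg, hv, hS⟩ := hu ℓ hℓ
    simp only [hLu ℓ hℓ]
    rw [← hS, hv, norm_smul, norm_bv, mul_one, Real.norm_eq_abs, sq_abs]
    have h1 : ℓ ^ (1 - (n : ℝ) - 1) = ℓ ^ (1 - (n : ℝ)) / ℓ := Real.rpow_sub_one hl0.ne' _
    rw [h1]
    have hu0 : u1 ℓ ≠ 0 := hneg.ne
    field_simp
    ring

end Pool.Agent.Lib.MP_6cd19d_an.A
end

section

/-!
# The equilibrium measures of the smooth kernels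
-/

set_option autoImplicit false

open MeasureTheory Set Filter Topology Metric
open scoped ENNReal NNReal RealInnerProductSpace

namespace Pool.Agent.Lib.MP_6cd19d_an.A

open Pool.Agent.Lib.MP_6cd19d_an.ND

variable {n : ℕ}

/-- (RA-C2) For every `e > 0` the smooth kernel has a minimiser `ν` on `K` whose potential is at least the minimal
energy at every point of `K`.

Proof.  `κ x y = (c + Nk n (√(dist² + e²))).toNNReal` is bounded, continuous (`nke_props`), symmetric, and `(κ x y : ℝ≥0∞) = nke n c e x y`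
definitionally; `exists_min`, `variation_point`: `kIn ≤ kpot (nke n c e) ν x = ∫⁻ ofReal (c + Nk n (√..)) dν = ofReal (c + wN n e ν x)` by positivity on `K`
(`ofReal_integral_eq_lintegral_ofReal`).  The energy `kIn` is finite (bounded kernel). -/
theorem exists_smooth_min (hn : 2 ≤ n) {e c : ℝ} (he : 0 < e) {K : Set (E n)} (hK : IsCompact K)
    (hne : K.Nonempty) (hc : ∀ x ∈ K, ∀ y ∈ K, 0 ≤ c + Nk n (Real.sqrt (dist x y ^ 2 + e ^ 2))) :
    kIn (nke n c e) K ≠ ⊤ ∧ ∃ ν : Measure (E n), PK K ν ∧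
      ∀ x ∈ K, (kIn (nke n c e) K).toReal - c ≤ wN n e ν x := by
  set κ : E n → E n → ℝ≥0 := fun x y =>
    (c + Nk n (Real.sqrt (dist x y ^ 2 + e ^ 2))).toNNReal with hκ
  have hcont : Continuous (fun p : E n × E n => κ p.1 p.2) := (nke_props hn c).1 e he
  have hbd : ∃ C : ℝ≥0, ∀ x y, κ x y ≤ C := (nke_props hn c).2.1 e he
  have hsym : ∀ x y, κ x y = κ y x := fun x y => by simp only [hκ, dist_comm]
  have hk : nke n c e = fun x y => (κ x y : ℝ≥0∞) := rfl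
  obtain ⟨ν, hν, hmin⟩ := exists_min hcont hbd hK hne
  have hP : IsProbabilityMeasure ν := ⟨hν.1⟩
  have hae : ∀ᵐ y ∂ν, y ∈ K := by
    rw [ae_iff]
    exact hν.2
  obtain ⟨C, hC⟩ := hbd
  have hpotC : ∀ x, kpot (fun x y => (κ x y : ℝ≥0∞)) ν x ≤ C := by
    intro x
    calc kpot (fun x y => (κ x y : ℝ≥0∞)) ν x ≤ ∫⁻ _, (C : ℝ≥0∞) ∂ν :=
          lintegral_mono fun y => ENNReal.coe_le_coe.2 (hC x y)
      _ = C := by simp
  have henC : ken (fun x y => (κ x y : ℝ≥0∞)) ν ≤ C := by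
    calc ken (fun x y => (κ x y : ℝ≥0∞)) ν ≤ ∫⁻ _, (C : ℝ≥0∞) ∂ν :=
          lintegral_mono fun x => hpotC x
      _ = C := by simp
  refine ⟨?_, ν, hν, ?_⟩
  · rw [hk, ← hmin]
    exact (henC.trans_lt ENNReal.coe_lt_top).ne
  · intro x hx
    have h1 := variation_point hcont ⟨C, hC⟩ hsym hν hmin hx
    rw [← hk] at h1
    have hcs : Continuous (fun y : E n => Nk n (Real.sqrt (dist x y ^ 2 + e ^ 2))) := by
      rw [continuous_iff_continuousAt]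
      intro y
      have hpos : 0 < dist x y ^ 2 + e ^ 2 := by positivity
      have h2 : ContinuousAt (fun s => Nk n (Real.sqrt s)) (dist x y ^ 2 + e ^ 2) :=
        (hasDerivAt_Nk_sqrt hn hpos).continuousAt
      have h3 : ContinuousAt (fun y : E n => dist x y ^ 2 + e ^ 2) y := by fun_prop
      exact ContinuousAt.comp (f := fun y : E n => dist x y ^ 2 + e ^ 2) h2 h3
    have hint : Integrable (fun y : E n => Nk n (Real.sqrt (dist x y ^ 2 + e ^ 2))) ν := by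
      have h4 : IntegrableOn (fun y : E n => Nk n (Real.sqrt (dist x y ^ 2 + e ^ 2))) K ν :=
        hcs.continuousOn.integrableOn_compact hK
      rwa [IntegrableOn, Measure.restrict_eq_self_of_ae_mem hae] at h4
    have hint2 : Integrable (fun y : E n => c + Nk n (Real.sqrt (dist x y ^ 2 + e ^ 2))) ν :=
      (integrable_const c).add hint
    have hnn : 0 ≤ᵐ[ν] fun y : E n => c + Nk n (Real.sqrt (dist x y ^ 2 + e ^ 2)) := by
      filter_upwards [hae] with y hy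
      exact hc x hx y hy
    have h5 : kpot (nke n c e) ν x = ENNReal.ofReal (c + wN n e ν x) := by
      have h6 := ofReal_integral_eq_lintegral_ofReal hint2 hnn
      have h7 : ∫ y, (c + Nk n (Real.sqrt (dist x y ^ 2 + e ^ 2))) ∂ν = c + wN n e ν x := by
        rw [integral_add (integrable_const c) hint]
        simp [wN]
      rw [h7] at h6
      rw [h6]
      rfl
    have h8 : 0 ≤ c + wN n e ν x := by
      have h9 := integral_nonneg_of_ae hnn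
      rw [integral_add (integrable_const c) hint] at h9
      simpa [wN] using h9
    rw [h5] at h1
    have h10 := ENNReal.toReal_mono ENNReal.ofReal_ne_top h1
    rw [ENNReal.toReal_ofReal h8] at h10
    linarith

end Pool.Agent.Lib.MP_6cd19d_an.A
end

section

/-!
# The pointwise inequality (PI)
-/

set_option autoImplicit false

open MeasureTheory Set Filter Topology Metric
open scoped ENNReal NNReal RealInnerProductSpace

namespace Pool.Agent.Lib.MP_6cd19d_an.A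

open Pool.Agent.Lib.MP_6cd19d_an.ND

variable {n : ℕ}

/-- (RA-P6) The pointwise inequality: `S |v_D|² ≥ S_D |v|²`.

Proof.  `c, Λ, j` from `exists_dualM`.  `u_deriv`: `vV q μB (ℓ e) = -V e`, `e = bv i₀`, `V = -u1 ℓ / q > 0`; put `S_D = rS q μB (ℓ e)`,
`t = u ℓ = rU q μB (ℓ e)` (`pot_eq_rU`), `b_D = ℓ/(ℓ²-1)`, `ρ_D = 1/(ℓ²-1)`.  `quad_eq` says
`ρ_D² t - c (S_D - 2 b_D V + b_D² t) = κ ρ_D² j(ℓ)`.  If `vV q μ x = 0` the claim is clear (`rS ≥ 0`).  Otherwise, `s = ‖vV q μ x‖ / V > 0`,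
`ρ = s ρ_D`, `b = (s b_D / ‖v‖) • v`: `‖b‖/ρ = ℓ`, `⟪b, v⟫ = s b_D ‖v‖`, and `quad_le` minus `s²` times the equality:
`-c (S - 2 s b_D ‖v‖) ≤ -c s² (S_D - 2 b_D V)`; with `s ‖v‖ = s² V` and `c > 0`: `S ≥ s² S_D`. -/
theorem pointwise {q : ℝ} (hn : 1 ≤ n) (hq0 : 0 < q) {μB : Measure (E n)} {u : ℝ → ℝ}
    (hB : BallM n q μB u) (i₀ : Fin n) {K : Set (E n)} (hK : IsCompact K) {μ : Measure (E n)}
    (hfin : μ univ ≠ ⊤) (hμ : μ Kᶜ = 0) (hU : ∀ z, pot q μ z ≤ ENNReal.ofReal (kap n q))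
    {x : E n} (hx : x ∉ K) {ℓ : ℝ} (hℓ : 1 < ℓ) (ht : rU q μ x = u ℓ) :
    rS q μB (ℓ • (bv i₀ : E n)) * ‖vV q μ x‖ ^ 2 ≤
      rS q μ x * ‖vV q μB (ℓ • (bv i₀ : E n))‖ ^ 2 := by
  obtain ⟨c, Λ, j, hc, hΛ⟩ := exists_dualM hn hq0 hB
  obtain ⟨u1, u2, hu⟩ := u_deriv hq0 hB i₀
  obtain ⟨-, -, hu1, hvD, -⟩ := hu ℓ hℓ
  set e : E n := bv i₀ with he'
  have he : ‖e‖ = 1 := norm_bv i₀
  have hl : 0 < ℓ ^ 2 - 1 := by nlinarith
  have hxD : ℓ • e ∉ BB n := by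
    rw [mem_closedBall, dist_zero_right, norm_smul, he, mul_one, Real.norm_of_nonneg (by linarith)]
    linarith
  have hfinB : μB univ ≠ ⊤ := by
    rw [hB.prob]
    exact ENNReal.one_ne_top
  have hKc : IsCompact (BB n) := isCompact_closedBall _ _
  have htD : rU q μB (ℓ • e) = u ℓ := by
    have h1 := pot_eq_rU (q := q) hKc hfinB hB.supp hxD
    rw [hB.pot_eq, norm_smul, he, mul_one, Real.norm_of_nonneg (by linarith)] at h1
    have h2 : 0 ≤ rU q μB (ℓ • e) :=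
      integral_nonneg fun y => Real.rpow_nonneg (norm_nonneg _) _
    exact ((ENNReal.ofReal_eq_ofReal_iff (hB.u_pos ℓ (by linarith)).le h2).1 h1).symm
  have heq := quad_eq hq0 hΛ hB he hℓ
  set V : ℝ := -u1 ℓ / q with hV
  have hV0 : 0 < V := div_pos (by linarith) hq0
  have hvD' : vV q μB (ℓ • e) = -V • e := by
    rw [hvD, hV]
    congr 1
    ring
  have hnvD : ‖vV q μB (ℓ • e)‖ = V := by
    rw [hvD', norm_smul, he, mul_one, norm_neg, Real.norm_of_nonneg hV0.le]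
  set SD : ℝ := rS q μB (ℓ • e) with hSD
  set S : ℝ := rS q μ x with hS
  have hS0 : 0 ≤ S := integral_nonneg fun y => Real.rpow_nonneg (norm_nonneg _) _
  set bD : ℝ := ℓ / (ℓ ^ 2 - 1) with hbD
  set ρD : ℝ := 1 / (ℓ ^ 2 - 1) with hρD
  have hbD0 : 0 < bD := by positivity
  have hρD0 : 0 < ρD := by positivity
  have hin : ⟪-bD • e, vV q μB (ℓ • e)⟫ = bD * V := by
    rw [hvD', inner_smul_left, inner_smul_right, real_inner_self_eq_norm_sq, he]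
    simp only [conj_trivial]
    ring
  rw [hin, htD] at heq
  rw [hnvD]
  set v : E n := vV q μ x with hv
  by_cases hv0 : v = 0
  · rw [hv0, norm_zero]
    have : 0 ≤ S * V ^ 2 := by positivity
    linarith
  have hvp : 0 < ‖v‖ := norm_pos_iff.2 hv0
  set s : ℝ := ‖v‖ / V with hs
  have hs0 : 0 < s := by positivity
  have hsV : s * V = ‖v‖ := by
    rw [hs]
    field_simp
  set b : E n := (s * bD / ‖v‖) • v with hb
  have hnb : ‖b‖ = s * bD := by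
    rw [hb, norm_smul, Real.norm_of_nonneg (by positivity)]
    field_simp
  have hbv : ⟪b, v⟫ = s * bD * ‖v‖ := by
    rw [hb, inner_smul_left, real_inner_self_eq_norm_sq]
    simp only [conj_trivial]
    field_simp
  have hκ : 0 ≤ kap n q := ENNReal.toReal_nonneg
  have hle := quad_le hq0 hΛ hK hfin hμ hκ hU hx b (ρ := s * ρD) (by positivity)
  have hratio : ‖b‖ / (s * ρD) = ℓ := by
    rw [hnb, hbD, hρD]
    field_simp
  rw [hratio, ← hv, hbv, hnb, ht, ← hS] at hle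
  -- compare
  have h1 : s ^ 2 * (ρD ^ 2 * u ℓ - c * (SD - 2 * (bD * V) + bD ^ 2 * u ℓ)) =
      s ^ 2 * (kap n q * (ρD ^ 2 * j ℓ)) := by rw [heq]
  have h2 : s * bD * ‖v‖ = s ^ 2 * (bD * V) := by
    rw [← hsV]
    ring
  rw [h2] at hle
  have h3 : c * (s ^ 2 * SD) ≤ c * S := by nlinarith
  have h4 : s ^ 2 * SD ≤ S := le_of_mul_le_mul_left h3 hc
  have h5 : s ^ 2 * SD * V ^ 2 ≤ S * V ^ 2 := mul_le_mul_of_nonneg_right h4 (by positivity)
  have h6 : s ^ 2 * SD * V ^ 2 = SD * ‖v‖ ^ 2 := by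
    rw [← hsV]
    ring
  linarith

end Pool.Agent.Lib.MP_6cd19d_an.A
end

section

/-!
# F(U) is subharmonic off K
-/

set_option autoImplicit false

open MeasureTheory Set Filter Topology Metric
open scoped ENNReal NNReal RealInnerProductSpace

namespace Pool.Agent.Lib.MP_6cd19d_an.A

open Pool.Agent.Lib.MP_6cd19d_an.ND

variable {n : ℕ}

/-- (RA-C1a) Off `K` the potential is `< κ` (a point with value `κ` would be a local maximum of `rU q μ`: `ND.hasD2_localMax`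
with `hasD2_rU`, `rU_pos`, `q (q+2-n) rS > 0`; near `x`, off `K`, `rU ≤ κ` by `pot_eq_rU`). -/
theorem rU_lt {q : ℝ} (hq : (n : ℝ) - 2 < q) (hq0 : 0 < q) {K : Set (E n)} (hK : IsCompact K)
    {μ : Measure (E n)} (hμ : PK K μ) {κ₀ : ℝ} (hκ₀ : 0 ≤ κ₀)
    (hU : ∀ z, pot q μ z ≤ ENNReal.ofReal κ₀) {x : E n} (hx : x ∉ K) :
    0 < rU q μ x ∧ rU q μ x < κ₀ := by
  have hfin : μ univ ≠ ⊤ := by rw [hμ.1]; exact ENNReal.one_ne_top
  have h0 : μ univ ≠ 0 := by rw [hμ.1]; exact one_ne_zero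
  have hpos := rU_pos (q := q) hK hfin h0 hμ.2 hx
  have hle : ∀ z, z ∉ K → rU q μ z ≤ κ₀ := by
    intro z hz
    have h1 := hU z
    rw [pot_eq_rU hK hfin hμ.2 hz] at h1
    exact (ENNReal.ofReal_le_ofReal_iff hκ₀).1 h1
  refine ⟨hpos.1, lt_of_le_of_ne (hle x hx) ?_⟩
  intro heq
  have hmax : IsLocalMax (rU q μ) x := by
    filter_upwards [hK.isClosed.isOpen_compl.mem_nhds hx] with z hz
    rw [heq]
    exact hle z hz
  obtain ⟨b, hb, hbs⟩ := hasD2_rU (q := q) hK hfin hμ.2 hx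
  have h2 := (hasD2_localMax hb hmax).2
  have h3 : ∑ i, b i ≤ 0 := Finset.sum_nonpos fun i _ => h2 i
  rw [hbs] at h3
  have h4 : 0 < q * (q + 2 - n) * rS q μ x := by
    refine mul_pos (mul_pos hq0 ?_) hpos.2
    linarith
  linarith

/-- (RA-C1b) The sum of the second line derivatives of `F (U)` is `≥ 0` off `K`.

Proof.  `t = rU q μ x ∈ (0, κ)` (`rU_lt`), `ℓ` with `u ℓ = t` (`u_surj`).  `hasD2_comp` with `hasD2_rU`: second derivatives
`F2 t (q v_i)² + F1 t b_i`, sum `F2 t q² ‖v‖² + F1 t q (q+2-n) S` (`sum_sq`).  By (U3) at `ℓ`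
(`F2 q² V² = -F1 q (q+2-n) S_D`, `V = ‖vV q μB (ℓ e)‖ > 0`) and `pointwise` (`S V² ≥ S_D ‖v‖²`), times `V²`:
`V² * sum = F1 q (q+2-n) (S V² - S_D ‖v‖²) ≥ 0`. -/
theorem hasD2_F {q : ℝ} (hn : 2 ≤ n) (hq : (n : ℝ) - 2 < q) (hq0 : 0 < q)
    {μB : Measure (E n)} {u : ℝ → ℝ} (hB : BallM n q μB u) (i₀ : Fin n) {F F1 F2 : ℝ → ℝ}
    (hF : ∀ t ∈ Ioo 0 (kap n q), HasDerivAt F (F1 t) t ∧ HasDerivAt F1 (F2 t) t ∧ 0 < F1 t)
    (hF2 : ∀ ℓ, 1 < ℓ → F2 (u ℓ) * (q ^ 2 * ‖vV q μB (ℓ • (bv i₀ : E n))‖ ^ 2) +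
        F1 (u ℓ) * (q * (q + 2 - n) * rS q μB (ℓ • (bv i₀ : E n))) = 0)
    {K : Set (E n)} (hK : IsCompact K) {μ : Measure (E n)} (hμ : PK K μ)
    (hU : ∀ z, pot q μ z ≤ ENNReal.ofReal (kap n q)) {x : E n} (hx : x ∉ K) :
    ∃ a b : Fin n → ℝ, HasD2 (fun z => F (rU q μ z)) x a b ∧ 0 ≤ ∑ i, b i := by
  have hfin : μ univ ≠ ⊤ := by rw [hμ.1]; exact ENNReal.one_ne_top
  have hn1 : 1 ≤ n := by omega
  have hκ : 0 ≤ kap n q := ENNReal.toReal_nonneg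
  obtain ⟨t, ht⟩ : ∃ t : ℝ, t = rU q μ x := ⟨_, rfl⟩
  have hlt := rU_lt hq hq0 hK hμ hκ hU hx
  rw [← ht] at hlt
  obtain ⟨ℓ, hℓ, huℓ⟩ := u_surj hn1 hq0 hB hlt.1 hlt.2
  obtain ⟨b, hb, hbs⟩ := hasD2_rU (q := q) hK hfin hμ.2 hx
  have hFt := hF t hlt
  have hev : ∀ᶠ s in 𝓝 (rU q μ x), HasDerivAt F (F1 s) s := by
    rw [← ht]
    filter_upwards [isOpen_Ioo.mem_nhds (show t ∈ Ioo 0 (kap n q) from hlt)] with s hs
    exact (hF s hs).1
  have hF1 : HasDerivAt F1 (F2 t) (rU q μ x) := by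
    rw [← ht]
    exact hFt.2.1
  refine ⟨_, _, hasD2_comp hb hev hF1, ?_⟩
  rw [← ht]
  have hsum : ∑ i : Fin n, (F2 t * (q * (vV q μ x) i) ^ 2 + F1 t * b i) =
      F2 t * (q ^ 2 * ‖vV q μ x‖ ^ 2) + F1 t * (q * (q + 2 - n) * rS q μ x) := by
    have h5 : ∀ i : Fin n, (q * (vV q μ x) i) ^ 2 = q ^ 2 * ((vV q μ x) i) ^ 2 := fun i => by ring
    simp_rw [h5]
    rw [Finset.sum_add_distrib, ← Finset.mul_sum, ← Finset.mul_sum, ← Finset.mul_sum, hbs, sum_sq]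
  rw [hsum]
  have hD := hF2 ℓ hℓ
  rw [huℓ] at hD
  have hP := pointwise hn1 hq0 hB i₀ hK hfin hμ.2 hU hx hℓ (by rw [huℓ, ht])
  obtain ⟨u1, u2, hu⟩ := u_deriv hq0 hB i₀
  obtain ⟨-, -, hu1, hv, -⟩ := hu ℓ hℓ
  have hV : 0 < ‖vV q μB (ℓ • (bv i₀ : E n))‖ := by
    rw [hv, norm_smul, norm_bv, mul_one, norm_pos_iff]
    exact (div_neg_of_neg_of_pos hu1 hq0).ne
  have hV2 : 0 < ‖vV q μB (ℓ • (bv i₀ : E n))‖ ^ 2 := pow_pos hV 2
  have hq2 : 0 < q + 2 - n := by linarith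
  have hmain : ‖vV q μB (ℓ • (bv i₀ : E n))‖ ^ 2 *
      (F2 t * (q ^ 2 * ‖vV q μ x‖ ^ 2) + F1 t * (q * (q + 2 - n) * rS q μ x)) =
      F1 t * (q * (q + 2 - n)) * (rS q μ x * ‖vV q μB (ℓ • (bv i₀ : E n))‖ ^ 2 -
        rS q μB (ℓ • (bv i₀ : E n)) * ‖vV q μ x‖ ^ 2) := by
    linear_combination ‖vV q μ x‖ ^ 2 * hD
  have hge : 0 ≤ ‖vV q μB (ℓ • (bv i₀ : E n))‖ ^ 2 *
      (F2 t * (q ^ 2 * ‖vV q μ x‖ ^ 2) + F1 t * (q * (q + 2 - n) * rS q μ x)) := by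
    rw [hmain]
    refine mul_nonneg (mul_nonneg hFt.2.2.le (mul_nonneg hq0.le hq2.le)) ?_
    linarith
  exact nonneg_of_mul_nonneg_right hge hV2

/-- (RA-C1c) Bounds for `F (U)`.  For `x ∉ K`, `K ⊆ closedBall 0 ρ`, `ℓ` with `u ℓ = rU q μ x`:
`(ℓ-1)^(-q) ≥ u ℓ = rU ≥ (‖x‖+ρ)^(-q)` gives `ℓ ≤ ‖x‖+ρ+1`; `F = Nk n ℓ ≤ Nk n 1`; and for `‖x‖ > ρ`:
`(ℓ+1)^(-q) ≤ rU ≤ (‖x‖-ρ)^(-q)` gives `ℓ ≥ ‖x‖-ρ-1`. -/
theorem F_bounds {q : ℝ} (hn : 2 ≤ n) (hq : (n : ℝ) - 2 < q) (hq0 : 0 < q)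
    {μB : Measure (E n)} {u : ℝ → ℝ} (hB : BallM n q μB u) {F : ℝ → ℝ}
    (hF : ∀ ℓ, 1 < ℓ → F (u ℓ) = Nk n ℓ)
    {K : Set (E n)} (hK : IsCompact K) {ρ : ℝ} (hKρ : K ⊆ closedBall 0 ρ) {μ : Measure (E n)}
    (hμ : PK K μ) (hU : ∀ z, pot q μ z ≤ ENNReal.ofReal (kap n q)) {x : E n}
    (hx : x ∉ K) :
    Nk n (‖x‖ + ρ + 1) ≤ F (rU q μ x) ∧ F (rU q μ x) ≤ Nk n 1 ∧
      (ρ + 2 < ‖x‖ → F (rU q μ x) ≤ Nk n (‖x‖ - ρ - 1)) := by
  have hfin : μ univ ≠ ⊤ := by rw [hμ.1]; exact ENNReal.one_ne_top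
  have hprob : IsProbabilityMeasure μ := ⟨hμ.1⟩
  have hn1 : 1 ≤ n := by omega
  have hκ : 0 ≤ kap n q := ENNReal.toReal_nonneg
  have hlt := rU_lt hq hq0 hK hμ hκ hU hx
  obtain ⟨ℓ, hℓ, huℓ⟩ := u_surj hn1 hq0 hB hlt.1 hlt.2
  have hub := u_bounds hn1 hq0 hB hℓ
  have haeK : ∀ᵐ y ∂μ, y ∈ K := by
    rw [ae_iff]
    exact hμ.2
  have hKne : K.Nonempty := by
    by_contra hne
    rw [not_nonempty_iff_eq_empty] at hne
    have h1 := hμ.2
    rw [hne, compl_empty, hμ.1] at h1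
    exact one_ne_zero h1
  have hdist : ∀ y ∈ K, 0 < ‖x - y‖ ∧ ‖x - y‖ ≤ ‖x‖ + ρ ∧ ‖x‖ - ρ ≤ ‖x - y‖ := by
    intro y hy
    have hyρ : ‖y‖ ≤ ρ := mem_closedBall_zero_iff.1 (hKρ hy)
    refine ⟨?_, ?_, ?_⟩
    · rw [norm_pos_iff, sub_ne_zero]
      rintro rfl
      exact hx hy
    · exact (norm_sub_le _ _).trans (by linarith)
    · have := norm_sub_norm_le x y
      linarith
  obtain ⟨y0, hy0⟩ := hKne
  have hxρ : 0 < ‖x‖ + ρ := (hdist y0 hy0).1.trans_le (hdist y0 hy0).2.1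
  have hint := (integrable_rpow (p := -q) hK hfin hμ.2 hx).1
  have hlow : (‖x‖ + ρ) ^ (-q) ≤ rU q μ x := by
    have h1 : ∫ _, (‖x‖ + ρ) ^ (-q) ∂μ ≤ ∫ y, ‖x - y‖ ^ (-q) ∂μ := by
      refine integral_mono_ae (integrable_const _) hint ?_
      filter_upwards [haeK] with y hy
      exact Real.rpow_le_rpow_of_nonpos (hdist y hy).1 (hdist y hy).2.1 (by linarith)
    rw [integral_const, probReal_univ, one_smul] at h1
    exact h1
  have hℓle : ℓ ≤ ‖x‖ + ρ + 1 := by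
    by_contra hcon
    push Not at hcon
    have h1 : (ℓ - 1) ^ (-q) < (‖x‖ + ρ) ^ (-q) :=
      Real.rpow_lt_rpow_of_neg hxρ (by linarith) (by linarith)
    linarith [hub.2]
  have hanti := (Nk_strictAntiOn (n := n) hn).antitoneOn
  have hFx : F (rU q μ x) = Nk n ℓ := by rw [← huℓ, hF ℓ hℓ]
  rw [hFx]
  have hℓ0 : (0 : ℝ) < ℓ := by linarith
  refine ⟨hanti (show ℓ ∈ Ioi (0 : ℝ) from hℓ0) (show ‖x‖ + ρ + 1 ∈ Ioi (0 : ℝ) from by
    simp only [mem_Ioi]; linarith) hℓle, hanti (show (1 : ℝ) ∈ Ioi (0 : ℝ) from by simp)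
    (show ℓ ∈ Ioi (0 : ℝ) from hℓ0) hℓ.le, ?_⟩
  intro hfar
  have hupp : rU q μ x ≤ (‖x‖ - ρ) ^ (-q) := by
    have h1 : ∫ y, ‖x - y‖ ^ (-q) ∂μ ≤ ∫ _, (‖x‖ - ρ) ^ (-q) ∂μ := by
      refine integral_mono_ae hint (integrable_const _) ?_
      filter_upwards [haeK] with y hy
      exact Real.rpow_le_rpow_of_nonpos (by linarith) (hdist y hy).2.2 (by linarith)
    rw [integral_const, probReal_univ, one_smul] at h1
    exact h1
  have hℓge : ‖x‖ - ρ - 1 ≤ ℓ := by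
    by_contra hcon
    push Not at hcon
    have h1 : (‖x‖ - ρ) ^ (-q) < (ℓ + 1) ^ (-q) :=
      Real.rpow_lt_rpow_of_neg (by linarith) (by linarith) (by linarith)
    linarith [hub.1]
  exact hanti (show ‖x‖ - ρ - 1 ∈ Ioi (0 : ℝ) from by simp only [mem_Ioi]; linarith)
    (show ℓ ∈ Ioi (0 : ℝ) from hℓ0) hℓge

end Pool.Agent.Lib.MP_6cd19d_an.A
end

section

/-!
# The smooth energies are at most those of the sphere
-/

set_option autoImplicit false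

open MeasureTheory Set Filter Topology Metric
open scoped ENNReal NNReal RealInnerProductSpace

namespace Pool.Agent.Lib.MP_6cd19d_an.A

open Pool.Agent.Lib.MP_6cd19d_an.ND

variable {n : ℕ}

/-- (RA-C4) `I_e ≤ N(1)`.

Proof.  `i₀ : Fin n` exists as `2 ≤ n`.  `exists_ballM`, `exists_F`; `exists_smooth_min` gives `ν`; `comparison` with
`φ z = F (rU q μ z)` (continuous off `K`: `continuousAt_rU` and `F` differentiable at `rU q μ x ∈ (0, κ)`, `rU_lt`), `w = wN n e ν`,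
`W = (kIn (nke n c e) K).toReal - c`, `ρ ≥ 0` with `K ⊆ closedBall 0 ρ`; all hypotheses are in `C1`, `G3`. -/
theorem smooth_energy_le (hn : 2 ≤ n) {q : ℝ} (hq : (n : ℝ) - 2 < q) (hqn : q < n)
    {K : Set (E n)} (hK : IsCompact K) (hne : K.Nonempty) {μ : Measure (E n)}
    (hμ : PK K μ) (hU : ∀ z, pot q μ z ≤ ENNReal.ofReal (kap n q)) {e c : ℝ}
    (he : 0 < e) (hc : ∀ x ∈ K, ∀ y ∈ K, 0 ≤ c + Nk n (Real.sqrt (dist x y ^ 2 + e ^ 2))) :
    (kIn (nke n c e) K).toReal ≤ c + Nk n 1 := by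
  have hn' : (2 : ℝ) ≤ n := by exact_mod_cast hn
  have hq0 : 0 < q := by linarith
  have i₀ : Fin n := ⟨0, by omega⟩
  obtain ⟨μB, u, hB⟩ := exists_ballM (n := n) (by omega) hq.le hq0 hqn
  obtain ⟨F, F1, F2, hF, hF1, hF2⟩ := exists_F hn hq0 hB i₀
  obtain ⟨-, ν, hν, hW⟩ := exists_smooth_min hn he hK hne hc
  obtain ⟨ρ', hρ'⟩ := hK.isBounded.subset_closedBall (0 : E n)
  have hKρ : K ⊆ closedBall 0 (max ρ' 0) :=
    hρ'.trans (closedBall_subset_closedBall (le_max_left _ _))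
  have hkap : 0 ≤ kap n q := ENNReal.toReal_nonneg
  have hfin : μ univ ≠ ⊤ := by
    rw [hμ.1]
    exact ENNReal.one_ne_top
  have hlt : ∀ x, x ∉ K → rU q μ x ∈ Ioo 0 (kap n q) := fun x hx =>
    rU_lt hq hq0 hK hμ hkap hU hx
  have h := comparison hn he (ρ := max ρ' 0) (W := (kIn (nke n c e) K).toReal - c) hK
    (le_max_right _ _) hKρ (φ := fun z => F (rU q μ z)) (w := wN n e ν)
    (fun x hx => ContinuousAt.comp (f := rU q μ) (hF1 _ (hlt x hx)).1.continuousAt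
      (continuousAt_rU hK hfin hμ.2 hx))
    (fun x hx => (F_bounds hn hq hq0 hB hF hK hKρ hμ hU hx).2.1)
    (fun x hx => (F_bounds hn hq hq0 hB hF hK hKρ hμ hU hx).1)
    (fun x hx => (F_bounds hn hq hq0 hB hF hK hKρ hμ hU hx).2.2)
    (fun x hx => hasD2_F hn hq hq0 hB i₀ hF1 hF2 hK hμ hU hx)
    (continuous_wN hn he hK hν) hW
    (fun x => (wN_bounds hn he hK hKρ hν x).1)
    (fun x => (wN_bounds hn he hK hKρ hν x).2)
    (fun x => hasD2_wN hn he hK hν x)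
  linarith

end Pool.Agent.Lib.MP_6cd19d_an.A
end

section

/-!
# Theorem A, normalised
-/

set_option autoImplicit false

open MeasureTheory Set Filter Topology Metric
open scoped ENNReal NNReal RealInnerProductSpace

namespace Pool.Agent.Lib.MP_6cd19d_an.A

open Pool.Agent.Lib.MP_6cd19d_an.ND

variable {n : ℕ}

/-- (RA-C5a) Theorem A for big shifts.

Proof.  `κ j x y = (c + Nk n (√(d² + (1/(j+1))²))).toNNReal` (`nke_props`), so `(κ j x y : ℝ≥0∞) = nke n c (1/(j+1)) x y` definitionally.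
`exists_meas_of_iSup`: `μ'` with `ken (⨆ j, ..) μ' ≤ ⨆ j, kIn (nke n c (1/(j+1))) K ≤ ofReal (c + Nk n 1)` by `smooth_energy_le`
(`1/(j+1) ≤ 1`, `Nk` antitone, so the positivity hypothesis holds; `kIn` is finite by `exists_smooth_min`); the supremum is `nk n c` (`iSup_nke`). -/
theorem partA_big (hn : 2 ≤ n) {q : ℝ} (hq : (n : ℝ) - 2 < q) (hqn : q < n)
    {K : Set (E n)} (hK : IsCompact K) (hne : K.Nonempty) {μ : Measure (E n)}
    (hμ : PK K μ) (hU : ∀ z, pot q μ z ≤ ENNReal.ofReal (kap n q)) {c : ℝ}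
    (hc : ∀ x ∈ K, ∀ y ∈ K, 0 ≤ c + Nk n (Real.sqrt (dist x y ^ 2 + 1 ^ 2))) :
    ∃ μ' : Measure (E n), PK K μ' ∧ ken (nk n c) μ' ≤ ENNReal.ofReal (c + Nk n 1) := by
  classical
  obtain ⟨hcont, hbd, hmono⟩ := nke_props (n := n) hn c
  have he : ∀ j : ℕ, (0 : ℝ) < 1 / ((j : ℝ) + 1) := fun j => by positivity
  have he1 : ∀ j : ℕ, 1 / ((j : ℝ) + 1) ≤ 1 := fun j => by
    rw [div_le_one (by positivity)]
    have : (0 : ℝ) ≤ j := by positivity
    linarith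
  obtain ⟨μ', hμ', hen⟩ := exists_meas_of_iSup hK hne
    (fun (j : ℕ) (x y : E n) => (c + Nk n (Real.sqrt (dist x y ^ 2 +
      (1 / ((j : ℝ) + 1)) ^ 2))).toNNReal)
    (fun j => hcont _ (he j)) (fun j => hbd _ (he j)) hmono
  refine ⟨μ', hμ', ?_⟩
  have h1 : (fun x y : E n => ⨆ j : ℕ, (((c + Nk n (Real.sqrt (dist x y ^ 2 +
      (1 / ((j : ℝ) + 1)) ^ 2))).toNNReal : ℝ≥0) : ℝ≥0∞)) = nk n c := by
    funext x y
    exact iSup_nke hn c x y
  have h2 : ken (nk n c) μ' ≤ ⨆ j : ℕ, kIn (nke n c (1 / ((j : ℝ) + 1))) K := by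
    rw [← h1]
    exact hen
  refine h2.trans (iSup_le fun j => ?_)
  obtain ⟨x0, hx0⟩ := hne
  have hfin : kIn (nke n c (1 / ((j : ℝ) + 1))) K ≠ ⊤ := by
    have hd : PK K (Measure.dirac x0) := by
      refine ⟨measure_univ, ?_⟩
      rw [Measure.dirac_apply' _ hK.measurableSet.compl]
      simp [hx0]
    have h3 : kIn (nke n c (1 / ((j : ℝ) + 1))) K ≤
        ken (nke n c (1 / ((j : ℝ) + 1))) (Measure.dirac x0) := iInf₂_le _ hd
    refine ne_top_of_le_ne_top ?_ h3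
    unfold ken
    rw [lintegral_dirac, lintegral_dirac]
    exact ENNReal.ofReal_ne_top
  have h4 := smooth_energy_le hn hq hqn hK ⟨x0, hx0⟩ hμ hU (he j) (c := c) (fun x hx y hy => by
    refine (hc x hx y hy).trans ?_
    have hp : 0 < Real.sqrt (dist x y ^ 2 + (1 / ((j : ℝ) + 1)) ^ 2) := by
      have := he j
      positivity
    have hp1 : 0 < Real.sqrt (dist x y ^ 2 + (1 : ℝ) ^ 2) := by positivity
    have hle : Real.sqrt (dist x y ^ 2 + (1 / ((j : ℝ) + 1)) ^ 2) ≤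
        Real.sqrt (dist x y ^ 2 + (1 : ℝ) ^ 2) := by
      apply Real.sqrt_le_sqrt
      have h5 : (1 / ((j : ℝ) + 1)) ^ 2 ≤ (1 : ℝ) ^ 2 :=
        pow_le_pow_left₀ (he j).le (he1 j) 2
      linarith
    have := (Nk_strictAntiOn hn).antitoneOn hp hp1 hle
    linarith)
  rw [← ENNReal.ofReal_toReal hfin]
  exact ENNReal.ofReal_le_ofReal h4

/-- (RA-C5b) Theorem A for all admissible shifts.

Proof.  Take `c₀ ≥ c` with the property of `partA_big` (`dist x y ≤ D` on `K`, `c₀ = max c (-Nk n (√(D²+1)))`).  On `K × K`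
`nk n c₀ x y = nk n c x y + ofReal (c₀ - c)` (both are `⊤` on the diagonal), so `ken (nk n c₀) μ' = ken (nk n c) μ' + ofReal (c₀ - c)`; cancel. -/
theorem partA_norm (hn : 2 ≤ n) {q : ℝ} (hq : (n : ℝ) - 2 < q) (hqn : q < n)
    {K : Set (E n)} (hK : IsCompact K) (hne : K.Nonempty) {μ : Measure (E n)}
    (hμ : PK K μ) (hU : ∀ z, pot q μ z ≤ ENNReal.ofReal (kap n q)) {c : ℝ}
    (hc : ∀ x ∈ K, ∀ y ∈ K, x ≠ y → 0 ≤ c + Nk n (dist x y)) :
    ∃ μ' : Measure (E n), PK K μ' ∧ ken (nk n c) μ' ≤ ENNReal.ofReal (c + Nk n 1) := by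
  classical
  obtain ⟨D, hD⟩ := hK.isBounded.exists_norm_le
  set c₀ : ℝ := max c (-Nk n (Real.sqrt ((2 * D) ^ 2 + 1 ^ 2))) with hc₀
  have hcc : c ≤ c₀ := le_max_left _ _
  obtain ⟨μ', hμ', hen⟩ := partA_big hn hq hqn hK hne hμ hU (c := c₀) (fun x hx y hy => by
    have hd : dist x y ≤ 2 * D := by
      rw [dist_eq_norm]
      have h1 := norm_sub_le x y
      have h2 := hD x hx
      have h3 := hD y hy
      linarith
    have hle : Real.sqrt (dist x y ^ 2 + (1 : ℝ) ^ 2) ≤ Real.sqrt ((2 * D) ^ 2 + 1 ^ 2) := by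
      apply Real.sqrt_le_sqrt
      have : dist x y ^ 2 ≤ (2 * D) ^ 2 := pow_le_pow_left₀ dist_nonneg hd 2
      linarith
    have hp1 : 0 < Real.sqrt (dist x y ^ 2 + (1 : ℝ) ^ 2) := by positivity
    have hp2 : 0 < Real.sqrt ((2 * D) ^ 2 + (1 : ℝ) ^ 2) := by positivity
    have h4 := (Nk_strictAntiOn hn).antitoneOn hp1 hp2 hle
    have h5 : -Nk n (Real.sqrt ((2 * D) ^ 2 + 1 ^ 2)) ≤ c₀ := le_max_right _ _
    linarith)
  refine ⟨μ', hμ', ?_⟩
  have hae : ∀ᵐ x ∂μ', x ∈ K := by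
    rw [ae_iff]
    exact hμ'.2
  have hpt : ∀ x ∈ K, ∀ y ∈ K, nk n c₀ x y = nk n c x y + ENNReal.ofReal (c₀ - c) := by
    intro x hx y hy
    unfold nk
    by_cases hxy : x = y
    · rw [if_pos hxy, if_pos hxy, top_add]
    · rw [if_neg hxy, if_neg hxy, ← ENNReal.ofReal_add (hc x hx y hy hxy) (by linarith)]
      congr 1
      ring
  have h1 : ken (nk n c₀) μ' = ken (nk n c) μ' + ENNReal.ofReal (c₀ - c) := by
    unfold ken
    have h2 : ∫⁻ x, ∫⁻ y, nk n c₀ x y ∂μ' ∂μ' =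
        ∫⁻ x, ((∫⁻ y, nk n c x y ∂μ') + ENNReal.ofReal (c₀ - c)) ∂μ' := by
      refine lintegral_congr_ae ?_
      filter_upwards [hae] with x hx
      have h3 : ∫⁻ y, nk n c₀ x y ∂μ' = ∫⁻ y, (nk n c x y + ENNReal.ofReal (c₀ - c)) ∂μ' := by
        refine lintegral_congr_ae ?_
        filter_upwards [hae] with y hy
        exact hpt x hx y hy
      rw [h3, lintegral_add_right _ measurable_const, lintegral_const, hμ'.1, mul_one]
    rw [h2, lintegral_add_right _ measurable_const, lintegral_const, hμ'.1, mul_one]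
  rw [h1] at hen
  have h4 := ENNReal.le_sub_of_add_le_right ENNReal.ofReal_ne_top hen
  rw [← ENNReal.ofReal_sub _ (by linarith : 0 ≤ c₀ - c)] at h4
  refine h4.trans (le_of_eq ?_)
  congr 1
  ring

end Pool.Agent.Lib.MP_6cd19d_an.A
end

section

/-!
# Theorem A for general compact sets (scaling)
-/

set_option autoImplicit false

open MeasureTheory Set Filter Topology Metric
open scoped ENNReal NNReal RealInnerProductSpace

namespace Pool.Agent.Lib.MP_6cd19d_an.A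

open Pool.Agent.Lib.MP_6cd19d_an.ND

variable {n : ℕ}

/-- (RA-S1a) Compact sets have positive energy (`dist x y ≤ D` on `K`, energies `≥ D^(-q)`). -/
theorem infEn_pos {q : ℝ} (hq0 : 0 < q) {K : Set (E n)} (hK : IsCompact K) :
    0 < infEn q K := by
  obtain ⟨D, hD⟩ := hK.isBounded.subset_closedBall (0 : E n)
  set m : ℝ≥0∞ := (ENNReal.ofReal (2 * |D| + 1)) ^ (-q) with hm
  have hm0 : 0 < m := by
    rw [hm]
    exact ENNReal.rpow_pos (ENNReal.ofReal_pos.2 (by positivity)) ENNReal.ofReal_ne_top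
  refine hm0.trans_le (le_iInf₂ fun μ hμ => ?_)
  have hP : IsProbabilityMeasure μ := ⟨hμ.1⟩
  have hae : ∀ᵐ y ∂μ, y ∈ K := by
    rw [ae_iff]
    exact hμ.2
  have key : ∀ x ∈ K, ∀ y ∈ K, m ≤ (edist x y) ^ (-q) := by
    intro x hx y hy
    have h1 := hD hx
    have h2 := hD hy
    rw [mem_closedBall, dist_zero_right] at h1 h2
    have h3 : dist x y ≤ 2 * |D| + 1 := by
      rw [dist_eq_norm]
      have := norm_sub_le x y
      have := le_abs_self D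
      linarith
    have h4 : edist x y ≤ ENNReal.ofReal (2 * |D| + 1) := by
      rw [edist_dist]
      exact ENNReal.ofReal_le_ofReal h3
    rw [hm, ENNReal.rpow_neg, ENNReal.rpow_neg]
    exact ENNReal.inv_le_inv.2 (ENNReal.rpow_le_rpow h4 hq0.le)
  calc m = ∫⁻ _, ∫⁻ _, m ∂μ ∂μ := by simp
    _ ≤ ∫⁻ x, ∫⁻ y, (edist x y) ^ (-q) ∂μ ∂μ := by
        refine lintegral_mono_ae ?_
        filter_upwards [hae] with x hx
        refine lintegral_mono_ae ?_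
        filter_upwards [hae] with y hy
        exact key x hx y hy

/-- Pushing a probability measure on a compact set by a homothety. -/
theorem S1_pk {R : ℝ} (hR : R ≠ 0) {K : Set (E n)} {μ : Measure (E n)} (hμ : PK K μ)
    {K' : Set (E n)} (hK' : ∀ x ∈ K, R • x ∈ K') :
    PK K' (μ.map (Homeomorph.smulOfNeZero (α := E n) R hR)) := by
  have he := (Homeomorph.smulOfNeZero (α := E n) R hR).measurableEmbedding
  constructor
  · rw [he.map_apply, preimage_univ, hμ.1]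
  · rw [he.map_apply]
    refine measure_mono_null ?_ hμ.2
    intro x hx hxK
    exact hx (hK' x hxK)

/-- Homogeneity of the shifted Newton kernel. -/
theorem S1_shift (hn : 2 ≤ n) {R : ℝ} (hR : 0 < R) (c : ℝ) :
    ∃ a c' : ℝ, 0 < a ∧ ∀ r, 0 < r → c + Nk n (R * r) = a * (c' + Nk n r) := by
  by_cases h2 : n = 2
  · refine ⟨1, c - Real.log R, one_pos, fun r hr => ?_⟩
    rw [Nk_mul hn hR hr, if_pos h2]
    ring
  · have ha : 0 < R ^ ((2 : ℝ) - n) := Real.rpow_pos_of_pos hR _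
    refine ⟨R ^ ((2 : ℝ) - n), c / R ^ ((2 : ℝ) - n), ha, fun r hr => ?_⟩
    rw [Nk_mul hn hR hr, if_neg h2]
    field_simp

/-- (RA-S1b) Theorem A.

Proof.  `I = infEn q K` is in `(0,∞)`, `κ = kap n q > 0` (`infEn_ball_fin`), `R = (κ/I)^(1/q) > 0`.  `μ` from `ND.exists_equilibrium`: potential `≤ I`.
`K' = (fun x => R⁻¹ • x) '' K`, `μ₁ = μ.map (R⁻¹ • ·)`: `pot q μ₁ x = R^q pot q μ (R x) ≤ R^q I = κ`.  `partA_norm` for `K', μ₁` with the shift
`c' = c - log R` (`n = 2`), `c' = c R^(n-2)` (`n ≥ 3`): by `Nk_mul`, `nk n c (R x) (R y) = nk 2 c' x y`, respectively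
`= ofReal (R^(2-n)) * nk n c' x y`.  Push the measure obtained forward by `R • ·`. -/
theorem partA (hn : 2 ≤ n) {q : ℝ} (hq : (n : ℝ) - 2 < q) (hqn : q < n)
    {K : Set (E n)} (hK : IsCompact K) (hfin : infEn q K ≠ ⊤) {c : ℝ}
    (hc : ∀ x ∈ K, ∀ y ∈ K, x ≠ y → 0 ≤ c + Nk n (dist x y)) :
    ∃ μ' : Measure (E n), PK K μ' ∧
      ken (nk n c) μ' ≤
        ENNReal.ofReal (c + Nk n ((kap n q / (infEn q K).toReal) ^ (1 / q))) := by
  have hn2 : (2 : ℝ) ≤ n := by exact_mod_cast hn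
  have hq0 : 0 < q := by linarith
  obtain ⟨μ, hμ, -, -, hpot⟩ := exists_equilibrium hq0 hq.le hK hfin
  have hne : K.Nonempty := by
    by_contra h
    rw [not_nonempty_iff_eq_empty] at h
    have h1 := hμ.2
    rw [h, compl_empty, hμ.1] at h1
    exact one_ne_zero h1
  obtain ⟨-, hκ, -⟩ := infEn_ball_fin (n := n) (by omega) hq0 hqn
  set I : ℝ := (infEn q K).toReal with hI
  have hI0 : 0 < I := ENNReal.toReal_pos (infEn_pos hq0 hK).ne' hfin
  have hIe : infEn q K = ENNReal.ofReal I := (ENNReal.ofReal_toReal hfin).symm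
  set R : ℝ := (kap n q / I) ^ (1 / q) with hRdef
  have hR : 0 < R := Real.rpow_pos_of_pos (div_pos hκ hI0) _
  have hRq : R ^ q = kap n q / I := by
    rw [hRdef, ← Real.rpow_mul (div_pos hκ hI0).le, one_div_mul_cancel hq0.ne', Real.rpow_one]
  have hRi : R⁻¹ ≠ 0 := (inv_pos.2 hR).ne'
  set K' : Set (E n) := (fun x => R⁻¹ • x) '' K with hK'
  have hK'c : IsCompact K' := hK.image (continuous_const_smul _)
  have hμ1 : PK K' (μ.map (Homeomorph.smulOfNeZero (α := E n) R⁻¹ hRi)) :=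
    S1_pk hRi hμ fun x hx => ⟨x, hx, rfl⟩
  have hU : ∀ z, pot q (μ.map (Homeomorph.smulOfNeZero (α := E n) R⁻¹ hRi)) z ≤
      ENNReal.ofReal (kap n q) := by
    intro z
    unfold pot
    rw [(Homeomorph.smulOfNeZero (α := E n) R⁻¹ hRi).measurableEmbedding.lintegral_map]
    have h1 : ∀ x : E n, (edist z (Homeomorph.smulOfNeZero (α := E n) R⁻¹ hRi x)) ^ (-q) =
        ENNReal.ofReal (kap n q / I) * (edist (R • z) x) ^ (-q) := by
      intro x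
      have h2 : edist z (R⁻¹ • x) = ENNReal.ofReal R⁻¹ * edist (R • z) x := by
        rw [edist_dist, edist_dist, ← ENNReal.ofReal_mul (inv_pos.2 hR).le]
        congr 1
        rw [dist_eq_norm, dist_eq_norm]
        have h3 : z - R⁻¹ • x = R⁻¹ • (R • z - x) := by
          rw [smul_sub, smul_smul, inv_mul_cancel₀ hR.ne', one_smul]
        rw [h3, norm_smul, Real.norm_eq_abs, abs_of_pos (inv_pos.2 hR)]
      show (edist z (R⁻¹ • x)) ^ (-q) = _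
      rw [h2, ENNReal.mul_rpow_of_ne_top ENNReal.ofReal_ne_top (edist_ne_top _ _),
        ENNReal.ofReal_rpow_of_pos (inv_pos.2 hR), Real.inv_rpow hR.le, Real.rpow_neg hR.le,
        inv_inv, hRq]
    simp_rw [h1]
    rw [lintegral_const_mul' _ _ ENNReal.ofReal_ne_top]
    calc ENNReal.ofReal (kap n q / I) * ∫⁻ x, (edist (R • z) x) ^ (-q) ∂μ
        ≤ ENNReal.ofReal (kap n q / I) * ENNReal.ofReal I := by
          gcongr
          exact (hpot (R • z)).trans hIe.le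
      _ = ENNReal.ofReal (kap n q) := by
          rw [← ENNReal.ofReal_mul (div_pos hκ hI0).le, div_mul_cancel₀ _ hI0.ne']
  obtain ⟨a, c', ha, hac⟩ := S1_shift hn hR c
  have hc' : ∀ x ∈ K', ∀ y ∈ K', x ≠ y → 0 ≤ c' + Nk n (dist x y) := by
    rintro _ ⟨x, hx, rfl⟩ _ ⟨y, hy, rfl⟩ hxy
    simp only at hxy ⊢
    have hxy' : x ≠ y := fun h => hxy (by rw [h])
    have h1 : R * dist (R⁻¹ • x) (R⁻¹ • y) = dist x y := by
      rw [dist_smul₀, Real.norm_eq_abs, abs_of_pos (inv_pos.2 hR), ← mul_assoc,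
        mul_inv_cancel₀ hR.ne', one_mul]
    have h2 := hac _ (dist_pos.2 hxy)
    rw [h1] at h2
    have h3 := hc x hx y hy hxy'
    rw [h2] at h3
    exact nonneg_of_mul_nonneg_right h3 ha
  obtain ⟨ν, hν, hen⟩ := partA_norm hn hq hqn hK'c (hne.image _) hμ1 hU hc'
  refine ⟨ν.map (Homeomorph.smulOfNeZero (α := E n) R hR.ne'), S1_pk hR.ne' hν ?_, ?_⟩
  · rintro _ ⟨x, hx, rfl⟩
    simp only [smul_smul]
    rwa [mul_inv_cancel₀ hR.ne', one_smul]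
  · have h1 : ∀ x y : E n, nk n c (Homeomorph.smulOfNeZero (α := E n) R hR.ne' x)
        (Homeomorph.smulOfNeZero (α := E n) R hR.ne' y) = ENNReal.ofReal a * nk n c' x y := by
      intro x y
      show nk n c (R • x) (R • y) = _
      unfold nk
      by_cases hxy : x = y
      · rw [hxy, if_pos rfl, if_pos rfl, ENNReal.mul_top]
        exact (ENNReal.ofReal_pos.2 ha).ne'
      · have h2 : R • x ≠ R • y := fun h => hxy (smul_right_injective _ hR.ne' h)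
        rw [if_neg hxy, if_neg h2, ← ENNReal.ofReal_mul ha.le, dist_smul₀, Real.norm_eq_abs,
          abs_of_pos hR, hac _ (dist_pos.2 hxy)]
    have h2 := (Homeomorph.smulOfNeZero (α := E n) R hR.ne').measurableEmbedding
    unfold ken
    rw [h2.lintegral_map]
    simp_rw [h2.lintegral_map, h1]
    have h3 : ∀ x, ∫⁻ y, ENNReal.ofReal a * nk n c' x y ∂ν =
        ENNReal.ofReal a * ∫⁻ y, nk n c' x y ∂ν := fun x =>
      lintegral_const_mul' _ _ ENNReal.ofReal_ne_top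
    simp_rw [h3]
    rw [lintegral_const_mul' _ _ ENNReal.ofReal_ne_top]
    calc ENNReal.ofReal a * ∫⁻ x, ∫⁻ y, nk n c' x y ∂ν ∂ν
        ≤ ENNReal.ofReal a * ENNReal.ofReal (c' + Nk n 1) := by
          gcongr
          exact hen
      _ = ENNReal.ofReal (c + Nk n R) := by
          rw [← ENNReal.ofReal_mul ha.le, ← hac 1 one_pos, mul_one]

end Pool.Agent.Lib.MP_6cd19d_an.A
end
end
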